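import Mathlib
import Pool.Agent.H821R3.Wirt

/-!
One-dimensional inequalities for the weighted Hardy constant.
-/

set_option autoImplicit false

open MeasureTheory Set Filter Topology Real

noncomputable section

namespace Pool.Agent.N822.HC

/-- shift invariance of integrals of periodic functions -/
theorem per_shift {f : ℝ → ℝ} (hp : Function.Periodic f (2 * π)) (c : ℝ) :
    ∫ θ in (0:ℝ)..(2 * π), f (θ + c) = ∫ θ in (0:ℝ)..(2 * π), f θ := by
  rw [intervalIntegral.integral_comp_add_right (fun x => f x) c]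
  have := hp.intervalIntegral_add_eq c 0
  rw [zero_add] at this ⊢
  rw [add_comm (2 * π) c]
  exact this

theorem lin2 (a b : ℝ) (f g : ℝ → ℝ) (hf : Continuous f) (hg : Continuous g) (u v : ℝ) :
    ∫ θ in u..v, (a * f θ + b * g θ) = a * (∫ θ in u..v, f θ) + b * ∫ θ in u..v, g θ := by
  have h1 : Continuous fun θ => a * f θ := by fun_prop
  have h2 : Continuous fun θ => b * g θ := by fun_prop
  rw [intervalIntegral.integral_add (h1.intervalIntegrable _ _)
    (h2.intervalIntegrable _ _), intervalIntegral.integral_const_mul,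
    intervalIntegral.integral_const_mul]

theorem lin3 (a b c : ℝ) (f g h : ℝ → ℝ) (hf : Continuous f) (hg : Continuous g)
    (hh : Continuous h) (u v : ℝ) :
    ∫ θ in u..v, (a * f θ + b * g θ + c * h θ) =
      a * (∫ θ in u..v, f θ) + b * (∫ θ in u..v, g θ) + c * ∫ θ in u..v, h θ := by
  have h1 : Continuous fun θ => a * f θ + b * g θ := by fun_prop
  have h2 : Continuous fun θ => c * h θ := by fun_prop
  rw [intervalIntegral.integral_add (h1.intervalIntegrable _ _)
    (h2.intervalIntegrable _ _), lin2 a b f g hf hg,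
    intervalIntegral.integral_const_mul]

/-- The inequality behind the Gaussian Poincare inequality: comparison of a periodic function with
its translate by a quarter of the period. -/
theorem lag (φ φ' : ℝ → ℝ) (hφ : ∀ θ, HasDerivAt φ (φ' θ) θ) (hc : Continuous φ')
    (hper : ∀ θ, φ (θ + 2 * π) = φ θ) :
    ∫ θ in (0:ℝ)..(2 * π), (φ θ - φ (θ + π / 2)) ^ 2 ≤ 2 * ∫ θ in (0:ℝ)..(2 * π), φ' θ ^ 2 := by
  have hφc : Continuous φ := continuous_iff_continuousAt.2 fun x => (hφ x).continuousAt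
  have hper' : ∀ θ, φ' (θ + 2 * π) = φ' θ := by
    intro θ
    have h1 : HasDerivAt (fun x => φ (x + 2 * π)) (φ' (θ + 2 * π)) θ := by
      simpa using (hφ (θ + 2 * π)).comp_add_const θ (2 * π)
    have h2 : (fun x => φ (x + 2 * π)) = φ := funext hper
    rw [h2] at h1
    exact h1.unique (hφ θ)
  -- odd and even parts
  set ψ : ℝ → ℝ := fun θ => φ θ - φ (θ + π) with hψ
  set χ : ℝ → ℝ := fun θ => φ θ + φ (θ + π) with hχ
  set ψ' : ℝ → ℝ := fun θ => φ' θ - φ' (θ + π) with hψ'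
  set χ' : ℝ → ℝ := fun θ => φ' θ + φ' (θ + π) with hχ'
  have dsh : ∀ c θ, HasDerivAt (fun x => φ (x + c)) (φ' (θ + c)) θ := fun c θ => by
    simpa using (hφ (θ + c)).comp_add_const θ c
  have dψ : ∀ θ, HasDerivAt ψ (ψ' θ) θ := fun θ => (hφ θ).sub (dsh π θ)
  have dχ : ∀ θ, HasDerivAt χ (χ' θ) θ := fun θ => (hφ θ).add (dsh π θ)
  have csh : ∀ c, Continuous fun θ => φ (θ + c) := fun c => hφc.comp (continuous_id.add continuous_const)
  have csh' : ∀ c, Continuous fun θ => φ' (θ + c) := fun c => hc.comp (continuous_id.add continuous_const)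
  have cψ : Continuous ψ := hφc.sub (csh π)
  have cχ : Continuous χ := hφc.add (csh π)
  have cψ' : Continuous ψ' := hc.sub (csh' π)
  have cχ' : Continuous χ' := hc.add (csh' π)
  have ψanti : ∀ θ, ψ (θ + π) = - ψ θ := fun θ => by
    have : θ + π + π = θ + 2 * π := by ring
    simp only [hψ, this, hper]; ring
  have χper : ∀ θ, χ (θ + π) = χ θ := fun θ => by
    have : θ + π + π = θ + 2 * π := by ring
    simp only [hχ, this, hper]; ring
  have χper' : ∀ θ, χ' (θ + π) = χ' θ := fun θ => by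
    have : θ + π + π = θ + 2 * π := by ring
    simp only [hχ', this, hper']; ring
  have ψper : ∀ θ, ψ (θ + 2 * π) = ψ θ := fun θ => by
    have : θ + 2 * π = θ + π + π := by ring
    rw [this, ψanti, ψanti, neg_neg]
  have ψper' : ∀ θ, ψ' (θ + 2 * π) = ψ' θ := fun θ => by
    have : θ + 2 * π + π = θ + π + 2 * π := by ring
    simp only [hψ', this, hper']
  have χper2 : ∀ θ, χ (θ + 2 * π) = χ θ := fun θ => by
    have : θ + 2 * π = θ + π + π := by ring
    rw [this, χper, χper]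
  have χper2' : ∀ θ, χ' (θ + 2 * π) = χ' θ := fun θ => by
    have : θ + 2 * π = θ + π + π := by ring
    rw [this, χper', χper']
  have ii : ∀ {f : ℝ → ℝ}, Continuous f → IntervalIntegrable f volume 0 (2 * π) :=
    fun h => h.intervalIntegrable _ _
  -- vanishing of antiperiodic integrals
  have anti0 : ∀ f : ℝ → ℝ, Continuous f → (∀ θ, f (θ + π) = - f θ) →
      ∫ θ in (0:ℝ)..(2 * π), f θ = 0 := by
    intro f _ hf
    have hp : Function.Periodic f (2 * π) := fun θ => by
      have : θ + 2 * π = θ + π + π := by ring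
      rw [this, hf, hf, neg_neg]
    have h1 := per_shift hp π
    simp only [hf, intervalIntegral.integral_neg] at h1
    linarith
  -- Wirtinger for the odd part
  have w1 : ∫ θ in (0:ℝ)..(2 * π), ψ θ ^ 2 ≤ ∫ θ in (0:ℝ)..(2 * π), ψ' θ ^ 2 := by
    have h := Pool.Agent.H821R3.wirtinger ψ ψ' dψ cψ' ψper ψper'
    rw [anti0 ψ cψ ψanti] at h
    simpa using h
  -- Wirtinger for the even part
  obtain ⟨c, w2⟩ : ∃ c : ℝ, 4 * ∫ θ in (0:ℝ)..(2 * π), (χ θ - c) ^ 2 ≤
      ∫ θ in (0:ℝ)..(2 * π), χ' θ ^ 2 := by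
    set c : ℝ := (1 / (2 * π)) * ∫ θ in (0:ℝ)..(2 * π), χ (θ / 2) with hcdef
    refine ⟨c, ?_⟩
    have hpi := Real.pi_pos
    have d2 : ∀ θ, HasDerivAt (fun θ => χ (θ / 2) - c) (χ' (θ / 2) / 2) θ := by
      intro θ
      have h1 : HasDerivAt (fun θ : ℝ => θ / 2) (1 / 2) θ := (hasDerivAt_id θ).div_const 2
      have h2 := (dχ (θ / 2)).scomp θ h1
      have h3 : HasDerivAt (fun θ => χ (θ / 2)) (χ' (θ / 2) / 2) θ := by
        refine h2.congr_deriv ?_
        simp only [smul_eq_mul]; ring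
      exact h3.sub_const c
    have h := Pool.Agent.H821R3.wirtinger (fun θ => χ (θ / 2) - c) (fun θ => χ' (θ / 2) / 2) d2
      ((cχ'.comp (continuous_id.div_const 2)).div_const 2)
      (fun θ => by
        have : (θ + 2 * π) / 2 = θ / 2 + π := by ring
        simp only [this, χper]) (fun θ => by
        have : (θ + 2 * π) / 2 = θ / 2 + π := by ring
        simp only [this, χper'])
    have cχ2 : Continuous fun θ => χ (θ / 2) := cχ.comp (continuous_id.div_const 2)
    have hz : ∫ θ in (0:ℝ)..(2 * π), (χ (θ / 2) - c) = 0 := by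
      rw [intervalIntegral.integral_sub (ii cχ2) (ii continuous_const),
        intervalIntegral.integral_const, hcdef]
      simp only [sub_zero, smul_eq_mul]
      field_simp
      ring
    rw [hz] at h
    simp only [ne_eq, OfNat.ofNat_ne_zero, not_false_eq_true, zero_pow, mul_zero, add_zero] at h
    have half : ∀ f : ℝ → ℝ, Continuous f → (∀ θ, f (θ + π) = f θ) →
        ∫ θ in (0:ℝ)..(2 * π), f (θ / 2) = ∫ θ in (0:ℝ)..(2 * π), f θ := by
      intro f hf hfp
      rw [intervalIntegral.integral_comp_div (fun x => f x) (two_ne_zero)]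
      have e1 : (0:ℝ) / 2 = 0 := by norm_num
      have e2 : 2 * π / 2 = π := by ring
      rw [e1, e2, smul_eq_mul]
      have h1 : ∫ θ in (0:ℝ)..(2 * π), f θ = (∫ θ in (0:ℝ)..π, f θ) + ∫ θ in π..(2 * π), f θ :=
        (intervalIntegral.integral_add_adjacent_intervals (hf.intervalIntegrable _ _)
          (hf.intervalIntegrable _ _)).symm
      have h2 : ∫ θ in π..(2 * π), f θ = ∫ θ in (0:ℝ)..π, f θ := by
        have h3 := intervalIntegral.integral_comp_add_right (a := 0) (b := π) (fun x => f x) π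
        rw [zero_add, ← two_mul] at h3
        rw [← h3]
        simp only [hfp]
      rw [h1, h2]; ring
    have e1 := half (fun θ => (χ θ - c) ^ 2) ((cχ.sub continuous_const).pow 2)
      (fun θ => by simp only [χper])
    have e2 : ∫ θ in (0:ℝ)..(2 * π), (χ' (θ / 2) / 2) ^ 2 =
        (1 / 4) * ∫ θ in (0:ℝ)..(2 * π), χ' θ ^ 2 := by
      rw [← half (fun θ => χ' θ ^ 2) (cχ'.pow 2) (fun θ => by simp only [χper'])]
      rw [← intervalIntegral.integral_const_mul]
      congr 1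
      funext θ
      ring
    rw [e1, e2] at h
    linarith
  -- decomposition
  set P : ℝ → ℝ := fun θ => ψ θ - ψ (θ + π / 2) with hP
  set Q : ℝ → ℝ := fun θ => χ θ - χ (θ + π / 2) with hQ
  have cP : Continuous P := cψ.sub (cψ.comp (continuous_id.add continuous_const))
  have cQ : Continuous Q := cχ.sub (cχ.comp (continuous_id.add continuous_const))
  have e0 : ∀ θ, (φ θ - φ (θ + π / 2)) ^ 2 =
      (1 / 4) * P θ ^ 2 + (1 / 2) * (P θ * Q θ) + (1 / 4) * Q θ ^ 2 := by
    intro θ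
    simp only [hP, hQ, hψ, hχ]
    ring
  have i1 : ∫ θ in (0:ℝ)..(2 * π), P θ * Q θ = 0 := by
    refine anti0 _ (cP.mul cQ) fun θ => ?_
    have h1 : θ + π + π / 2 = θ + π / 2 + π := by ring
    simp only [hP, hQ, h1, ψanti, χper]
    ring
  have i2 : ∫ θ in (0:ℝ)..(2 * π), P θ ^ 2 = 2 * ∫ θ in (0:ℝ)..(2 * π), ψ θ ^ 2 := by
    have hI : ∫ θ in (0:ℝ)..(2 * π), ψ θ * ψ (θ + π / 2) = 0 := by
      have hp : Function.Periodic (fun θ => ψ θ * ψ (θ + π / 2)) (2 * π) := fun θ => by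
        have h1 : θ + 2 * π + π / 2 = θ + π / 2 + 2 * π := by ring
        simp only [h1, ψper]
      have h1 := per_shift hp (π / 2)
      have h2 : (fun θ => ψ (θ + π / 2) * ψ (θ + π / 2 + π / 2)) =
          fun θ => -(ψ θ * ψ (θ + π / 2)) := by
        funext θ
        have : θ + π / 2 + π / 2 = θ + π := by ring
        rw [this, ψanti]; ring
      rw [h2, intervalIntegral.integral_neg] at h1
      linarith
    have hS : ∫ θ in (0:ℝ)..(2 * π), ψ (θ + π / 2) ^ 2 = ∫ θ in (0:ℝ)..(2 * π), ψ θ ^ 2 :=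
      per_shift (f := fun θ => ψ θ ^ 2) (fun θ => by simp only [ψper]) (π / 2)
    have e : ∀ θ, P θ ^ 2 = 1 * ψ θ ^ 2 + 1 * ψ (θ + π / 2) ^ 2 +
        (-2) * (ψ θ * ψ (θ + π / 2)) := fun θ => by
      simp only [hP]; ring
    have cs : Continuous fun θ => ψ (θ + π / 2) := cψ.comp (continuous_id.add continuous_const)
    simp only [e]
    rw [lin3 1 1 (-2) (fun θ => ψ θ ^ 2) (fun θ => ψ (θ + π / 2) ^ 2)
      (fun θ => ψ θ * ψ (θ + π / 2)) (by fun_prop) (by fun_prop) (by fun_prop), hI, hS]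
    ring
  have i3 : ∫ θ in (0:ℝ)..(2 * π), Q θ ^ 2 ≤ 4 * ∫ θ in (0:ℝ)..(2 * π), (χ θ - c) ^ 2 := by
    have cs : Continuous fun θ => χ (θ + π / 2) := cχ.comp (continuous_id.add continuous_const)
    have hS : ∫ θ in (0:ℝ)..(2 * π), (χ (θ + π / 2) - c) ^ 2 =
        ∫ θ in (0:ℝ)..(2 * π), (χ θ - c) ^ 2 :=
      per_shift (f := fun θ => (χ θ - c) ^ 2) (fun θ => by simp only [χper2]) (π / 2)
    have h1 : ∫ θ in (0:ℝ)..(2 * π), Q θ ^ 2 ≤
        ∫ θ in (0:ℝ)..(2 * π), (2 * (χ θ - c) ^ 2 + 2 * (χ (θ + π / 2) - c) ^ 2) := by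
      refine intervalIntegral.integral_mono_on (by positivity) (ii (cQ.pow 2))
        (ii ((continuous_const.mul ((cχ.sub continuous_const).pow 2)).add
          (continuous_const.mul ((cs.sub continuous_const).pow 2)))) fun θ _ => ?_
      simp only [hQ]
      nlinarith [sq_nonneg ((χ θ - c) + (χ (θ + π / 2) - c))]
    refine h1.trans (le_of_eq ?_)
    rw [lin2 2 2 (fun θ => (χ θ - c) ^ 2) (fun θ => (χ (θ + π / 2) - c) ^ 2) (by fun_prop)
      (by fun_prop), hS]
    ring
  have i4 : (∫ θ in (0:ℝ)..(2 * π), ψ' θ ^ 2) + ∫ θ in (0:ℝ)..(2 * π), χ' θ ^ 2 =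
      4 * ∫ θ in (0:ℝ)..(2 * π), φ' θ ^ 2 := by
    have hS : ∫ θ in (0:ℝ)..(2 * π), φ' (θ + π) ^ 2 = ∫ θ in (0:ℝ)..(2 * π), φ' θ ^ 2 :=
      per_shift (f := fun θ => φ' θ ^ 2) (fun θ => by simp only [hper']) π
    have h1 := lin2 1 1 (fun θ => ψ' θ ^ 2) (fun θ => χ' θ ^ 2) (by fun_prop) (by fun_prop) 0 (2 * π)
    have h2 := lin2 2 2 (fun θ => φ' θ ^ 2) (fun θ => φ' (θ + π) ^ 2) (by fun_prop)
      ((csh' π).pow 2) 0 (2 * π)
    have e : (fun θ => 1 * ψ' θ ^ 2 + 1 * χ' θ ^ 2) =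
        fun θ => 2 * φ' θ ^ 2 + 2 * φ' (θ + π) ^ 2 := funext fun θ => by
      simp only [hψ', hχ']; ring
    rw [e] at h1
    rw [h2, hS] at h1
    linarith
  have i5 : 0 ≤ ∫ θ in (0:ℝ)..(2 * π), χ' θ ^ 2 :=
    intervalIntegral.integral_nonneg (by positivity) fun θ _ => sq_nonneg _
  simp only [e0]
  rw [lin3 (1 / 4) (1 / 2) (1 / 4) (fun θ => P θ ^ 2) (fun θ => P θ * Q θ) (fun θ => Q θ ^ 2)
    (by fun_prop) (by fun_prop) (by fun_prop), i1, i2]
  linarith

end Pool.Agent.N822.HC
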