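import Mathlib
import Pool.Agent.N822.HC.OneD

/-!
One-dimensional weighted inequalities.
-/

set_option autoImplicit false
set_option linter.unusedVariables false

open MeasureTheory Set Filter Topology Real

noncomputable section

namespace Pool.Agent.N822.HC

theorem quad_nonneg {a b c x y : ℝ} (ha : 0 ≤ a) (hc : 0 ≤ c) (h : b ^ 2 ≤ a * c) :
    0 ≤ a * x ^ 2 + 2 * (b * (x * y)) + c * y ^ 2 := by
  rcases eq_or_lt_of_le ha with h0 | h0
  · rw [← h0, zero_mul] at h
    have hb : b = 0 := pow_eq_zero_iff two_ne_zero |>.1 (le_antisymm h (sq_nonneg _))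
    rw [hb, ← h0]
    nlinarith [mul_nonneg hc (sq_nonneg y)]
  · have h1 : 0 ≤ a * (a * x ^ 2 + 2 * (b * (x * y)) + c * y ^ 2) := by
      have : a * (a * x ^ 2 + 2 * (b * (x * y)) + c * y ^ 2) =
          (a * x + b * y) ^ 2 + (a * c - b ^ 2) * y ^ 2 := by ring
      rw [this]
      have := mul_nonneg (sub_nonneg.2 h) (sq_nonneg y)
      positivity
    exact nonneg_of_mul_nonneg_right h1 h0

/-- ground state inequality -/
theorem super {R : ℝ} (hR : 0 ≤ R) {v v' p P P' N : ℝ → ℝ} (hv : ∀ r, HasDerivAt v (v' r) r)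
    (hv' : Continuous v') (hp : Continuous p) (hN : Continuous N)
    (hP : ∀ r, HasDerivAt P (P' r) r) (hP' : Continuous P') (h0 : P 0 = 0) (hvR : v R = 0)
    (hpos : ∀ r ∈ Icc 0 R, 0 ≤ p r) (hN0 : ∀ r ∈ Icc 0 R, 0 ≤ N r)
    (hPN : ∀ r ∈ Icc 0 R, P r ^ 2 ≤ p r * N r) :
    ∫ r in (0:ℝ)..R, (P' r - N r) * v r ^ 2 ≤ ∫ r in (0:ℝ)..R, p r * v' r ^ 2 := by
  have hvc : Continuous v := continuous_iff_continuousAt.2 fun x => (hv x).continuousAt
  have hPc : Continuous P := continuous_iff_continuousAt.2 fun x => (hP x).continuousAt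
  have hd : ∀ r, HasDerivAt (fun r => P r * v r ^ 2) (P' r * v r ^ 2 + P r * (2 * v r * v' r)) r := by
    intro r
    have h1 := (hP r).mul ((hv r).pow 2)
    refine h1.congr_deriv ?_
    simp
  have hdc : Continuous fun r => P' r * v r ^ 2 + P r * (2 * v r * v' r) := by fun_prop
  have hft := intervalIntegral.integral_eq_sub_of_hasDerivAt (a := 0) (b := R) (fun r _ => hd r)
    (hdc.intervalIntegrable _ _)
  rw [h0, hvR] at hft
  simp only [ne_eq, OfNat.ofNat_ne_zero, not_false_eq_true, zero_pow, mul_zero, zero_mul,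
    sub_zero] at hft
  have hle : ∫ r in (0:ℝ)..R, (P' r - N r) * v r ^ 2 ≤ ∫ r in (0:ℝ)..R,
      (p r * v' r ^ 2 + (P' r * v r ^ 2 + P r * (2 * v r * v' r))) := by
    refine intervalIntegral.integral_mono_on hR (Continuous.intervalIntegrable (by fun_prop) _ _)
      (Continuous.intervalIntegrable (by fun_prop) _ _) fun r hr => ?_
    have := quad_nonneg (x := v' r) (y := v r) (hpos r hr) (hN0 r hr) (hPN r hr)
    nlinarith
  have c1 : Continuous fun r => p r * v' r ^ 2 := by fun_prop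
  rw [intervalIntegral.integral_add (c1.intervalIntegrable _ _) (hdc.intervalIntegrable _ _),
    hft, add_zero] at hle
  exact hle

/-! ### the weights -/

/-- `(1 + r ^ 2) ^ κ` -/
def wt (κ r : ℝ) : ℝ := (1 + r ^ 2) ^ κ

theorem one_add_sq_pos (r : ℝ) : 0 < 1 + r ^ 2 := by positivity

theorem wt_pos (κ r : ℝ) : 0 < wt κ r := Real.rpow_pos_of_pos (one_add_sq_pos r) κ

theorem wt_cont (κ : ℝ) : Continuous (wt κ) := by
  unfold wt
  exact (by fun_prop : Continuous fun r : ℝ => 1 + r ^ 2).rpow_const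
    fun r => Or.inl (one_add_sq_pos r).ne'

theorem wt_deriv (κ r : ℝ) : HasDerivAt (wt κ) (2 * κ * r * wt (κ - 1) r) r := by
  have h1 : HasDerivAt (fun r : ℝ => 1 + r ^ 2) (2 * r) r := by
    have := (hasDerivAt_pow 2 r).const_add 1
    simpa using this
  have h2 := h1.rpow_const (p := κ) (Or.inl (one_add_sq_pos r).ne')
  refine h2.congr_deriv ?_
  unfold wt
  ring

theorem wt_succ (κ r : ℝ) : wt κ r = (1 + r ^ 2) * wt (κ - 1) r := by
  unfold wt
  rw [Real.rpow_sub_one (one_add_sq_pos r).ne']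
  field_simp

theorem wt_mul (κ μ r : ℝ) : wt κ r * wt μ r = wt (κ + μ) r := by
  unfold wt
  rw [Real.rpow_add (one_add_sq_pos r)]

/-- regime without constraint -/
theorem rad_free {n : ℕ} (hn : 1 ≤ n) {α β lam R : ℝ} (hR : 0 ≤ R) (h0 : lam ≤ 2 * β * n)
    (h1 : lam ≤ 2 * β * (n + 2 * α - 2 - 2 * β)) {v v' : ℝ → ℝ}
    (hv : ∀ r, HasDerivAt v (v' r) r) (hv' : Continuous v') (hvR : v R = 0) :
    lam * ∫ r in (0:ℝ)..R, r ^ (n - 1) * wt (α - 1) r * v r ^ 2 ≤
      ∫ r in (0:ℝ)..R, r ^ (n - 1) * wt α r * v' r ^ 2 := by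
  have hvc : Continuous v := continuous_iff_continuousAt.2 fun x => (hv x).continuousAt
  have w0 := wt_cont α
  have w1 := wt_cont (α - 1)
  have w2 := wt_cont (α - 2)
  set P : ℝ → ℝ := fun r => 2 * β * (r ^ n * wt (α - 1) r) with hPdef
  set P' : ℝ → ℝ := fun r => 2 * β * (n * r ^ (n - 1) * wt (α - 1) r +
    r ^ n * (2 * (α - 1) * r * wt (α - 2) r)) with hP'def
  set N : ℝ → ℝ := fun r => 4 * β ^ 2 * (r ^ (n + 1) * wt (α - 2) r) with hNdef
  have hP : ∀ r, HasDerivAt P (P' r) r := by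
    intro r
    have h := ((hasDerivAt_pow n r).mul (wt_deriv (α - 1) r)).const_mul (2 * β)
    have e : α - 1 - 1 = α - 2 := by ring
    rw [e] at h
    exact h
  have key := super (R := R) hR (v := v) (v' := v') (p := fun r => r ^ (n - 1) * wt α r) (P := P)
    (P' := P') (N := N) hv hv' (by fun_prop) (by rw [hNdef]; fun_prop) hP
    (by rw [hP'def]; fun_prop) (by
      simp only [hPdef]
      rw [zero_pow (by omega)]; ring) hvR
    (fun r hr => mul_nonneg (pow_nonneg hr.1 _) (wt_pos _ _).le)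
    (fun r hr => by
      simp only [hNdef]
      have := mul_nonneg (pow_nonneg hr.1 (n + 1)) (wt_pos (α - 2) r).le
      positivity)
    (fun r hr => by
      simp only [hPdef, hNdef]
      have e1 : wt (α - 1) r * wt (α - 1) r = wt α r * wt (α - 2) r := by
        rw [wt_mul, wt_mul]; congr 1; ring
      have e2 : r ^ n * r ^ n = r ^ (n - 1) * r ^ (n + 1) := by
        rw [← pow_add, ← pow_add]; congr 1; omega
      apply le_of_eq
      calc (2 * β * (r ^ n * wt (α - 1) r)) ^ 2
          = 4 * β ^ 2 * ((r ^ n * r ^ n) * (wt (α - 1) r * wt (α - 1) r)) := by ring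
        _ = 4 * β ^ 2 * ((r ^ (n - 1) * r ^ (n + 1)) * (wt α r * wt (α - 2) r)) := by rw [e1, e2]
        _ = _ := by ring)
  refine le_trans ?_ key
  rw [← intervalIntegral.integral_const_mul]
  refine intervalIntegral.integral_mono_on hR (Continuous.intervalIntegrable (by fun_prop) _ _)
    (Continuous.intervalIntegrable (by rw [hP'def, hNdef]; fun_prop) _ _) fun r hr => ?_
  have e1 : r ^ n = r ^ (n - 1) * r := by rw [← pow_succ]; congr 1; omega
  have e2 : r ^ (n + 1) = r ^ (n - 1) * r ^ 2 := by rw [← pow_add]; congr 1; omega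
  have e3 : wt (α - 1) r = (1 + r ^ 2) * wt (α - 2) r := by
    rw [wt_succ]; congr 2; ring
  have hpn := pow_nonneg hr.1 (n - 1)
  have hw2 := (wt_pos (α - 2) r).le
  simp only [hP'def, hNdef]
  rw [e1, e2, e3]
  have hq : lam * (1 + r ^ 2) ≤ 2 * β * n * (1 + r ^ 2) + 4 * β * (α - 1) * r ^ 2 - 4 * β ^ 2 * r ^ 2 := by
    nlinarith [sq_nonneg r, mul_nonneg (sub_nonneg.2 h1) (sq_nonneg r)]
  have hK : 0 ≤ r ^ (n - 1) * wt (α - 2) r * v r ^ 2 := by positivity
  have := mul_le_mul_of_nonneg_left hq hK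
  nlinarith [this]

/-- non-radial part -/
theorem rad_ang {n : ℕ} (hn : 3 ≤ n) {α R : ℝ} (hR : 0 ≤ R) {v v' : ℝ → ℝ}
    (hv : ∀ r, HasDerivAt v (v' r) r) (hv' : Continuous v') (hvR : v R = 0) :
    ∫ r in (0:ℝ)..R, (-((n : ℝ) - 1) * (r ^ (n - 3) * wt α r) -
      2 * α * (r ^ (n - 1) * wt (α - 1) r)) * v r ^ 2 ≤
      ∫ r in (0:ℝ)..R, r ^ (n - 1) * wt α r * v' r ^ 2 := by
  have w0 := wt_cont α
  have w1 := wt_cont (α - 1)
  set P : ℝ → ℝ := fun r => -(r ^ (n - 2) * wt α r) with hPdef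
  set P' : ℝ → ℝ := fun r => -((n - 2 : ℕ) * r ^ (n - 3) * wt α r +
    r ^ (n - 2) * (2 * α * r * wt (α - 1) r)) with hP'def
  set N : ℝ → ℝ := fun r => r ^ (n - 3) * wt α r with hNdef
  have hP : ∀ r, HasDerivAt P (P' r) r := by
    intro r
    have h := ((hasDerivAt_pow (n - 2) r).mul (wt_deriv α r)).neg
    have e : n - 2 - 1 = n - 3 := by omega
    rw [e] at h
    exact h
  have key := super (R := R) hR (v := v) (v' := v') (p := fun r => r ^ (n - 1) * wt α r) (P := P)
    (P' := P') (N := N) hv hv' (by fun_prop) (by rw [hNdef]; fun_prop) hP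
    (by rw [hP'def]; fun_prop) (by
      simp only [hPdef]
      rw [zero_pow (by omega)]; ring) hvR
    (fun r hr => mul_nonneg (pow_nonneg hr.1 _) (wt_pos _ _).le)
    (fun r hr => mul_nonneg (pow_nonneg hr.1 _) (wt_pos _ _).le)
    (fun r hr => by
      simp only [hPdef, hNdef]
      have e2 : r ^ (n - 2) * r ^ (n - 2) = r ^ (n - 1) * r ^ (n - 3) := by
        rw [← pow_add, ← pow_add]; congr 1; omega
      apply le_of_eq
      calc (-(r ^ (n - 2) * wt α r)) ^ 2
          = (r ^ (n - 2) * r ^ (n - 2)) * (wt α r * wt α r) := by ring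
        _ = (r ^ (n - 1) * r ^ (n - 3)) * (wt α r * wt α r) := by rw [e2]
        _ = _ := by ring)
  refine le_trans (le_of_eq ?_) key
  congr 1
  funext r
  simp only [hP'def, hNdef]
  have e1 : r ^ (n - 1) = r ^ (n - 2) * r := by rw [← pow_succ]; congr 1; omega
  have e2 : ((n - 2 : ℕ) : ℝ) = n - 2 := by
    rw [Nat.cast_sub (by omega)]; norm_num
  rw [e1, e2]
  ring

/-- radial part with mean zero -/
theorem rad_mean {n : ℕ} (hn : 1 ≤ n) {α γ lam R : ℝ} (hR : 0 < R) (hlam : 0 < lam)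
    (h0 : lam ≤ 2 * γ * n - 2 * (n + 2 * α - 2 * γ))
    (h1 : lam ≤ 2 * (γ - 1) * (n + 2 * α - 2 * γ)) {A A' : ℝ → ℝ}
    (hA : ∀ r, HasDerivAt A (A' r) r) (hA' : Continuous A') (hAR : A R = 0)
    (hmean : ∫ r in (0:ℝ)..R, r ^ (n - 1) * wt (α - 1) r * A r = 0) :
    lam * ∫ r in (0:ℝ)..R, r ^ (n - 1) * wt (α - 1) r * A r ^ 2 ≤
      ∫ r in (0:ℝ)..R, r ^ (n - 1) * wt α r * A' r ^ 2 := by
  have hAc : Continuous A := continuous_iff_continuousAt.2 fun x => (hA x).continuousAt
  have w0 := wt_cont α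
  have w1 := wt_cont (α - 1)
  have w2 := wt_cont (-γ)
  have w3 := wt_cont (α - γ)
  have w4 := wt_cont (-γ - 1)
  set m : ℝ → ℝ := fun r => r ^ (n - 1) * wt (α - 1) r with hm
  set p : ℝ → ℝ := fun r => r ^ (n - 1) * wt α r with hp
  have hmc : Continuous m := by rw [hm]; fun_prop
  have hpc : Continuous p := by rw [hp]; fun_prop
  set G : ℝ → ℝ := fun r => ∫ s in (0:ℝ)..r, m s * A s with hG
  have hmA : Continuous fun r => m r * A r := hmc.mul hAc
  have dG : ∀ r, HasDerivAt G (m r * A r) r := fun r =>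
    intervalIntegral.integral_hasDerivAt_right (hmA.intervalIntegrable _ _)
      (hmA.stronglyMeasurableAtFilter _ _) hmA.continuousAt
  have hGc : Continuous G := continuous_iff_continuousAt.2 fun x => (dG x).continuousAt
  have G0 : G 0 = 0 := by simp [hG]
  have GR : G R = 0 := hmean
  set κ : ℝ := n + 2 * α - 2 * γ with hκ
  set l : ℝ → ℝ := fun r => wt (-γ) r * (n + κ * r ^ 2) with hl
  set l' : ℝ → ℝ := fun r => 2 * (-γ) * r * wt (-γ - 1) r * (n + κ * r ^ 2) +
    wt (-γ) r * (κ * (2 * r)) with hl'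
  set ψ : ℝ → ℝ := fun r => r ^ n * wt (α - γ) r with hψ
  have hlc : Continuous l := by rw [hl]; fun_prop
  have hlc' : Continuous l' := by rw [hl']; fun_prop
  have hψc : Continuous ψ := by rw [hψ]; fun_prop
  have dl : ∀ r, HasDerivAt l (l' r) r := by
    intro r
    have e1 : HasDerivAt (fun r : ℝ => (n : ℝ) + κ * r ^ 2) (κ * (2 * r)) r := by
      have := ((hasDerivAt_pow 2 r).const_mul κ).const_add (n : ℝ)
      simpa using this
    exact (wt_deriv (-γ) r).mul e1
  have dψ : ∀ r, HasDerivAt ψ (m r * l r) r := by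
    intro r
    have h := (hasDerivAt_pow n r).mul (wt_deriv (α - γ) r)
    refine h.congr_deriv ?_
    simp only [hm, hl]
    have e1 : r ^ n = r ^ (n - 1) * r := by rw [← pow_succ]; congr 1; omega
    have e2 : wt (α - γ) r = (1 + r ^ 2) * wt (α - γ - 1) r := wt_succ _ _
    have e3 : wt (α - 1) r * wt (-γ) r = wt (α - γ - 1) r := by
      rw [wt_mul]; congr 1; ring
    have e4 : r ^ (n - 1) * wt (α - 1) r * (wt (-γ) r * (n + κ * r ^ 2)) =
        r ^ (n - 1) * (wt (α - 1) r * wt (-γ) r) * (n + κ * r ^ 2) := by ring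
    rw [e4, e3, e1, e2, hκ]
    ring
  -- positivity facts for `r > 0`
  have mpos : ∀ r, 0 < r → 0 < m r := fun r hr => mul_pos (pow_pos hr _) (wt_pos _ _)
  have ppos : ∀ r, 0 < r → 0 < p r := fun r hr => mul_pos (pow_pos hr _) (wt_pos _ _)
  have ψpos : ∀ r, 0 < r → 0 < ψ r := fun r hr => mul_pos (pow_pos hr _) (wt_pos _ _)
  have ψp : ∀ r, ψ r = p r * (r * wt (-γ) r) := fun r => by
    simp only [hψ, hp]
    have e1 : r ^ n = r ^ (n - 1) * r := by rw [← pow_succ]; congr 1; omega
    have e3 : wt α r * wt (-γ) r = wt (α - γ) r := by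
      rw [wt_mul]; congr 1
    rw [e1, ← e3]; ring
  have lineq : ∀ r, 0 < r → lam * (r * wt (-γ) r) ≤ -l' r := by
    intro r hr
    simp only [hl']
    have e1 : wt (-γ) r = (1 + r ^ 2) * wt (-γ - 1) r := wt_succ _ _
    rw [e1]
    have hw := wt_pos (-γ - 1) r
    have hq : lam * (1 + r ^ 2) ≤ 2 * γ * (n + κ * r ^ 2) - 2 * κ * (1 + r ^ 2) := by
      nlinarith [mul_nonneg (sub_nonneg.2 h1) (sq_nonneg r)]
    have := mul_le_mul_of_nonneg_left hq (mul_pos hr hw).le
    nlinarith [this]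
  -- the estimate on `[ε, R]`
  set f0 : ℝ → ℝ := fun ε => ∫ r in ε..R, m r * A r ^ 2 with hf0
  set f1 : ℝ → ℝ := fun ε => ∫ r in ε..R, p r * A' r ^ 2 with hf1
  have est : ∀ ε, 0 < ε → ε < R → f0 ε ≤
      1 / lam * f1 ε + 2 * |G ε * A ε| + l ε * (G ε ^ 2 / ψ ε) := by
    intro ε hε hεR
    have hsub : ∀ r ∈ uIcc ε R, 0 < r := fun r hr => by
      rw [uIcc_of_le hεR.le] at hr; exact hε.trans_le hr.1
    have hne : ∀ r ∈ uIcc ε R, ψ r ≠ 0 := fun r hr => (ψpos r (hsub r hr)).ne'
    have hnp : ∀ r ∈ uIcc ε R, p r ≠ 0 := fun r hr => (ppos r (hsub r hr)).ne'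
    have cGp : ContinuousOn (fun r => G r ^ 2 / p r) (uIcc ε R) :=
      (hGc.pow 2).continuousOn.div hpc.continuousOn hnp
    -- first identity
    have d1 : ∀ r, HasDerivAt (fun r => G r * A r) (m r * A r * A r + G r * A' r) r :=
      fun r => (dG r).mul (hA r)
    have c1 : Continuous fun r => m r * A r * A r + G r * A' r := by fun_prop
    have s1 := intervalIntegral.integral_eq_sub_of_hasDerivAt (a := ε) (b := R)
      (fun r _ => d1 r) (c1.intervalIntegrable _ _)
    rw [hAR, mul_zero] at s1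
    -- second derivative identity
    have d2 : ∀ r ∈ uIcc ε R, HasDerivAt (fun r => l r * (G r ^ 2 / ψ r))
        (l' r * (G r ^ 2 / ψ r) + l r * ((2 * G r * (m r * A r) * ψ r - G r ^ 2 * (m r * l r)) /
          ψ r ^ 2)) r := by
      intro r hr
      have h2 : HasDerivAt (fun r => G r ^ 2) (2 * G r * (m r * A r)) r := by
        have := (dG r).pow 2
        refine this.congr_deriv ?_
        simp
      exact (dl r).mul (h2.div (dψ r) (hne r hr))
    have c2 : ContinuousOn (fun r => l' r * (G r ^ 2 / ψ r) + l r * ((2 * G r * (m r * A r) * ψ r -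
        G r ^ 2 * (m r * l r)) / ψ r ^ 2)) (uIcc ε R) := by
      refine (hlc'.continuousOn.mul ((hGc.pow 2).continuousOn.div hψc.continuousOn hne)).add
        (hlc.continuousOn.mul (ContinuousOn.div ?_ (hψc.pow 2).continuousOn fun r hr =>
          pow_ne_zero _ (hne r hr)))
      exact (by fun_prop : Continuous fun r => 2 * G r * (m r * A r) * ψ r -
        G r ^ 2 * (m r * l r)).continuousOn
    have s2 := intervalIntegral.integral_eq_sub_of_hasDerivAt (a := ε) (b := R) d2
      (c2.intervalIntegrable)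
    rw [GR] at s2
    -- pointwise: `lam G^2/p ≤ m A^2 - (l G^2/ψ)'`
    have s3 : lam * ∫ r in ε..R, G r ^ 2 / p r ≤ f0 ε + l ε * (G ε ^ 2 / ψ ε) := by
      have hle : ∫ r in ε..R, lam * (G r ^ 2 / p r) ≤ ∫ r in ε..R, (m r * A r ^ 2 -
          (l' r * (G r ^ 2 / ψ r) + l r * ((2 * G r * (m r * A r) * ψ r -
            G r ^ 2 * (m r * l r)) / ψ r ^ 2))) := by
        refine intervalIntegral.integral_mono_on hεR.le
          (continuousOn_const.mul cGp).intervalIntegrable
          (((by fun_prop : Continuous fun r => m r * A r ^ 2).continuousOn.sub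
            c2).intervalIntegrable) fun r hr => ?_
        have hr0 : 0 < r := hε.trans_le hr.1
        have q1 := lineq r hr0
        have q2 := ψpos r hr0
        have q3 := ppos r hr0
        have q4 := mpos r hr0
        have q5 : 0 ≤ m r * (A r - l r * G r / ψ r) ^ 2 := by positivity
        have q6 : lam * (G r ^ 2 / p r) ≤ (-l' r) * (G r ^ 2 / ψ r) := by
          have q7 : G r ^ 2 / p r = (r * wt (-γ) r) * (G r ^ 2 / ψ r) := by
            have a1 := hr0.ne'
            have a2 := (wt_pos (-γ) r).ne'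
            have a3 := q3.ne'
            rw [ψp r]
            generalize wt (-γ) r = W at a2 ⊢
            generalize p r = Q at a3 ⊢
            field_simp
          rw [q7, ← mul_assoc]
          exact mul_le_mul_of_nonneg_right q1 (by positivity)
        have q8 : m r * (A r - l r * G r / ψ r) ^ 2 = m r * A r ^ 2 -
            l r * ((2 * G r * (m r * A r) * ψ r - G r ^ 2 * (m r * l r)) / ψ r ^ 2) := by
          field_simp
          ring
        rw [q8] at q5
        linarith
      rw [intervalIntegral.integral_const_mul, intervalIntegral.integral_sub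
        (Continuous.intervalIntegrable (by fun_prop) _ _) c2.intervalIntegrable, s2] at hle
      have hz : l R * ((0:ℝ) ^ 2 / ψ R) = 0 := by simp
      rw [hz] at hle
      linarith
    -- first estimate
    have s4 : f0 ε ≤ |G ε * A ε| + 1 / (2 * lam) * f1 ε + lam / 2 * ∫ r in ε..R, G r ^ 2 / p r := by
      have e1 : f0 ε = ∫ r in ε..R, m r * A r * A r := by
        simp only [hf0]; congr 1; funext r; ring
      have e2 : ∫ r in ε..R, (m r * A r * A r + G r * A' r) =
          (∫ r in ε..R, m r * A r * A r) + ∫ r in ε..R, G r * A' r :=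
        intervalIntegral.integral_add (Continuous.intervalIntegrable (by fun_prop) _ _)
          (Continuous.intervalIntegrable (by fun_prop) _ _)
      have e3 : -∫ r in ε..R, G r * A' r ≤ 1 / (2 * lam) * f1 ε +
          lam / 2 * ∫ r in ε..R, G r ^ 2 / p r := by
        have k1 : IntervalIntegrable (fun r => 1 / (2 * lam) * (p r * A' r ^ 2)) volume ε R :=
          Continuous.intervalIntegrable (by fun_prop) _ _
        have k2 : IntervalIntegrable (fun r => lam / 2 * (G r ^ 2 / p r)) volume ε R :=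
          (continuousOn_const.mul cGp).intervalIntegrable
        rw [hf1, ← intervalIntegral.integral_const_mul, ← intervalIntegral.integral_const_mul,
          ← intervalIntegral.integral_neg, ← intervalIntegral.integral_add k1 k2]
        refine intervalIntegral.integral_mono_on hεR.le
          (Continuous.intervalIntegrable (by fun_prop) _ _) (k1.add k2) fun r hr => ?_
        have hr0 : 0 < r := hε.trans_le hr.1
        have q3 := ppos r hr0
        have q9 : 1 / (2 * lam) * (p r * A' r ^ 2) + lam / 2 * (G r ^ 2 / p r) + G r * A' r =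
            1 / (2 * lam * p r) * (p r * A' r + lam * G r) ^ 2 := by
          field_simp
          ring
        have q10 : 0 ≤ 1 / (2 * lam * p r) * (p r * A' r + lam * G r) ^ 2 := by positivity
        linarith
      rw [e2] at s1
      have := neg_abs_le (G ε * A ε)
      have := le_abs_self (-(G ε * A ε))
      rw [abs_neg] at this
      rw [e1]
      linarith
    have s5 : 1 / (2 * lam) * f1 ε = 1 / 2 * (1 / lam * f1 ε) := by field_simp
    nlinarith
  -- limit
  have hf0c : Continuous f0 := by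
    have : f0 = fun ε => -∫ r in R..ε, m r * A r ^ 2 := by
      funext ε; rw [hf0]; exact intervalIntegral.integral_symm _ _
    rw [this]
    exact (intervalIntegral.continuous_primitive (fun a b =>
      (Continuous.intervalIntegrable (by fun_prop) a b)) R).neg
  have hf1c : Continuous f1 := by
    have : f1 = fun ε => -∫ r in R..ε, p r * A' r ^ 2 := by
      funext ε; rw [hf1]; exact intervalIntegral.integral_symm _ _
    rw [this]
    exact (intervalIntegral.continuous_primitive (fun a b =>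
      (Continuous.intervalIntegrable (by fun_prop) a b)) R).neg
  -- bound for `G`
  obtain ⟨C, hC⟩ : ∃ C : ℝ, ∀ r ∈ Icc (0:ℝ) 1, |wt (α - 1) r * A r| ≤ C := by
    obtain ⟨C, hC⟩ := (isCompact_Icc (a := (0:ℝ)) (b := 1)).exists_bound_of_continuousOn
      (f := fun r => wt (α - 1) r * A r) (w1.mul hAc).continuousOn
    exact ⟨C, fun r hr => by simpa [Real.norm_eq_abs] using hC r hr⟩
  have hC0 : 0 ≤ C := (abs_nonneg _).trans (hC 0 ⟨le_rfl, zero_le_one⟩)
  have hGb : ∀ ε, 0 < ε → ε ≤ 1 → |G ε| ≤ C * ε ^ n := by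
    intro ε hε hε1
    have h2 : ∀ s ∈ Set.uIoc 0 ε, ‖m s * A s‖ ≤ C * ε ^ (n - 1) := by
      intro s hs
      rw [uIoc_of_le hε.le] at hs
      have h3 := hC s ⟨hs.1.le, hs.2.trans hε1⟩
      rw [Real.norm_eq_abs]
      have h4 : m s * A s = s ^ (n - 1) * (wt (α - 1) s * A s) := by simp only [hm]; ring
      rw [h4, abs_mul, abs_of_nonneg (pow_nonneg hs.1.le _), mul_comm]
      exact mul_le_mul h3 (pow_le_pow_left₀ hs.1.le hs.2 _) (pow_nonneg hs.1.le _) hC0
    have h5 := intervalIntegral.norm_integral_le_of_norm_le_const h2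
    rw [Real.norm_eq_abs, sub_zero, abs_of_pos hε] at h5
    refine h5.trans (le_of_eq ?_)
    rw [mul_assoc, ← pow_succ]
    congr 2; omega
  set rhs : ℝ → ℝ := fun ε => 1 / lam * f1 ε + 2 * |G ε * A ε| +
    |l ε| * (C ^ 2 * (ε ^ n * wt (γ - α) ε)) with hrhs
  have hrc : Continuous rhs := by
    have w5 := wt_cont (γ - α)
    rw [hrhs]; fun_prop
  have hev : ∀ᶠ ε in 𝓝[>] (0:ℝ), f0 ε ≤ rhs ε := by
    have e1 : ∀ᶠ ε in 𝓝[>] (0:ℝ), 0 < ε := self_mem_nhdsWithin
    have e2 : ∀ᶠ ε in 𝓝[>] (0:ℝ), ε < R := (gt_mem_nhds hR).filter_mono nhdsWithin_le_nhds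
    have e3 : ∀ᶠ ε in 𝓝[>] (0:ℝ), ε < 1 := (gt_mem_nhds one_pos).filter_mono nhdsWithin_le_nhds
    filter_upwards [e1, e2, e3] with ε h1 h2 h3
    refine (est ε h1 h2).trans ?_
    simp only [hrhs]
    have q1 := ψpos ε h1
    have q2 : G ε ^ 2 ≤ (C * ε ^ n) ^ 2 := by
      rw [← sq_abs]; exact pow_le_pow_left₀ (abs_nonneg _) (hGb ε h1 h3.le) 2
    have q3 : G ε ^ 2 / ψ ε ≤ C ^ 2 * (ε ^ n * wt (γ - α) ε) := by
      rw [div_le_iff₀ q1]
      refine q2.trans (le_of_eq ?_)
      simp only [hψ]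
      have q4 : wt (γ - α) ε * wt (α - γ) ε = 1 := by
        rw [wt_mul]
        have : γ - α + (α - γ) = 0 := by ring
        rw [this, wt, Real.rpow_zero]
      calc (C * ε ^ n) ^ 2 = C ^ 2 * (ε ^ n * ε ^ n) * 1 := by ring
        _ = C ^ 2 * (ε ^ n * ε ^ n) * (wt (γ - α) ε * wt (α - γ) ε) := by rw [q4]
        _ = _ := by ring
    have q5 : l ε * (G ε ^ 2 / ψ ε) ≤ |l ε| * (C ^ 2 * (ε ^ n * wt (γ - α) ε)) :=
      mul_le_mul (le_abs_self _) q3 (by positivity) (abs_nonneg _)
    linarith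
  have hlim := le_of_tendsto_of_tendsto ((hf0c.tendsto 0).mono_left nhdsWithin_le_nhds)
    ((hrc.tendsto 0).mono_left nhdsWithin_le_nhds) hev
  simp only [hrhs, G0, zero_mul, abs_zero, mul_zero, add_zero] at hlim
  rw [zero_pow (by omega : n ≠ 0), zero_mul, mul_zero, mul_zero, add_zero] at hlim
  have : lam * f0 0 ≤ f1 0 := by
    calc lam * f0 0 ≤ lam * (1 / lam * f1 0) := mul_le_mul_of_nonneg_left hlim hlam.le
      _ = f1 0 := by field_simp
  exact this

end Pool.Agent.N822.HC
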