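import Mathlib
import Pool.Agent.N822.HC.Rad

/-!
Cut-off lemma for the weighted Hardy quotient.
-/

set_option autoImplicit false
set_option linter.unusedSectionVars false
set_option linter.unusedVariables false

open MeasureTheory Set Filter Topology Real Metric
open scoped RealInnerProductSpace ContDiff

noncomputable section

namespace Pool.Agent.N822.HC

variable {E : Type*} [NormedAddCommGroup E] [InnerProductSpace ℝ E] [FiniteDimensional ℝ E]
  [MeasurableSpace E] [BorelSpace E]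

/-- standard bump -/
def bmp (E : Type*) [NormedAddCommGroup E] : ContDiffBump (0 : E) := ⟨1, 2, one_pos, one_lt_two⟩

def chi (x : E) : ℝ := bmp E x

theorem chi_smooth : ContDiff ℝ ∞ (chi : E → ℝ) := (bmp E).contDiff

theorem chi_cs : HasCompactSupport (chi : E → ℝ) := (bmp E).hasCompactSupport

theorem chi_one {x : E} (hx : ‖x‖ ≤ 1) : chi x = 1 :=
  (bmp E).one_of_mem_closedBall (by simpa [bmp] using hx)

theorem chi_zero {x : E} (hx : 2 ≤ ‖x‖) : chi x = 0 :=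
  (bmp E).zero_of_le_dist (by simpa [bmp] using hx)

theorem chi_nonneg (x : E) : 0 ≤ chi x := (bmp E).nonneg

theorem chi_le_one (x : E) : chi x ≤ 1 := (bmp E).le_one

theorem chi_dzero {x : E} (hx : 2 < ‖x‖) : fderiv ℝ chi x = 0 := by
  have : (chi : E → ℝ) =ᶠ[𝓝 x] fun _ => 0 := by
    have : {y : E | 2 < ‖y‖} ∈ 𝓝 x := (isOpen_lt continuous_const continuous_norm).mem_nhds hx
    filter_upwards [this] with y hy
    exact chi_zero (le_of_lt hy)
  rw [this.fderiv_eq]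
  simp

theorem chi_done {x : E} (hx : ‖x‖ < 1) : fderiv ℝ chi x = 0 := by
  have : (chi : E → ℝ) =ᶠ[𝓝 x] fun _ => 1 := by
    have : {y : E | ‖y‖ < 1} ∈ 𝓝 x := (isOpen_lt continuous_norm continuous_const).mem_nhds hx
    filter_upwards [this] with y hy
    exact chi_one (le_of_lt hy)
  rw [this.fderiv_eq]
  simp

theorem chi_dcont : Continuous (fderiv ℝ (chi : E → ℝ)) :=
  chi_smooth.continuous_fderiv (by simp)

theorem chi_dbound : ∃ C : ℝ, 0 ≤ C ∧ ∀ x : E, ‖fderiv ℝ chi x‖ ≤ C := by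
  obtain ⟨C, hC⟩ := (isCompact_closedBall (0:E) 2).exists_bound_of_continuousOn
    (chi_dcont (E := E)).continuousOn
  refine ⟨max C 0, le_max_right _ _, fun x => ?_⟩
  by_cases hx : ‖x‖ ≤ 2
  · exact (hC x (by simpa using hx)).trans (le_max_left _ _)
  · rw [chi_dzero (not_le.1 hx), norm_zero]
    exact le_max_right _ _

/-- scaled bump -/
def chik (k : ℕ) (x : E) : ℝ := chi (((k : ℝ) + 1)⁻¹ • x)

theorem chik_nonneg (k : ℕ) (x : E) : 0 ≤ chik k x := chi_nonneg _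

theorem chik_le_one (k : ℕ) (x : E) : chik k x ≤ 1 := chi_le_one _

theorem chik_smooth (k : ℕ) : ContDiff ℝ ∞ (chik k : E → ℝ) :=
  chi_smooth.comp (by fun_prop)

theorem chik_fderiv (k : ℕ) (x : E) :
    fderiv ℝ (chik k) x = ((k : ℝ) + 1)⁻¹ • fderiv ℝ chi (((k : ℝ) + 1)⁻¹ • x) :=
  fderiv_comp_smul _

theorem norm_sc (k : ℕ) (x : E) : ‖((k : ℝ) + 1)⁻¹ • x‖ = ‖x‖ / (k + 1) := by
  rw [norm_smul, norm_inv, Real.norm_eq_abs, abs_of_pos (by positivity)]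
  field_simp

theorem chik_zero {k : ℕ} {x : E} (hx : 2 * ((k : ℝ) + 1) ≤ ‖x‖) : chik k x = 0 := by
  apply chi_zero
  rw [norm_sc, le_div_iff₀ (by positivity)]
  exact hx

theorem chik_one {k : ℕ} {x : E} (hx : ‖x‖ ≤ (k : ℝ) + 1) : chik k x = 1 := by
  apply chi_one
  rw [norm_sc, div_le_one (by positivity)]
  exact hx

theorem chik_done {k : ℕ} {x : E} (hx : ‖x‖ < (k : ℝ) + 1) : fderiv ℝ (chik k) x = 0 := by
  rw [chik_fderiv, chi_done, smul_zero]
  rw [norm_sc, div_lt_one (by positivity)]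
  exact hx

theorem chik_cs (k : ℕ) : HasCompactSupport (chik k : E → ℝ) := by
  refine HasCompactSupport.of_support_subset_isCompact
    (isCompact_closedBall (0:E) (2 * ((k : ℝ) + 1))) fun x hx => ?_
  rw [mem_closedBall_zero_iff]
  by_contra h
  exact hx (chik_zero (not_le.1 h).le)

theorem chik_dbd {C : ℝ} (hC0 : 0 ≤ C) (hC : ∀ x : E, ‖fderiv ℝ chi x‖ ≤ C) (k : ℕ) (x : E) :
    (1 + ‖x‖ ^ 2) * ‖fderiv ℝ (chik k) x‖ ^ 2 ≤ 5 * C ^ 2 := by
  by_cases hx : 2 * ((k : ℝ) + 1) < ‖x‖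
  · rw [chik_fderiv, chi_dzero (by
      rw [norm_sc, lt_div_iff₀ (by positivity)]; exact hx), smul_zero, norm_zero]
    have : 0 ≤ 5 * C ^ 2 := by positivity
    simpa using this
  · rw [not_lt] at hx
    have hk : (1:ℝ) ≤ (k : ℝ) + 1 := by
      have : (0:ℝ) ≤ k := Nat.cast_nonneg k
      linarith
    have hk0 : (0:ℝ) < (k : ℝ) + 1 := by linarith
    rw [chik_fderiv, norm_smul, norm_inv, Real.norm_eq_abs, abs_of_pos hk0, mul_pow]
    have h1 : 1 + ‖x‖ ^ 2 ≤ 5 * ((k : ℝ) + 1) ^ 2 := by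
      have : ‖x‖ ^ 2 ≤ (2 * ((k : ℝ) + 1)) ^ 2 := pow_le_pow_left₀ (norm_nonneg _) hx 2
      nlinarith
    have h2 : ‖fderiv ℝ chi (((k : ℝ) + 1)⁻¹ • x)‖ ^ 2 ≤ C ^ 2 :=
      pow_le_pow_left₀ (norm_nonneg _) (hC _) 2
    have h3 : (1 + ‖x‖ ^ 2) * ((((k : ℝ) + 1)⁻¹) ^ 2) ≤ 5 := by
      rw [inv_pow, ← div_eq_mul_inv, div_le_iff₀ (by positivity)]
      exact h1
    calc (1 + ‖x‖ ^ 2) * ((((k : ℝ) + 1)⁻¹) ^ 2 * ‖fderiv ℝ chi (((k : ℝ) + 1)⁻¹ • x)‖ ^ 2)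
        = ((1 + ‖x‖ ^ 2) * ((((k : ℝ) + 1)⁻¹) ^ 2)) * ‖fderiv ℝ chi (((k : ℝ) + 1)⁻¹ • x)‖ ^ 2 := by
          ring
      _ ≤ 5 * C ^ 2 := mul_le_mul h3 h2 (sq_nonneg _) (by norm_num)

/-- cut-off functions -/
def vk (u : E → ℝ) (c : ℕ → ℝ) (k : ℕ) (x : E) : ℝ := chik k x * u x - c k * chi x

variable {u : E → ℝ} {c : ℕ → ℝ}

theorem vk_smooth (hu : ContDiff ℝ ∞ u) (k : ℕ) : ContDiff ℝ ∞ (vk u c k) :=
  ((chik_smooth k).mul hu).sub (contDiff_const.mul chi_smooth)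

theorem vk_cs (k : ℕ) : HasCompactSupport (vk u c k) := by
  have h1 : HasCompactSupport (fun x => chik k x * u x) := (chik_cs k).mul_right
  have h2 : HasCompactSupport (fun x : E => c k * chi x) := chi_cs.mul_left
  exact h1.sub h2

theorem vk_fderiv (hu : ContDiff ℝ ∞ u) (k : ℕ) (x : E) :
    fderiv ℝ (vk u c k) x = chik k x • fderiv ℝ u x + u x • fderiv ℝ (chik k) x -
      c k • fderiv ℝ chi x := by
  have d1 : DifferentiableAt ℝ u x := (hu.differentiable (by simp)) x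
  have d2 : DifferentiableAt ℝ (chik k : E → ℝ) x := ((chik_smooth k).differentiable (by simp)) x
  have d3 : DifferentiableAt ℝ (chi : E → ℝ) x := (chi_smooth.differentiable (by simp)) x
  have h := ((d2.hasFDerivAt).mul (d1.hasFDerivAt)).sub ((d3.hasFDerivAt).const_mul (c k))
  exact h.fderiv

theorem wcont (κ : ℝ) : Continuous fun x : E => (1 + ‖x‖ ^ 2) ^ κ :=
  (by fun_prop : Continuous fun x : E => 1 + ‖x‖ ^ 2).rpow_const
    fun x => Or.inl (by positivity)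

theorem w_pos (κ : ℝ) (x : E) : 0 < (1 + ‖x‖ ^ 2) ^ κ := Real.rpow_pos_of_pos (by positivity) _

theorem w_succ (κ : ℝ) (x : E) : (1 + ‖x‖ ^ 2) ^ κ = (1 + ‖x‖ ^ 2) * (1 + ‖x‖ ^ 2) ^ (κ - 1) := by
  have h : (0:ℝ) < 1 + ‖x‖ ^ 2 := by positivity
  rw [Real.rpow_sub_one h.ne']
  field_simp

theorem cut_energy (hu : ContDiff ℝ ∞ u) {α : ℝ}
    (h1 : Integrable fun x => (1 + ‖x‖ ^ 2) ^ α * ‖fderiv ℝ u x‖ ^ 2)
    (h2 : Integrable fun x => (1 + ‖x‖ ^ 2) ^ (α - 1) * u x ^ 2)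
    (hc : Tendsto c atTop (𝓝 0)) :
    Tendsto (fun k => ∫ x, (1 + ‖x‖ ^ 2) ^ α * ‖fderiv ℝ (vk u c k) x‖ ^ 2) atTop
      (𝓝 (∫ x, (1 + ‖x‖ ^ 2) ^ α * ‖fderiv ℝ u x‖ ^ 2)) := by
  obtain ⟨C, hC0, hC⟩ := chi_dbound (E := E)
  obtain ⟨K, hK⟩ := hc.norm.bddAbove_range
  have hK' : ∀ k, ‖c k‖ ≤ K := fun k => hK ⟨k, rfl⟩
  have hud : Continuous (fderiv ℝ u) := hu.continuous_fderiv (by simp)
  have hw := wcont (E := E) α
  have h3 : Integrable fun x : E => (1 + ‖x‖ ^ 2) ^ α * ‖fderiv ℝ chi x‖ ^ 2 := by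
    refine Continuous.integrable_of_hasCompactSupport ?_ ?_
    · have := chi_dcont (E := E)
      fun_prop
    · refine HasCompactSupport.of_support_subset_isCompact (isCompact_closedBall (0:E) 2)
        fun x hx => ?_
      rw [mem_closedBall_zero_iff]
      by_contra h
      exact hx (by simp [chi_dzero (not_le.1 h)])
  refine tendsto_integral_of_dominated_convergence
    (fun x => 3 * ((1 + ‖x‖ ^ 2) ^ α * ‖fderiv ℝ u x‖ ^ 2) +
      3 * (5 * C ^ 2) * ((1 + ‖x‖ ^ 2) ^ (α - 1) * u x ^ 2) +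
      3 * K ^ 2 * ((1 + ‖x‖ ^ 2) ^ α * ‖fderiv ℝ chi x‖ ^ 2)) ?_ ?_ ?_ ?_
  · intro k
    have : Continuous (fderiv ℝ (vk u c k)) := (vk_smooth hu k).continuous_fderiv (by simp)
    exact Continuous.aestronglyMeasurable (by fun_prop)
  · exact ((h1.const_mul _).add (h2.const_mul _)).add (h3.const_mul _)
  · intro k
    refine Eventually.of_forall fun x => ?_
    have hwp := w_pos α x
    have hmp := w_pos (α - 1) x
    rw [Real.norm_of_nonneg (by positivity), vk_fderiv hu]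
    set a := chik k x • fderiv ℝ u x
    set b := u x • fderiv ℝ (chik k) x with hb
    set d := c k • fderiv ℝ chi x with hd
    have ha : ‖a‖ ^ 2 ≤ ‖fderiv ℝ u x‖ ^ 2 := by
      refine pow_le_pow_left₀ (norm_nonneg _) ?_ 2
      rw [norm_smul, Real.norm_eq_abs, abs_of_nonneg (chik_nonneg _ _)]
      exact mul_le_of_le_one_left (norm_nonneg _) (chik_le_one _ _)
    have hb' : (1 + ‖x‖ ^ 2) ^ α * ‖b‖ ^ 2 ≤ (5 * C ^ 2) * ((1 + ‖x‖ ^ 2) ^ (α - 1) * u x ^ 2) := by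
      rw [hb, norm_smul, mul_pow, Real.norm_eq_abs, sq_abs, w_succ α x]
      have := mul_le_mul_of_nonneg_left (chik_dbd hC0 hC k x)
        (by positivity : 0 ≤ (1 + ‖x‖ ^ 2) ^ (α - 1) * u x ^ 2)
      linarith
    have hd' : ‖d‖ ^ 2 ≤ K ^ 2 * ‖fderiv ℝ chi x‖ ^ 2 := by
      rw [hd, norm_smul, mul_pow]
      exact mul_le_mul_of_nonneg_right (pow_le_pow_left₀ (norm_nonneg _) (hK' k) 2) (sq_nonneg _)
    have ht : ‖a + b - d‖ ^ 2 ≤ 3 * (‖a‖ ^ 2 + ‖b‖ ^ 2 + ‖d‖ ^ 2) := by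
      have h := norm_sub_le (a + b) d
      have h' := norm_add_le a b
      have h'' : ‖a + b - d‖ ≤ ‖a‖ + ‖b‖ + ‖d‖ := by linarith
      have := pow_le_pow_left₀ (norm_nonneg _) h'' 2
      nlinarith [sq_nonneg (‖a‖ - ‖b‖), sq_nonneg (‖a‖ - ‖d‖), sq_nonneg (‖b‖ - ‖d‖)]
    calc (1 + ‖x‖ ^ 2) ^ α * ‖a + b - d‖ ^ 2
        ≤ (1 + ‖x‖ ^ 2) ^ α * (3 * (‖a‖ ^ 2 + ‖b‖ ^ 2 + ‖d‖ ^ 2)) :=
          mul_le_mul_of_nonneg_left ht hwp.le
      _ = 3 * ((1 + ‖x‖ ^ 2) ^ α * ‖a‖ ^ 2) + 3 * ((1 + ‖x‖ ^ 2) ^ α * ‖b‖ ^ 2) +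
          3 * ((1 + ‖x‖ ^ 2) ^ α * ‖d‖ ^ 2) := by ring
      _ ≤ 3 * ((1 + ‖x‖ ^ 2) ^ α * ‖fderiv ℝ u x‖ ^ 2) +
          3 * ((5 * C ^ 2) * ((1 + ‖x‖ ^ 2) ^ (α - 1) * u x ^ 2)) +
          3 * ((1 + ‖x‖ ^ 2) ^ α * (K ^ 2 * ‖fderiv ℝ chi x‖ ^ 2)) := by
          have := mul_le_mul_of_nonneg_left ha hwp.le
          have := mul_le_mul_of_nonneg_left hd' hwp.le
          linarith
      _ = _ := by ring
  · refine Eventually.of_forall fun x => ?_
    have he : ∀ᶠ k : ℕ in atTop, fderiv ℝ (vk u c k) x = fderiv ℝ u x - c k • fderiv ℝ chi x := by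
      have : ∀ᶠ k : ℕ in atTop, ‖x‖ < (k : ℝ) + 1 := by
        obtain ⟨N, hN⟩ := exists_nat_gt ‖x‖
        filter_upwards [eventually_ge_atTop N] with k hk
        have : (N : ℝ) ≤ k := by exact_mod_cast hk
        linarith
      filter_upwards [this] with k hk
      rw [vk_fderiv hu, chik_one hk.le, chik_done hk]
      simp
    have hl : Tendsto (fun k => (1 + ‖x‖ ^ 2) ^ α * ‖fderiv ℝ u x - c k • fderiv ℝ chi x‖ ^ 2) atTop
        (𝓝 ((1 + ‖x‖ ^ 2) ^ α * ‖fderiv ℝ u x - (0:ℝ) • fderiv ℝ chi x‖ ^ 2)) := by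
      refine Tendsto.const_mul _ (Tendsto.pow (Tendsto.norm ?_) 2)
      exact tendsto_const_nhds.sub (hc.smul_const _)
    rw [zero_smul, sub_zero] at hl
    refine hl.congr' ?_
    filter_upwards [he] with k hk
    rw [hk]

theorem cut_mass (hu : ContDiff ℝ ∞ u) {α : ℝ}
    (h2 : Integrable fun x => (1 + ‖x‖ ^ 2) ^ (α - 1) * u x ^ 2)
    (hc : Tendsto c atTop (𝓝 0)) :
    Tendsto (fun k => ∫ x, (1 + ‖x‖ ^ 2) ^ (α - 1) * vk u c k x ^ 2) atTop
      (𝓝 (∫ x, (1 + ‖x‖ ^ 2) ^ (α - 1) * u x ^ 2)) := by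
  obtain ⟨K, hK⟩ := hc.norm.bddAbove_range
  have hK' : ∀ k, ‖c k‖ ≤ K := fun k => hK ⟨k, rfl⟩
  have hw := wcont (E := E) (α - 1)
  have h3 : Integrable fun x : E => (1 + ‖x‖ ^ 2) ^ (α - 1) * chi x ^ 2 := by
    refine Continuous.integrable_of_hasCompactSupport ?_ ?_
    · have := (chi_smooth (E := E)).continuous
      fun_prop
    · refine HasCompactSupport.of_support_subset_isCompact (isCompact_closedBall (0:E) 2)
        fun x hx => ?_
      rw [mem_closedBall_zero_iff]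
      by_contra h
      exact hx (by simp [chi_zero (not_le.1 h).le])
  refine tendsto_integral_of_dominated_convergence
    (fun x => 2 * ((1 + ‖x‖ ^ 2) ^ (α - 1) * u x ^ 2) +
      2 * K ^ 2 * ((1 + ‖x‖ ^ 2) ^ (α - 1) * chi x ^ 2)) ?_ ?_ ?_ ?_
  · intro k
    have : Continuous (vk u c k) := (vk_smooth hu k).continuous
    exact Continuous.aestronglyMeasurable (by fun_prop)
  · exact ((h2.const_mul _)).add (h3.const_mul _)
  · intro k
    refine Eventually.of_forall fun x => ?_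
    have hmp := w_pos (α - 1) x
    rw [Real.norm_of_nonneg (by positivity)]
    unfold vk
    set a := chik k x * u x with ha0
    set d := c k * chi x with hd
    have ha : a ^ 2 ≤ u x ^ 2 := by
      rw [ha0, mul_pow]
      refine mul_le_of_le_one_left (sq_nonneg _) ?_
      exact pow_le_one₀ (chik_nonneg _ _) (chik_le_one _ _)
    have hd' : d ^ 2 ≤ K ^ 2 * chi x ^ 2 := by
      rw [hd, mul_pow, ← sq_abs (c k)]
      exact mul_le_mul_of_nonneg_right (pow_le_pow_left₀ (abs_nonneg _) (hK' k) 2) (sq_nonneg _)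
    have ht : (a - d) ^ 2 ≤ 2 * u x ^ 2 + 2 * (K ^ 2 * chi x ^ 2) := by
      nlinarith [sq_nonneg (a + d)]
    have := mul_le_mul_of_nonneg_left ht hmp.le
    linarith
  · refine Eventually.of_forall fun x => ?_
    have he : ∀ᶠ k : ℕ in atTop, vk u c k x = u x - c k * chi x := by
      have : ∀ᶠ k : ℕ in atTop, ‖x‖ < (k : ℝ) + 1 := by
        obtain ⟨N, hN⟩ := exists_nat_gt ‖x‖
        filter_upwards [eventually_ge_atTop N] with k hk
        have : (N : ℝ) ≤ k := by exact_mod_cast hk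
        linarith
      filter_upwards [this] with k hk
      unfold vk
      rw [chik_one hk.le, one_mul]
    have hl : Tendsto (fun k => (1 + ‖x‖ ^ 2) ^ (α - 1) * (u x - c k * chi x) ^ 2) atTop
        (𝓝 ((1 + ‖x‖ ^ 2) ^ (α - 1) * (u x - 0 * chi x) ^ 2)) := by
      refine Tendsto.const_mul _ (Tendsto.pow ?_ 2)
      exact tendsto_const_nhds.sub (hc.mul_const _)
    rw [zero_mul, sub_zero] at hl
    refine hl.congr' ?_
    filter_upwards [he] with k hk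
    rw [hk]

theorem cut_mean (hu : ContDiff ℝ ∞ u) {α : ℝ}
    (h2 : Integrable fun x => (1 + ‖x‖ ^ 2) ^ (α - 1) * u x) :
    Tendsto (fun k => ∫ x, (1 + ‖x‖ ^ 2) ^ (α - 1) * (chik k x * u x)) atTop
      (𝓝 (∫ x, (1 + ‖x‖ ^ 2) ^ (α - 1) * u x)) := by
  have hw := wcont (E := E) (α - 1)
  refine tendsto_integral_of_dominated_convergence
    (fun x => ‖(1 + ‖x‖ ^ 2) ^ (α - 1) * u x‖) ?_ h2.norm ?_ ?_
  · intro k
    have h1 : Continuous (chik k : E → ℝ) := (chik_smooth k).continuous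
    have h3 := hu.continuous
    exact Continuous.aestronglyMeasurable (by fun_prop)
  · intro k
    refine Eventually.of_forall fun x => ?_
    rw [show (1 + ‖x‖ ^ 2) ^ (α - 1) * (chik k x * u x) =
      chik k x * ((1 + ‖x‖ ^ 2) ^ (α - 1) * u x) by ring, norm_mul]
    refine mul_le_of_le_one_left (norm_nonneg _) ?_
    rw [Real.norm_eq_abs, abs_of_nonneg (chik_nonneg _ _)]
    exact chik_le_one _ _
  · refine Eventually.of_forall fun x => ?_
    refine tendsto_const_nhds.congr' ?_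
    obtain ⟨N, hN⟩ := exists_nat_gt ‖x‖
    filter_upwards [eventually_ge_atTop N] with k hk
    have : (N : ℝ) ≤ k := by exact_mod_cast hk
    rw [chik_one (by linarith), one_mul]

end Pool.Agent.N822.HC
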