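import Mathlib
import Pool.Agent.N822.HC.OneD

/-!
Rotation invariance of Lebesgue measure on `E × E`, Gaussian integrals, polar coordinates.
-/

set_option autoImplicit false

open MeasureTheory Set Filter Topology Real Metric
open scoped RealInnerProductSpace

noncomputable section

namespace Pool.Agent.N822.HC

variable {E : Type*} [NormedAddCommGroup E] [InnerProductSpace ℝ E] [FiniteDimensional ℝ E]
  [MeasurableSpace E] [BorelSpace E]

/-- rotation in `E × E` -/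
def rot (θ : ℝ) (p : E × E) : E × E :=
  (cos θ • p.1 + sin θ • p.2, -sin θ • p.1 + cos θ • p.2)

omit [FiniteDimensional ℝ E] [MeasurableSpace E] [BorelSpace E] in
theorem rot_normsq (θ : ℝ) (p : E × E) :
    ‖(rot θ p).1‖ ^ 2 + ‖(rot θ p).2‖ ^ 2 = ‖p.1‖ ^ 2 + ‖p.2‖ ^ 2 := by
  simp only [rot]
  rw [norm_add_sq_real, norm_add_sq_real]
  simp only [norm_smul, inner_smul_left, inner_smul_right, norm_neg, Real.norm_eq_abs, mul_pow,
    sq_abs, conj_trivial]
  have h := Real.sin_sq_add_cos_sq θ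
  have h1 : cos θ ^ 2 = 1 - sin θ ^ 2 := by linarith
  rw [h1]
  ring

omit [FiniteDimensional ℝ E] [MeasurableSpace E] [BorelSpace E] in
theorem rot_add (θ : ℝ) (p q : E × E) : rot θ (p + q) = rot θ p + rot θ q := by
  refine Prod.ext ?_ ?_
  · simp only [rot, Prod.fst_add, Prod.snd_add, smul_add]
    abel
  · simp only [rot, Prod.fst_add, Prod.snd_add, smul_add]
    abel

omit [FiniteDimensional ℝ E] [MeasurableSpace E] [BorelSpace E] in
theorem rot_smul (θ c : ℝ) (p : E × E) : rot θ (c • p) = c • rot θ p := by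
  refine Prod.ext ?_ ?_
  · simp only [rot, Prod.smul_fst, Prod.smul_snd, smul_add, smul_smul]
    ring_nf
  · simp only [rot, Prod.smul_fst, Prod.smul_snd, smul_add, smul_smul]
    ring_nf

/-- rotation as a linear isometry -/
def rotI (θ : ℝ) : WithLp 2 (E × E) →ₗᵢ[ℝ] WithLp 2 (E × E) where
  toFun z := WithLp.toLp 2 (rot θ (WithLp.ofLp z))
  map_add' z w := by
    rw [WithLp.ofLp_add, rot_add, WithLp.toLp_add]
  map_smul' c z := by
    rw [RingHom.id_apply, WithLp.ofLp_smul, rot_smul, WithLp.toLp_smul]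
  norm_map' z := by
    have h := rot_normsq θ (WithLp.ofLp z)
    have h1 := WithLp.prod_norm_sq_eq_of_L2 z
    have h2 := WithLp.prod_norm_sq_eq_of_L2 (WithLp.toLp 2 (rot θ (WithLp.ofLp z)))
    simp only [WithLp.toLp_fst, WithLp.toLp_snd] at h2
    have h3 : ‖WithLp.toLp 2 (rot θ (WithLp.ofLp z))‖ ^ 2 = ‖z‖ ^ 2 := by
      rw [h1, h2]
      exact h
    exact (pow_left_inj₀ (norm_nonneg _) (norm_nonneg _) two_ne_zero).1 h3

theorem rot_mp (θ : ℝ) : MeasurePreserving (rot θ : E × E → E × E) (volume.prod volume)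
    (volume.prod volume) := by
  have h1 : MeasurePreserving ((rotI θ : WithLp 2 (E × E) →ₗᵢ[ℝ] WithLp 2 (E × E)).toLinearIsometryEquiv rfl) volume volume :=
    LinearIsometryEquiv.measurePreserving _
  have h2 : MeasurePreserving (@WithLp.ofLp 2 (E × E)) := WithLp.volume_preserving_ofLp E E
  have h3 : MeasurePreserving (@WithLp.toLp 2 (E × E)) := WithLp.volume_preserving_toLp E E
  have h4 := h2.comp (h1.comp h3)
  exact h4

/-- integration by parts -/
theorem ibp {f g : E → ℝ} {f' g' : E → (E →L[ℝ] ℝ)} {v : E}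
    (hf : ∀ x, HasFDerivAt f (f' x) x) (hg : ∀ x, HasFDerivAt g (g' x) x)
    (h1 : Integrable fun x => f' x v * g x) (h2 : Integrable fun x => f x * g' x v)
    (h3 : Integrable fun x => f x * g x) :
    ∫ x, f x * g' x v = - ∫ x, f' x v * g x :=
  integral_bilinear_hasFDerivAt_right_eq_neg_left_of_integrable
    (B := ContinuousLinearMap.mul ℝ ℝ) h1 h2 h3 (fun x _ => hf x) (fun x _ => hg x)

omit [FiniteDimensional ℝ E] [MeasurableSpace E] [BorelSpace E] in
theorem hasFDerivAt_normsq (x : E) :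
    HasFDerivAt (fun x : E => ‖x‖ ^ 2) ((2 : ℝ) • innerSL ℝ x) x :=
  (hasStrictFDerivAt_norm_sq x).hasFDerivAt.congr_fderiv (by ext v; simp)

/-- Gaussian weight -/
def eW (x : E) : ℝ := exp (-(‖x‖ ^ 2 / 2))

omit [InnerProductSpace ℝ E] [FiniteDimensional ℝ E] [MeasurableSpace E] [BorelSpace E] in
theorem eW_pos (x : E) : 0 < eW x := exp_pos _

omit [InnerProductSpace ℝ E] [FiniteDimensional ℝ E] [MeasurableSpace E] [BorelSpace E] in
theorem eW_cont : Continuous (eW : E → ℝ) := by unfold eW; fun_prop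

theorem gInt {b : ℝ} (hb : 0 < b) : Integrable fun x : E => exp (-(b * ‖x‖ ^ 2)) := by
  have h := (GaussianFourier.integrable_cexp_neg_mul_sq_norm_add (V := E) (b := (b : ℂ))
    (by simpa using hb) 0 0).norm
  refine h.congr (Eventually.of_forall fun x => ?_)
  simp only [zero_mul, add_zero]
  rw [Complex.norm_exp]
  congr 1
  have : (-(b : ℂ) * (‖x‖ : ℂ) ^ 2) = ((-(b * ‖x‖ ^ 2) : ℝ) : ℂ) := by push_cast; ring
  rw [this, Complex.ofReal_re]

theorem eW_int : Integrable (eW : E → ℝ) := by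
  have h := gInt (E := E) (b := 1 / 2) (by norm_num)
  refine h.congr (Eventually.of_forall fun x => ?_)
  simp only [eW]
  congr 1; ring

theorem eW_int2 : Integrable fun x : E => (1 + ‖x‖ ^ 2) * eW x := by
  have h := (gInt (E := E) (b := 1 / 4) (by norm_num)).const_mul 4
  refine h.mono' (Continuous.aestronglyMeasurable (by have := eW_cont (E := E); fun_prop))
    (Eventually.of_forall fun x => ?_)
  have h0 : 0 ≤ (1 + ‖x‖ ^ 2) * eW x := mul_nonneg (by positivity) (eW_pos x).le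
  rw [Real.norm_eq_abs, abs_of_nonneg h0]
  have h1 := Real.add_one_le_exp (‖x‖ ^ 2 / 4)
  have h2 : eW x = exp (-(1 / 4 * ‖x‖ ^ 2)) * exp (-(‖x‖ ^ 2 / 4)) := by
    rw [eW, ← Real.exp_add]; congr 1; ring
  have h3 : exp (‖x‖ ^ 2 / 4) * exp (-(‖x‖ ^ 2 / 4)) = 1 := by
    rw [← Real.exp_add]; simp
  have h4 : (1 + ‖x‖ ^ 2) * exp (-(‖x‖ ^ 2 / 4)) ≤ 4 := by
    have h5 : 1 + ‖x‖ ^ 2 ≤ 4 * exp (‖x‖ ^ 2 / 4) := by nlinarith
    calc (1 + ‖x‖ ^ 2) * exp (-(‖x‖ ^ 2 / 4)) ≤ 4 * exp (‖x‖ ^ 2 / 4) * exp (-(‖x‖ ^ 2 / 4)) :=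
          mul_le_mul_of_nonneg_right h5 (exp_pos _).le
      _ = 4 := by rw [mul_assoc, h3, mul_one]
  rw [h2]
  calc (1 + ‖x‖ ^ 2) * (exp (-(1 / 4 * ‖x‖ ^ 2)) * exp (-(‖x‖ ^ 2 / 4)))
      = ((1 + ‖x‖ ^ 2) * exp (-(‖x‖ ^ 2 / 4))) * exp (-(1 / 4 * ‖x‖ ^ 2)) := by ring
    _ ≤ 4 * exp (-(1 / 4 * ‖x‖ ^ 2)) := mul_le_mul_of_nonneg_right h4 (exp_pos _).le

/-- a measurable function bounded by a multiple of `(1 + ‖x‖ ^ 2) * eW x` is integrable -/
theorem eW_dom {f : E → ℝ} (hf : AEStronglyMeasurable f volume) (C : ℝ)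
    (h : ∀ x, |f x| ≤ C * ((1 + ‖x‖ ^ 2) * eW x)) : Integrable f :=
  (eW_int2.const_mul C).mono' hf (Eventually.of_forall fun x => by
    rw [Real.norm_eq_abs]; exact h x)

omit [FiniteDimensional ℝ E] [MeasurableSpace E] [BorelSpace E] in
theorem eW_deriv (x : E) : HasFDerivAt (eW : E → ℝ) (-(eW x) • innerSL ℝ x) x := by
  have h1 : HasFDerivAt (fun x : E => -(‖x‖ ^ 2 / 2)) (-(innerSL ℝ x)) x := by
    have h := ((hasFDerivAt_normsq x).mul_const (1 / 2 : ℝ)).neg
    refine (h.congr_of_eventuallyEq (Eventually.of_forall fun y => ?_)).congr_fderiv ?_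
    · show -(‖y‖ ^ 2 / 2) = -(‖y‖ ^ 2 * (1 / 2))
      ring
    · ext v; simp
  have h2 := h1.exp
  refine h2.congr_fderiv ?_
  ext v
  simp [eW]

/-- second moments -/
theorem gsq (a : E) : ∫ y : E, ⟪a, y⟫ ^ 2 * eW y = ‖a‖ ^ 2 * ∫ y : E, eW y := by
  have hc := eW_cont (E := E)
  have hcs : ∀ y : E, ⟪a, y⟫ ^ 2 ≤ ‖a‖ ^ 2 * ‖y‖ ^ 2 := fun y => by
    have := abs_real_inner_le_norm a y
    rw [← sq_abs, ← mul_pow]
    exact pow_le_pow_left₀ (abs_nonneg _) this 2
  have i1 : Integrable fun y : E => ⟪a, y⟫ ^ 2 * eW y := by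
    refine eW_dom (Continuous.aestronglyMeasurable (by fun_prop)) (‖a‖ ^ 2) fun y => ?_
    rw [abs_of_nonneg (mul_nonneg (sq_nonneg _) (eW_pos y).le), ← mul_assoc]
    refine mul_le_mul_of_nonneg_right ((hcs y).trans ?_) (eW_pos y).le
    nlinarith [sq_nonneg ‖a‖, sq_nonneg ‖y‖]
  have i2 : Integrable fun y : E => ⟪a, y⟫ * eW y := by
    refine eW_dom (Continuous.aestronglyMeasurable (by fun_prop)) ‖a‖ fun y => ?_
    rw [abs_mul, abs_of_pos (eW_pos y), ← mul_assoc]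
    refine mul_le_mul_of_nonneg_right ((abs_real_inner_le_norm a y).trans ?_) (eW_pos y).le
    refine mul_le_mul_of_nonneg_left ?_ (norm_nonneg _)
    nlinarith [sq_nonneg (‖y‖ - 1)]
  have h := ibp (E := E) (f := fun y => ⟪a, y⟫) (g := eW) (f' := fun _ => innerSL ℝ a)
    (g' := fun y => -(eW y) • innerSL ℝ y) (v := a)
    (fun x => (innerSL ℝ a).hasFDerivAt) eW_deriv
    (by
      have := (eW_int (E := E)).const_mul (‖a‖ ^ 2)
      refine this.congr (Eventually.of_forall fun y => ?_)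
      simp)
    (by
      refine i1.neg.congr (Eventually.of_forall fun y => ?_)
      simp [real_inner_comm a y]
      ring) i2
  have h1 : (fun y : E => ⟪a, y⟫ * ((-(eW y) • innerSL ℝ y) a)) =
      fun y => -(⟪a, y⟫ ^ 2 * eW y) := by
    funext y
    simp [real_inner_comm a y]
    ring
  have h2 : (fun y : E => (innerSL ℝ a) a * eW y) = fun y => ‖a‖ ^ 2 * eW y := by
    funext y
    simp
  rw [h1, h2, integral_neg, integral_const_mul] at h
  linarith

end Pool.Agent.N822.HC
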