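import Mathlib
import Pool.Agent.N822.HC.Cut

/-!
Test functions for the weighted Hardy quotient.
-/

set_option autoImplicit false
set_option linter.unusedSectionVars false
set_option linter.unusedVariables false

open MeasureTheory Set Filter Topology Real Metric
open scoped RealInnerProductSpace ContDiff

noncomputable section

namespace Pool.Agent.N822.HC

variable {E : Type*} [NormedAddCommGroup E] [InnerProductSpace ℝ E] [FiniteDimensional ℝ E]
  [MeasurableSpace E] [BorelSpace E]

/-- `q` is a lower bound for the quotient -/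
def LB (E : Type*) [NormedAddCommGroup E] [InnerProductSpace ℝ E] [FiniteDimensional ℝ E]
    [MeasurableSpace E] [BorelSpace E] (P : Prop) (α q : ℝ) : Prop :=
  ∀ v : E → ℝ, ContDiff ℝ ∞ v → HasCompactSupport v → v ≠ 0 →
    (P → ∫ x, (1 + ‖x‖ ^ 2) ^ (α - 1) * v x = 0) →
    q ≤ (∫ x, (1 + ‖x‖ ^ 2) ^ α * ‖fderiv ℝ v x‖ ^ 2) / ∫ x, (1 + ‖x‖ ^ 2) ^ (α - 1) * v x ^ 2

theorem mass_pos {v : E → ℝ} (hv : Continuous v) (hs : HasCompactSupport v) (h0 : v ≠ 0) (κ : ℝ) :
    0 < ∫ x, (1 + ‖x‖ ^ 2) ^ κ * v x ^ 2 := by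
  have hw := wcont (E := E) κ
  obtain ⟨x₀, hx₀⟩ : ∃ x, v x ≠ 0 := by
    by_contra h
    push Not at h
    exact h0 (funext h)
  have hc : Continuous fun x => (1 + ‖x‖ ^ 2) ^ κ * v x ^ 2 := by fun_prop
  refine hc.integral_pos_of_hasCompactSupport_nonneg_nonzero ?_ ?_ (x := x₀) ?_
  · refine HasCompactSupport.mul_left ?_
    have : (fun x => v x ^ 2) = fun x => v x * v x := by funext x; ring
    rw [this]
    exact hs.mul_left
  · intro x
    have := w_pos κ x
    simp only [Pi.zero_apply]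
    positivity
  · have := w_pos κ x₀
    positivity

theorem LB.test {P : Prop} {α q : ℝ} (hq : LB E P α q) {u : E → ℝ} (hu : ContDiff ℝ ∞ u)
    (h1 : Integrable fun x => (1 + ‖x‖ ^ 2) ^ α * ‖fderiv ℝ u x‖ ^ 2)
    (h2 : Integrable fun x => (1 + ‖x‖ ^ 2) ^ (α - 1) * u x ^ 2)
    (h3 : P → Integrable fun x => (1 + ‖x‖ ^ 2) ^ (α - 1) * u x)
    (h4 : P → ∫ x, (1 + ‖x‖ ^ 2) ^ (α - 1) * u x = 0) :
    q * ∫ x, (1 + ‖x‖ ^ 2) ^ (α - 1) * u x ^ 2 ≤ ∫ x, (1 + ‖x‖ ^ 2) ^ α * ‖fderiv ℝ u x‖ ^ 2 := by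
  -- choose the correction
  obtain ⟨c, hc, hmean⟩ : ∃ c : ℕ → ℝ, Tendsto c atTop (𝓝 0) ∧
      (P → ∀ k, ∫ x, (1 + ‖x‖ ^ 2) ^ (α - 1) * vk u c k x = 0) := by
    by_cases hP : P
    · have hw := wcont (E := E) (α - 1)
      have hB : 0 < ∫ x : E, (1 + ‖x‖ ^ 2) ^ (α - 1) * chi x := by
        refine Continuous.integral_pos_of_hasCompactSupport_nonneg_nonzero ?_ ?_ ?_ (x := 0) ?_
        · have := (chi_smooth (E := E)).continuous
          fun_prop
        · exact chi_cs.mul_left
        · intro x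
          exact mul_nonneg (w_pos _ x).le (chi_nonneg x)
        · rw [chi_one (by simp)]
          have := w_pos (α - 1) (0 : E)
          positivity
      set B := ∫ x : E, (1 + ‖x‖ ^ 2) ^ (α - 1) * chi x with hBdef
      refine ⟨fun k => (∫ x, (1 + ‖x‖ ^ 2) ^ (α - 1) * (chik k x * u x)) / B, ?_, fun _ k => ?_⟩
      · have := (cut_mean hu (h3 hP)).div_const B
        rw [h4 hP, zero_div] at this
        exact this
      · have hi1 : Integrable fun x : E => (1 + ‖x‖ ^ 2) ^ (α - 1) * (chik k x * u x) := by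
          refine Continuous.integrable_of_hasCompactSupport ?_ ?_
          · have h1 : Continuous (chik k : E → ℝ) := (chik_smooth k).continuous
            have h3 := hu.continuous
            fun_prop
          · exact (chik_cs k).mul_right.mul_left
        have hi2 : Integrable fun x : E => (1 + ‖x‖ ^ 2) ^ (α - 1) * chi x := by
          refine Continuous.integrable_of_hasCompactSupport ?_ ?_
          · have := (chi_smooth (E := E)).continuous
            fun_prop
          · exact chi_cs.mul_left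
        set ck := (∫ x, (1 + ‖x‖ ^ 2) ^ (α - 1) * (chik k x * u x)) / B with hck
        have e : ∀ x, (1 + ‖x‖ ^ 2) ^ (α - 1) * (chik k x * u x - ck * chi x) =
            (1 + ‖x‖ ^ 2) ^ (α - 1) * (chik k x * u x) -
              ck * ((1 + ‖x‖ ^ 2) ^ (α - 1) * chi x) := fun x => by ring
        simp only [vk]
        rw [← hck]
        simp_rw [e]
        rw [integral_sub hi1 (hi2.const_mul _), integral_const_mul, ← hBdef, hck,
          div_mul_cancel₀ _ hB.ne', sub_self]
    · exact ⟨fun _ => 0, tendsto_const_nhds, fun h => absurd h hP⟩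
  have t1 := cut_energy hu h1 h2 hc
  have t2 := cut_mass hu h2 hc
  refine le_of_tendsto_of_tendsto (t2.const_mul q) t1 (Eventually.of_forall fun k => ?_)
  by_cases h0 : vk u c k = 0
  · simp only [h0]
    simp
  · have hpos := mass_pos (vk_smooth (c := c) hu k).continuous (vk_cs k) h0 (α - 1)
    have h := hq (vk u c k) (vk_smooth hu k) (vk_cs k) h0 (fun hP => hmean hP k)
    exact (le_div_iff₀ hpos).1 h

end Pool.Agent.N822.HC
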