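import Mathlib
import Pool.Agent.N822.HC.Upp
import Pool.Agent.N822.HC.Rot

/-!
The integrals `∫ (1+|x|²)^κ`.
-/

set_option autoImplicit false
set_option linter.unusedSectionVars false
set_option linter.unusedVariables false

open MeasureTheory Set Filter Topology Real Metric
open scoped RealInnerProductSpace ContDiff

noncomputable section

namespace Pool.Agent.N822.HC

variable {E : Type*} [NormedAddCommGroup E] [InnerProductSpace ℝ E] [FiniteDimensional ℝ E]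
  [MeasurableSpace E] [BorelSpace E]

/-- the integral of a power -/
def JJ (E : Type*) [NormedAddCommGroup E] [InnerProductSpace ℝ E] [FiniteDimensional ℝ E]
    [MeasurableSpace E] [BorelSpace E] (κ : ℝ) : ℝ := ∫ x : E, (1 + ‖x‖ ^ 2) ^ κ

theorem JJ_int {κ : ℝ} (hκ : κ < -(Module.finrank ℝ E : ℝ) / 2) :
    Integrable fun x : E => (1 + ‖x‖ ^ 2) ^ κ := by
  have h := integrable_rpow_neg_one_add_norm_sq (E := E) (μ := volume) (r := -2 * κ) (by linarith)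
  refine h.congr (Eventually.of_forall fun x => ?_)
  simp only
  congr 1
  ring

theorem JJ_pos {κ : ℝ} (hκ : κ < -(Module.finrank ℝ E : ℝ) / 2) : 0 < JJ E κ := by
  unfold JJ
  rw [integral_pos_iff_support_of_nonneg (fun x => (w_pos κ x).le) (JJ_int hκ)]
  have : Function.support (fun x : E => (1 + ‖x‖ ^ 2) ^ κ) = univ := by
    ext x
    simp [(w_pos κ x).ne']
  rw [this]
  exact isOpen_univ.measure_pos _ univ_nonempty

theorem JJ_mono {κ μ : ℝ} (h : κ ≤ μ) (hμ : μ < -(Module.finrank ℝ E : ℝ) / 2) :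
    JJ E κ ≤ JJ E μ := by
  refine integral_mono (JJ_int (h.trans_lt hμ)) (JJ_int hμ) fun x => ?_
  exact Real.rpow_le_rpow_of_exponent_le (by have := sq_nonneg ‖x‖; linarith) h

theorem w_mul (κ μ : ℝ) (x : E) :
    (1 + ‖x‖ ^ 2) ^ κ * (1 + ‖x‖ ^ 2) ^ μ = (1 + ‖x‖ ^ 2) ^ (κ + μ) := by
  rw [Real.rpow_add (by positivity)]

/-- `∫ |x|² (1+|x|²)^(κ-1) = J κ - J (κ-1)` -/
theorem JJ_sq {κ : ℝ} (hκ : κ < -(Module.finrank ℝ E : ℝ) / 2) :
    Integrable (fun x : E => ‖x‖ ^ 2 * (1 + ‖x‖ ^ 2) ^ (κ - 1)) ∧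
    ∫ x : E, ‖x‖ ^ 2 * (1 + ‖x‖ ^ 2) ^ (κ - 1) = JJ E κ - JJ E (κ - 1) := by
  have h1 := JJ_int (E := E) hκ
  have h2 := JJ_int (E := E) (κ := κ - 1) (by linarith)
  have e : ∀ x : E, ‖x‖ ^ 2 * (1 + ‖x‖ ^ 2) ^ (κ - 1) =
      (1 + ‖x‖ ^ 2) ^ κ - (1 + ‖x‖ ^ 2) ^ (κ - 1) := fun x => by
    rw [w_succ κ x]; ring
  simp_rw [e]
  exact ⟨h1.sub h2, integral_sub h1 h2⟩

/-- the dilation identity -/
theorem JJ_id {κ : ℝ} (hκ : κ < -(Module.finrank ℝ E : ℝ) / 2) :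
    ((Module.finrank ℝ E : ℝ) + 2 * κ) * JJ E κ = 2 * κ * JJ E (κ - 1) := by
  have hκ0 : κ < 0 := by
    have : (0:ℝ) ≤ Module.finrank ℝ E := Nat.cast_nonneg _
    linarith
  set n := Module.finrank ℝ E with hn
  obtain ⟨i1, e1⟩ := JJ_sq (E := E) hκ
  -- derivative of the dilated integral
  have hder : HasDerivAt (fun l : ℝ => ∫ x : E, (1 + l ^ 2 * ‖x‖ ^ 2) ^ κ)
      (∫ x : E, (2 * (1:ℝ) * ‖x‖ ^ 2) * κ * (1 + (1:ℝ) ^ 2 * ‖x‖ ^ 2) ^ (κ - 1)) 1 := by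
    refine (hasDerivAt_integral_of_dominated_loc_of_deriv_le (μ := (volume : Measure E))
      (F := fun (l : ℝ) (x : E) => (1 + l ^ 2 * ‖x‖ ^ 2) ^ κ)
      (F' := fun (l : ℝ) (x : E) => (2 * l * ‖x‖ ^ 2) * κ * (1 + l ^ 2 * ‖x‖ ^ 2) ^ (κ - 1))
      (x₀ := 1) (s := Ioo (1/2 : ℝ) 2)
      (bound := fun x => 16 * |κ| * (1/4 : ℝ) ^ κ * (1 + ‖x‖ ^ 2) ^ κ)
      (Ioo_mem_nhds (by norm_num) (by norm_num)) ?_ ?_ ?_ ?_ ?_ ?_).2
    · refine Eventually.of_forall fun l => ?_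
      refine Continuous.aestronglyMeasurable ?_
      exact (by fun_prop : Continuous fun x : E => 1 + l ^ 2 * ‖x‖ ^ 2).rpow_const
        fun x => Or.inl (by positivity)
    · have := JJ_int (E := E) hκ
      simpa using this
    · refine Continuous.aestronglyMeasurable ?_
      refine Continuous.mul (by fun_prop) ?_
      exact (by fun_prop : Continuous fun x : E => 1 + (1:ℝ) ^ 2 * ‖x‖ ^ 2).rpow_const
        fun x => Or.inl (by positivity)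
    · refine Eventually.of_forall fun x l hl => ?_
      have hp : 0 < 1 + l ^ 2 * ‖x‖ ^ 2 := by positivity
      have hl0 : 0 < l := by linarith [hl.1]
      have hl2 : (1/4 : ℝ) ≤ l ^ 2 := by nlinarith [hl.1]
      rw [norm_mul, norm_mul, Real.norm_of_nonneg (Real.rpow_pos_of_pos hp _).le,
        Real.norm_of_nonneg (by positivity : 0 ≤ 2 * l * ‖x‖ ^ 2), Real.norm_eq_abs]
      have h1 : 2 * l * ‖x‖ ^ 2 ≤ 16 * (1 + l ^ 2 * ‖x‖ ^ 2) := by
        have := hl.2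
        nlinarith [sq_nonneg ‖x‖, mul_le_mul_of_nonneg_right hl2 (sq_nonneg ‖x‖)]
      have h2 : (1 + l ^ 2 * ‖x‖ ^ 2) ^ κ ≤ (1/4 : ℝ) ^ κ * (1 + ‖x‖ ^ 2) ^ κ := by
        rw [← Real.mul_rpow (by norm_num) (by positivity)]
        refine Real.rpow_le_rpow_of_nonpos (by positivity) ?_ hκ0.le
        nlinarith [sq_nonneg ‖x‖, mul_le_mul_of_nonneg_right hl2 (sq_nonneg ‖x‖)]
      calc 2 * l * ‖x‖ ^ 2 * |κ| * (1 + l ^ 2 * ‖x‖ ^ 2) ^ (κ - 1)
          ≤ 16 * (1 + l ^ 2 * ‖x‖ ^ 2) * |κ| * (1 + l ^ 2 * ‖x‖ ^ 2) ^ (κ - 1) := by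
            refine mul_le_mul_of_nonneg_right ?_ (Real.rpow_pos_of_pos hp _).le
            exact mul_le_mul_of_nonneg_right h1 (abs_nonneg _)
        _ = 16 * |κ| * (1 + l ^ 2 * ‖x‖ ^ 2) ^ κ := by
            rw [Real.rpow_sub_one hp.ne']
            field_simp
        _ ≤ 16 * |κ| * ((1/4 : ℝ) ^ κ * (1 + ‖x‖ ^ 2) ^ κ) :=
            mul_le_mul_of_nonneg_left h2 (by positivity)
        _ = _ := by ring
    · exact (JJ_int hκ).const_mul _
    · refine Eventually.of_forall fun x l hl => ?_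
      have hp : 0 < 1 + l ^ 2 * ‖x‖ ^ 2 := by positivity
      have h1 : HasDerivAt (fun l : ℝ => 1 + l ^ 2 * ‖x‖ ^ 2) (2 * l * ‖x‖ ^ 2) l := by
        have := ((hasDerivAt_pow 2 l).mul_const (‖x‖ ^ 2)).const_add 1
        simpa using this
      exact h1.rpow_const (Or.inl hp.ne')
  -- the same integral computed by scaling
  have hsc : ∀ l : ℝ, 0 < l → ∫ x : E, (1 + l ^ 2 * ‖x‖ ^ 2) ^ κ = l ^ (-(n : ℝ)) * JJ E κ := by
    intro l hl
    have h := Measure.integral_comp_smul (volume : Measure E) (fun x : E => (1 + ‖x‖ ^ 2) ^ κ) l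
    have e : ∀ x : E, (1 + ‖l • x‖ ^ 2) ^ κ = (1 + l ^ 2 * ‖x‖ ^ 2) ^ κ := fun x => by
      rw [norm_smul, mul_pow, Real.norm_eq_abs, sq_abs]
    simp_rw [e] at h
    rw [h, smul_eq_mul, abs_of_nonneg (by positivity), ← hn, Real.rpow_neg hl.le, Real.rpow_natCast]
    rfl
  have hder2 : HasDerivAt (fun l : ℝ => ∫ x : E, (1 + l ^ 2 * ‖x‖ ^ 2) ^ κ)
      (-(n : ℝ) * JJ E κ) 1 := by
    have h1 : HasDerivAt (fun l : ℝ => l ^ (-(n : ℝ)) * JJ E κ) (-(n : ℝ) * JJ E κ) 1 := by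
      have := (Real.hasDerivAt_rpow_const (x := 1) (p := -(n : ℝ)) (Or.inl one_ne_zero)).mul_const
        (JJ E κ)
      simpa using this
    refine h1.congr_of_eventuallyEq ?_
    filter_upwards [Ioi_mem_nhds (zero_lt_one : (0:ℝ) < 1)] with l hl
    exact hsc l hl
  have h := hder.unique hder2
  have e2 : ∫ x : E, (2 * (1:ℝ) * ‖x‖ ^ 2) * κ * (1 + (1:ℝ) ^ 2 * ‖x‖ ^ 2) ^ (κ - 1) =
      2 * κ * ∫ x : E, ‖x‖ ^ 2 * (1 + ‖x‖ ^ 2) ^ (κ - 1) := by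
    rw [← integral_const_mul]
    congr 1
    funext x
    rw [one_pow, one_mul]
    ring
  rw [e2, e1] at h
  linarith

end Pool.Agent.N822.HC
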