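import Mathlib
import Pool.Agent.N822.HC.JJ

/-!
Explicit test functions.
-/

set_option autoImplicit false
set_option linter.unusedSectionVars false
set_option linter.unusedVariables false

open MeasureTheory Set Filter Topology Real Metric
open scoped RealInnerProductSpace ContDiff

noncomputable section

namespace Pool.Agent.N822.HC

variable {E : Type*} [NormedAddCommGroup E] [InnerProductSpace ℝ E] [FiniteDimensional ℝ E]
  [MeasurableSpace E] [BorelSpace E]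

/-- test function -/
def UU (β c : ℝ) (x : E) : ℝ := (1 + ‖x‖ ^ 2) ^ (-β) - c

theorem UU_smooth (β c : ℝ) : ContDiff ℝ ∞ (UU β c : E → ℝ) := by
  refine ContDiff.sub (ContDiff.rpow_const_of_ne ?_ ?_) contDiff_const
  · exact contDiff_const.add (contDiff_norm_sq ℝ)
  · intro x
    positivity

theorem UU_fderiv (β c : ℝ) (x : E) :
    fderiv ℝ (UU β c) x = (-2 * β * (1 + ‖x‖ ^ 2) ^ (-β - 1)) • innerSL ℝ x := by
  have h1 : HasFDerivAt (fun x : E => 1 + ‖x‖ ^ 2) ((2 : ℝ) • innerSL ℝ x) x :=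
    (hasFDerivAt_normsq x).const_add 1
  have h2 := h1.rpow_const (p := -β) (Or.inl (by positivity))
  have h3 := (h2.sub_const c).fderiv
  unfold UU
  rw [h3, smul_smul]
  congr 1
  ring

theorem UU_energy_pt (α β c : ℝ) (x : E) :
    (1 + ‖x‖ ^ 2) ^ α * ‖fderiv ℝ (UU β c) x‖ ^ 2 =
      4 * β ^ 2 * (‖x‖ ^ 2 * (1 + ‖x‖ ^ 2) ^ (α - 1 - 2 * β - 1)) := by
  rw [UU_fderiv, norm_smul, innerSL_apply_norm, Real.norm_eq_abs, mul_pow, sq_abs]
  have e : (1 + ‖x‖ ^ 2) ^ (α - 1 - 2 * β - 1) =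
      (1 + ‖x‖ ^ 2) ^ α * ((1 + ‖x‖ ^ 2) ^ (-β - 1) * (1 + ‖x‖ ^ 2) ^ (-β - 1)) := by
    rw [w_mul, w_mul]
    congr 1
    ring
  rw [e]
  ring

theorem UU_energy {α β c : ℝ} (hκ : α - 1 - 2 * β < -(Module.finrank ℝ E : ℝ) / 2) :
    Integrable (fun x : E => (1 + ‖x‖ ^ 2) ^ α * ‖fderiv ℝ (UU β c) x‖ ^ 2) ∧
    ∫ x : E, (1 + ‖x‖ ^ 2) ^ α * ‖fderiv ℝ (UU β c) x‖ ^ 2 =
      2 * Module.finrank ℝ E * β ^ 2 / (1 - α + 2 * β) * JJ E (α - 1 - 2 * β) := by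
  obtain ⟨i, e⟩ := JJ_sq (E := E) hκ
  have hid := JJ_id (E := E) hκ
  simp_rw [UU_energy_pt]
  refine ⟨i.const_mul _, ?_⟩
  rw [integral_const_mul, e]
  have hn0 : (0:ℝ) ≤ Module.finrank ℝ E := Nat.cast_nonneg _
  have hk : 0 < 1 - α + 2 * β := by linarith
  have e1 : JJ E (α - 1 - 2 * β) - JJ E (α - 1 - 2 * β - 1) =
      Module.finrank ℝ E / (2 * (1 - α + 2 * β)) * JJ E (α - 1 - 2 * β) := by
    rw [div_mul_eq_mul_div, eq_div_iff (by positivity)]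
    linarith
  rw [e1]
  field_simp
  ring

theorem UU_mass {α β c : ℝ} (hκ : α - 1 - 2 * β < -(Module.finrank ℝ E : ℝ) / 2)
    (h1 : α - 1 - β < -(Module.finrank ℝ E : ℝ) / 2)
    (h0 : α - 1 < -(Module.finrank ℝ E : ℝ) / 2) :
    Integrable (fun x : E => (1 + ‖x‖ ^ 2) ^ (α - 1) * UU β c x ^ 2) ∧
    ∫ x : E, (1 + ‖x‖ ^ 2) ^ (α - 1) * UU β c x ^ 2 =
      JJ E (α - 1 - 2 * β) - 2 * c * JJ E (α - 1 - β) + c ^ 2 * JJ E (α - 1) := by
  have i1 := JJ_int (E := E) hκ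
  have i2 := JJ_int (E := E) h1
  have i3 := JJ_int (E := E) h0
  have e : ∀ x : E, (1 + ‖x‖ ^ 2) ^ (α - 1) * UU β c x ^ 2 =
      (1 + ‖x‖ ^ 2) ^ (α - 1 - 2 * β) - 2 * c * (1 + ‖x‖ ^ 2) ^ (α - 1 - β) +
        c ^ 2 * (1 + ‖x‖ ^ 2) ^ (α - 1) := fun x => by
    unfold UU
    have e1 : (1 + ‖x‖ ^ 2) ^ (α - 1 - 2 * β) =
      (1 + ‖x‖ ^ 2) ^ (α - 1) * ((1 + ‖x‖ ^ 2) ^ (-β) * (1 + ‖x‖ ^ 2) ^ (-β)) := by
      rw [w_mul, w_mul]; congr 1; ring
    have e2 : (1 + ‖x‖ ^ 2) ^ (α - 1 - β) =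
      (1 + ‖x‖ ^ 2) ^ (α - 1) * (1 + ‖x‖ ^ 2) ^ (-β) := by
      rw [w_mul]; congr 1
    rw [e1, e2]
    ring
  simp_rw [e]
  have i12 := i1.sub (i2.const_mul (2 * c))
  refine ⟨i12.add (i3.const_mul _), ?_⟩
  rw [integral_add (f := fun x : E => (1 + ‖x‖ ^ 2) ^ (α - 1 - 2 * β) -
      2 * c * (1 + ‖x‖ ^ 2) ^ (α - 1 - β)) i12 (i3.const_mul _),
    integral_sub i1 (i2.const_mul _), integral_const_mul, integral_const_mul]
  rfl

theorem UU_mass0 {α β : ℝ} (hκ : α - 1 - 2 * β < -(Module.finrank ℝ E : ℝ) / 2) :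
    Integrable (fun x : E => (1 + ‖x‖ ^ 2) ^ (α - 1) * UU β 0 x ^ 2) ∧
    ∫ x : E, (1 + ‖x‖ ^ 2) ^ (α - 1) * UU β 0 x ^ 2 = JJ E (α - 1 - 2 * β) := by
  have i1 := JJ_int (E := E) hκ
  have e : ∀ x : E, (1 + ‖x‖ ^ 2) ^ (α - 1) * UU β 0 x ^ 2 =
      (1 + ‖x‖ ^ 2) ^ (α - 1 - 2 * β) := fun x => by
    unfold UU
    have e1 : (1 + ‖x‖ ^ 2) ^ (α - 1 - 2 * β) =
      (1 + ‖x‖ ^ 2) ^ (α - 1) * ((1 + ‖x‖ ^ 2) ^ (-β) * (1 + ‖x‖ ^ 2) ^ (-β)) := by
      rw [w_mul, w_mul]; congr 1; ring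
    rw [e1]
    ring
  simp_rw [e]
  exact ⟨i1, rfl⟩

theorem UU_mean {α β c : ℝ} (h1 : α - 1 - β < -(Module.finrank ℝ E : ℝ) / 2)
    (h0 : α - 1 < -(Module.finrank ℝ E : ℝ) / 2) :
    Integrable (fun x : E => (1 + ‖x‖ ^ 2) ^ (α - 1) * UU β c x) ∧
    ∫ x : E, (1 + ‖x‖ ^ 2) ^ (α - 1) * UU β c x =
      JJ E (α - 1 - β) - c * JJ E (α - 1) := by
  have i2 := JJ_int (E := E) h1
  have i3 := JJ_int (E := E) h0
  have e : ∀ x : E, (1 + ‖x‖ ^ 2) ^ (α - 1) * UU β c x =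
      (1 + ‖x‖ ^ 2) ^ (α - 1 - β) - c * (1 + ‖x‖ ^ 2) ^ (α - 1) := fun x => by
    unfold UU
    have e2 : (1 + ‖x‖ ^ 2) ^ (α - 1 - β) =
      (1 + ‖x‖ ^ 2) ^ (α - 1) * (1 + ‖x‖ ^ 2) ^ (-β) := by
      rw [w_mul]; congr 1
    rw [e2]
    ring
  simp_rw [e]
  refine ⟨i2.sub (i3.const_mul _), ?_⟩
  rw [integral_sub i2 (i3.const_mul _), integral_const_mul]
  rfl

theorem LB.free {P : Prop} (hP : ¬ P) {α β q : ℝ} (hq : LB E P α q)
    (hκ : α - 1 - 2 * β < -(Module.finrank ℝ E : ℝ) / 2) :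
    q ≤ 2 * Module.finrank ℝ E * β ^ 2 / (1 - α + 2 * β) := by
  obtain ⟨i1, e1⟩ := UU_energy (E := E) (c := 0) hκ
  obtain ⟨i2, e2⟩ := UU_mass0 (E := E) hκ
  have h := hq.test (UU_smooth β 0) i1 i2 (fun h => absurd h hP) (fun h => absurd h hP)
  rw [e1, e2] at h
  exact le_of_mul_le_mul_right h (JJ_pos hκ)

theorem LB.mean {P : Prop} {α β q : ℝ} (hq : LB E P α q)
    (hκ : α - 1 - 2 * β < -(Module.finrank ℝ E : ℝ) / 2)
    (h1 : α - 1 - β < -(Module.finrank ℝ E : ℝ) / 2)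
    (h0 : α - 1 < -(Module.finrank ℝ E : ℝ) / 2) :
    q * (JJ E (α - 1 - 2 * β) - JJ E (α - 1 - β) ^ 2 / JJ E (α - 1)) ≤
      2 * Module.finrank ℝ E * β ^ 2 / (1 - α + 2 * β) * JJ E (α - 1 - 2 * β) := by
  have hp := JJ_pos (E := E) h0
  set c := JJ E (α - 1 - β) / JJ E (α - 1) with hc
  obtain ⟨i1, e1⟩ := UU_energy (E := E) (c := c) hκ
  obtain ⟨i2, e2⟩ := UU_mass (E := E) (c := c) hκ h1 h0
  obtain ⟨i3, e3⟩ := UU_mean (E := E) (c := c) h1 h0
  have h := hq.test (UU_smooth β c) i1 i2 (fun _ => i3) (fun _ => by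
    rw [e3, hc, div_mul_cancel₀ _ hp.ne', sub_self])
  rw [e1, e2] at h
  refine le_trans (le_of_eq ?_) h
  congr 1
  rw [hc]
  field_simp
  ring

/-- case `α > 1 + n/2` -/
theorem upper_A {P : Prop} (hP : ¬ P) {α q : ℝ} (hq : LB E P α q)
    (hα : 1 + (Module.finrank ℝ E : ℝ) / 2 < α) : q ≤ 2 * Module.finrank ℝ E * (α - 1) := by
  have hn0 : (0:ℝ) ≤ Module.finrank ℝ E := Nat.cast_nonneg _
  have h := hq.free hP (β := α - 1) (by linarith)
  refine h.trans (le_of_eq ?_)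
  have : 1 - α + 2 * (α - 1) = α - 1 := by ring
  rw [this]
  have : α - 1 ≠ 0 := by linarith
  field_simp

/-- continuous-spectrum value, without constraint -/
theorem upper_B {P : Prop} (hP : ¬ P) {α q : ℝ} (hq : LB E P α q)
    (hn : 0 < Module.finrank ℝ E) :
    q ≤ ((Module.finrank ℝ E : ℝ) - 2 + 2 * α) ^ 2 / 4 := by
  set n : ℝ := (Module.finrank ℝ E : ℝ) with hndef
  have hn0 : 0 < n := by rw [hndef]; exact_mod_cast hn
  set s : ℝ := (n - 2 + 2 * α) / 2 with hs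
  have hle : ∀ β, s / 2 < β → q ≤ 2 * n * β ^ 2 / (1 - α + 2 * β) := fun β hβ =>
    hq.free hP (by linarith)
  have hlim : Tendsto (fun β : ℝ => 2 * n * β ^ 2 / (1 - α + 2 * β)) (𝓝[>] (s / 2))
      (𝓝 (2 * n * (s / 2) ^ 2 / (1 - α + 2 * (s / 2)))) := by
    have hne : 1 - α + 2 * (s / 2) ≠ 0 := by
      have : 1 - α + 2 * (s / 2) = n / 2 := by rw [hs]; ring
      rw [this]; positivity
    have hc : ContinuousAt (fun β : ℝ => 2 * n * β ^ 2 / (1 - α + 2 * β)) (s / 2) := by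
      refine ContinuousAt.div (by fun_prop) (by fun_prop) hne
    exact hc.tendsto.mono_left nhdsWithin_le_nhds
  have h := ge_of_tendsto hlim (by
    filter_upwards [self_mem_nhdsWithin] with β hβ
    exact hle β hβ)
  refine h.trans (le_of_eq ?_)
  have : 1 - α + 2 * (s / 2) = n / 2 := by rw [hs]; ring
  rw [this, hs]
  field_simp
  ring

/-- continuous-spectrum value, with constraint -/
theorem upper_C {P : Prop} {α q : ℝ} (hq : LB E P α q) (hn : 0 < Module.finrank ℝ E)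
    (hα : (Module.finrank ℝ E : ℝ) - 2 + 2 * α < 0) :
    q ≤ ((Module.finrank ℝ E : ℝ) - 2 + 2 * α) ^ 2 / 4 := by
  rcases le_or_gt q 0 with hq0 | hq0
  · exact hq0.trans (by positivity)
  have hid0 := fun (κ : ℝ) => JJ_id (E := E) (κ := κ)
  have hpos0 := fun (κ : ℝ) => JJ_pos (E := E) (κ := κ)
  have hmono0 := fun (κ μ : ℝ) => JJ_mono (E := E) (κ := κ) (μ := μ)
  have hmean0 := fun (β : ℝ) => hq.mean (β := β)
  set n : ℝ := (Module.finrank ℝ E : ℝ) with hndef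
  have hn0 : 0 < n := by rw [hndef]; exact_mod_cast hn
  set s : ℝ := (n - 2 + 2 * α) / 2 with hs
  have hs0 : s < 0 := by rw [hs]; linarith
  set J1 := JJ E (α - 1 - s / 2) with hJ1
  set J0 := JJ E (α - 1) with hJ0
  set J2 := JJ E (-n / 2 - 2) with hJ2
  have hJ0p : 0 < J0 := hpos0 _ (by linarith)
  have hJ1p : 0 < J1 := hpos0 _ (by linarith)
  have hJ2p : 0 < J2 := hpos0 _ (by linarith)
  set C := J1 ^ 2 / J0 / (n * J2) with hC
  have hle : ∀ β, β ∈ Ioo (s / 2) (s / 2 + 1 / 2) →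
      q * (1 - C * (4 * β - 2 * s)) ≤ 2 * n * β ^ 2 / (1 - α + 2 * β) := by
    rintro β ⟨hb1, hb2⟩
    have hκ : α - 1 - 2 * β < -n / 2 := by linarith
    have hJp := hpos0 _ hκ
    have h := hmean0 β hκ (by linarith) (by linarith)
    have hid := hid0 _ hκ
    have hlow : n * J2 ≤ (4 * β - 2 * s) * JJ E (α - 1 - 2 * β) := by
      have hm := hmono0 (-n / 2 - 2) (α - 1 - 2 * β - 1) (by linarith) (by linarith)
      have e : (4 * β - 2 * s) = -(n + 2 * (α - 1 - 2 * β)) := by rw [hs]; ring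
      rw [e, neg_mul, hid]
      have hk : n ≤ -(2 * (α - 1 - 2 * β)) := by linarith
      calc n * J2 ≤ -(2 * (α - 1 - 2 * β)) * JJ E (α - 1 - 2 * β - 1) :=
            mul_le_mul hk hm hJ2p.le (by linarith)
        _ = _ := by ring
    have hJ1' : JJ E (α - 1 - β) ≤ J1 := hmono0 _ _ (by linarith) (by linarith)
    have hJ1p' : 0 < JJ E (α - 1 - β) := hpos0 _ (by linarith)
    have hr : JJ E (α - 1 - β) ^ 2 / J0 ≤ C * (4 * β - 2 * s) * JJ E (α - 1 - 2 * β) := by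
      calc JJ E (α - 1 - β) ^ 2 / J0 ≤ J1 ^ 2 / J0 := by gcongr
        _ = C * (n * J2) := by rw [hC]; field_simp
        _ ≤ C * ((4 * β - 2 * s) * JJ E (α - 1 - 2 * β)) :=
            mul_le_mul_of_nonneg_left hlow (by positivity)
        _ = _ := by ring
    have h2 : q * (1 - C * (4 * β - 2 * s)) * JJ E (α - 1 - 2 * β) ≤
        2 * n * β ^ 2 / (1 - α + 2 * β) * JJ E (α - 1 - 2 * β) := by
      refine le_trans ?_ h
      have : q * (1 - C * (4 * β - 2 * s)) * JJ E (α - 1 - 2 * β) =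
        q * (JJ E (α - 1 - 2 * β) - C * (4 * β - 2 * s) * JJ E (α - 1 - 2 * β)) := by ring
      rw [this]
      exact mul_le_mul_of_nonneg_left (by linarith) hq0.le
    exact le_of_mul_le_mul_right h2 hJp
  have hden : 1 - α + 2 * (s / 2) = n / 2 := by rw [hs]; ring
  have hlim : Tendsto (fun β : ℝ => 2 * n * β ^ 2 / (1 - α + 2 * β)) (𝓝[>] (s / 2))
      (𝓝 (2 * n * (s / 2) ^ 2 / (1 - α + 2 * (s / 2)))) := by
    have hne : 1 - α + 2 * (s / 2) ≠ 0 := by rw [hden]; positivity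
    have hc : ContinuousAt (fun β : ℝ => 2 * n * β ^ 2 / (1 - α + 2 * β)) (s / 2) := by
      refine ContinuousAt.div (by fun_prop) (by fun_prop) hne
    exact hc.tendsto.mono_left nhdsWithin_le_nhds
  have hlim2 : Tendsto (fun β : ℝ => q * (1 - C * (4 * β - 2 * s))) (𝓝[>] (s / 2))
      (𝓝 (q * (1 - C * (4 * (s / 2) - 2 * s)))) := by
    have hc : ContinuousAt (fun β : ℝ => q * (1 - C * (4 * β - 2 * s))) (s / 2) := by fun_prop
    exact hc.tendsto.mono_left nhdsWithin_le_nhds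
  have h := le_of_tendsto_of_tendsto hlim2 hlim (by
    filter_upwards [Ioo_mem_nhdsGT (show s / 2 < s / 2 + 1 / 2 by linarith)] with β hβ
    exact hle β hβ)
  have e1 : q * (1 - C * (4 * (s / 2) - 2 * s)) = q := by ring
  rw [e1, hden] at h
  refine h.trans (le_of_eq ?_)
  rw [hs]
  field_simp
  ring

/-- the middle eigenvalue -/
theorem upper_D {P : Prop} {α q : ℝ} (hq : LB E P α q) (hn : 0 < Module.finrank ℝ E)
    (hα : α < -((Module.finrank ℝ E : ℝ) + 2) / 2) :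
    q ≤ -4 * α - 2 * Module.finrank ℝ E := by
  have h := hq.mean (β := -1) (by linarith) (by linarith) (by linarith)
  have i1 := JJ_id (E := E) (κ := α) (by linarith)
  have i2 := JJ_id (E := E) (κ := α + 1) (by linarith)
  have p0 := JJ_pos (E := E) (κ := α - 1) (by linarith)
  have p1 := JJ_pos (E := E) (κ := α) (by linarith)
  set n : ℝ := (Module.finrank ℝ E : ℝ) with hndef
  have hn0 : 0 < n := by rw [hndef]; exact_mod_cast hn
  rw [show α + 1 - 1 = α by ring] at i2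
  rw [show α - 1 - 2 * -1 = α + 1 by ring, show α - 1 - -1 = α by ring,
    show 1 - α + 2 * -1 = -(α + 1) by ring] at h
  have ha : n + 2 * α < 0 := by linarith
  have hb : n + 2 * α + 2 < 0 := by linarith
  have hc : α + 1 < 0 := by linarith
  have e2 : JJ E (α + 1) = 2 * (α + 1) * JJ E α / (n + 2 * α + 2) := by
    rw [eq_div_iff hb.ne]; linarith
  have e1 : JJ E (α - 1) = (n + 2 * α) * JJ E α / (2 * α) := by
    rw [eq_div_iff (by linarith : 2 * α ≠ 0)]; linarith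
  have hα0 : α ≠ 0 := by linarith
  have hM : JJ E (α + 1) - JJ E α ^ 2 / JJ E (α - 1) =
      JJ E α * (2 * n / ((n + 2 * α + 2) * (n + 2 * α))) := by
    rw [e2, e1]
    have := p1.ne'
    have := ha.ne
    have := hb.ne
    field_simp
    ring
  have hE : 2 * n * (-1) ^ 2 / -(α + 1) * JJ E (α + 1) =
      JJ E α * (-(4 * n) / (n + 2 * α + 2)) := by
    rw [e2]
    have := hb.ne
    have := hc.ne
    field_simp
    ring
  rw [hM, hE] at h
  have h2 : q * (2 * n / ((n + 2 * α + 2) * (n + 2 * α))) ≤ -(4 * n) / (n + 2 * α + 2) := by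
    refine le_of_mul_le_mul_left ?_ p1
    linarith
  have hpp : 0 < (n + 2 * α + 2) * (n + 2 * α) := mul_pos_of_neg_of_neg hb ha
  have hk : 0 < 2 * n / ((n + 2 * α + 2) * (n + 2 * α)) := by positivity
  refine le_of_mul_le_mul_right (h2.trans (le_of_eq ?_)) hk
  have := ha.ne
  have := hb.ne
  field_simp
  ring

end Pool.Agent.N822.HC
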