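import Mathlib
import Pool.Agent.N822.HC.Tst

/-!
The linear test function.
-/

set_option autoImplicit false
set_option linter.unusedSectionVars false
set_option linter.unusedVariables false

open MeasureTheory Set Filter Topology Real Metric
open scoped RealInnerProductSpace ContDiff

noncomputable section

namespace Pool.Agent.N822.HC

variable {E : Type*} [NormedAddCommGroup E] [InnerProductSpace ℝ E] [FiniteDimensional ℝ E]
  [MeasurableSpace E] [BorelSpace E]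

/-- case `α < -n` -/
theorem upper_E {P : Prop} {α q : ℝ} (hq : LB E P α q) (hn : 0 < Module.finrank ℝ E)
    (hα : α < -(Module.finrank ℝ E : ℝ)) : q ≤ -2 * α := by
  have hn1 : (1:ℝ) ≤ Module.finrank ℝ E := by exact_mod_cast hn
  have hJ := JJ_int (E := E) (κ := α) (by linarith)
  have hJ2 := JJ_int (E := E) (κ := α + 1 / 2) (by linarith)
  have hJp := JJ_pos (E := E) (κ := α) (by linarith)
  set n : ℝ := (Module.finrank ℝ E : ℝ) with hndef
  have hnt : Nontrivial E := Module.nontrivial_of_finrank_pos (R := ℝ) hn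
  obtain ⟨e, he⟩ : ∃ e : E, ‖e‖ = 1 := exists_norm_eq E zero_le_one
  have hu : ContDiff ℝ ∞ (fun x : E => ⟪e, x⟫) := (innerSL ℝ e).contDiff
  have hfd : ∀ x : E, HasFDerivAt (fun x : E => ⟪e, x⟫) (innerSL ℝ e) x := fun x =>
    (innerSL ℝ e).hasFDerivAt
  have hfd' : ∀ x : E, fderiv ℝ (fun x : E => ⟪e, x⟫) x = innerSL ℝ e := fun x => (hfd x).fderiv
  have hle : ∀ x : E, |⟪e, x⟫| ≤ ‖x‖ := fun x => by
    have := abs_real_inner_le_norm e x
    rwa [he, one_mul] at this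
  have hsq : ∀ x : E, ⟪e, x⟫ ^ 2 ≤ 1 + ‖x‖ ^ 2 := fun x => by
    have := pow_le_pow_left₀ (abs_nonneg _) (hle x) 2
    rw [sq_abs] at this
    linarith
  -- energy
  have hE : ∀ x : E, (1 + ‖x‖ ^ 2) ^ α * ‖fderiv ℝ (fun x : E => ⟪e, x⟫) x‖ ^ 2 =
      (1 + ‖x‖ ^ 2) ^ α := fun x => by
    rw [hfd', innerSL_apply_norm, he, one_pow, mul_one]
  -- integrability of mass
  have i2 : Integrable fun x : E => (1 + ‖x‖ ^ 2) ^ (α - 1) * ⟪e, x⟫ ^ 2 := by
    refine hJ.mono' ?_ (Eventually.of_forall fun x => ?_)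
    · have := wcont (E := E) (α - 1)
      exact Continuous.aestronglyMeasurable (by fun_prop)
    · rw [Real.norm_of_nonneg (mul_nonneg (w_pos _ _).le (sq_nonneg _)), w_succ α x,
        mul_comm (1 + ‖x‖ ^ 2)]
      exact mul_le_mul_of_nonneg_left (hsq x) (w_pos _ _).le
  have habs : ∀ x : E, |⟪e, x⟫| ≤ (1 + ‖x‖ ^ 2) ^ (1 / 2 : ℝ) := fun x => by
    rw [← Real.sqrt_eq_rpow]
    exact Real.abs_le_sqrt (hsq x)
  have i3 : Integrable fun x : E => (1 + ‖x‖ ^ 2) ^ (α - 1) * ⟪e, x⟫ := by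
    refine hJ.mono' ?_ (Eventually.of_forall fun x => ?_)
    · have := wcont (E := E) (α - 1)
      exact Continuous.aestronglyMeasurable (by fun_prop)
    · rw [norm_mul, Real.norm_of_nonneg (w_pos _ _).le, Real.norm_eq_abs]
      calc (1 + ‖x‖ ^ 2) ^ (α - 1) * |⟪e, x⟫| ≤ (1 + ‖x‖ ^ 2) ^ (α - 1) *
            (1 + ‖x‖ ^ 2) ^ (1 / 2 : ℝ) := mul_le_mul_of_nonneg_left (habs x) (w_pos _ _).le
        _ = (1 + ‖x‖ ^ 2) ^ (α - 1 + 1 / 2) := w_mul _ _ _
        _ ≤ (1 + ‖x‖ ^ 2) ^ α :=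
          Real.rpow_le_rpow_of_exponent_le (by have := sq_nonneg ‖x‖; linarith) (by linarith)
  have i4 : Integrable fun x : E => ⟪e, x⟫ * (1 + ‖x‖ ^ 2) ^ α := by
    refine hJ2.mono' ?_ (Eventually.of_forall fun x => ?_)
    · have := wcont (E := E) α
      exact Continuous.aestronglyMeasurable (by fun_prop)
    · rw [norm_mul, Real.norm_of_nonneg (w_pos _ _).le, Real.norm_eq_abs, mul_comm]
      calc (1 + ‖x‖ ^ 2) ^ α * |⟪e, x⟫| ≤ (1 + ‖x‖ ^ 2) ^ α *
            (1 + ‖x‖ ^ 2) ^ (1 / 2 : ℝ) := mul_le_mul_of_nonneg_left (habs x) (w_pos _ _).le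
        _ = _ := w_mul _ _ _
  -- mean zero by oddness
  have hmean : ∫ x : E, (1 + ‖x‖ ^ 2) ^ (α - 1) * ⟪e, x⟫ = 0 := by
    have h := integral_neg_eq_self (fun x : E => (1 + ‖x‖ ^ 2) ^ (α - 1) * ⟪e, x⟫) volume
    simp only [norm_neg, inner_neg_right, mul_neg, integral_neg] at h
    linarith
  -- integration by parts
  have hg : ∀ x : E, HasFDerivAt (fun x : E => (1 + ‖x‖ ^ 2) ^ α)
      ((α * (1 + ‖x‖ ^ 2) ^ (α - 1)) • ((2 : ℝ) • innerSL ℝ x)) x := fun x => by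
    have h1 : HasFDerivAt (fun x : E => 1 + ‖x‖ ^ 2) ((2 : ℝ) • innerSL ℝ x) x :=
      (hasFDerivAt_normsq x).const_add 1
    exact h1.rpow_const (p := α) (Or.inl (by positivity))
  have hibp := ibp (v := e) hfd hg (by
      simp only [innerSL_apply_apply, real_inner_self_eq_norm_sq, he]
      simpa using hJ) (by
      refine (i2.const_mul (2 * α)).congr (Eventually.of_forall fun x => ?_)
      simp only [smul_apply, innerSL_apply_apply, smul_eq_mul, real_inner_comm x e]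
      ring) i4
  have e1 : ∀ x : E, ⟪e, x⟫ * ((α * (1 + ‖x‖ ^ 2) ^ (α - 1)) • ((2 : ℝ) • innerSL ℝ x)) e =
      2 * α * ((1 + ‖x‖ ^ 2) ^ (α - 1) * ⟪e, x⟫ ^ 2) := fun x => by
    simp only [smul_apply, innerSL_apply_apply, smul_eq_mul, real_inner_comm x e]
    ring
  have e2 : ∀ x : E, innerSL ℝ e e * (1 + ‖x‖ ^ 2) ^ α = (1 + ‖x‖ ^ 2) ^ α := fun x => by
    simp only [innerSL_apply_apply, real_inner_self_eq_norm_sq, he]
    ring
  simp_rw [e1, e2] at hibp
  rw [integral_const_mul] at hibp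
  have h := hq.test hu (by simp_rw [hE]; exact hJ) i2 (fun _ => i3) (fun _ => hmean)
  simp_rw [hE] at h
  set M := ∫ x : E, (1 + ‖x‖ ^ 2) ^ (α - 1) * ⟪e, x⟫ ^ 2 with hM
  have hJJ : ∫ x : E, (1 + ‖x‖ ^ 2) ^ α = -2 * α * M := by linarith
  have hM0 : 0 < M := by
    have h1 : 0 < -2 * α * M := by rw [← hJJ]; exact hJp
    have h2 : 0 < -2 * α := by linarith
    exact (pos_iff_pos_of_mul_pos h1).1 h2
  rw [hJJ] at h
  exact le_of_mul_le_mul_right h hM0

end Pool.Agent.N822.HC
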