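import Mathlib
import Pool.Agent.N822.HC.Rot

/-!
The sharp Poincare inequality on the unit sphere, from the rotation trick for Gaussian measures.
-/

set_option autoImplicit false

open MeasureTheory Set Filter Topology Real Metric
open scoped RealInnerProductSpace

noncomputable section

namespace Pool.Agent.N822.HC

variable {E : Type*} [NormedAddCommGroup E] [InnerProductSpace ℝ E] [FiniteDimensional ℝ E]
  [MeasurableSpace E] [BorelSpace E]

/-- polar coordinates (from `Pool.Agent.Helper734.IB.PolarF`) -/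
theorem polarF [Nontrivial E] (g : E → ℝ) (hg : Integrable g) :
    ∫ y : E, g y = ∫ v : sphere (0 : E) 1,
      (∫ r in Ioi (0:ℝ), r ^ (Module.finrank ℝ E - 1) * g (r • (v : E)))
        ∂((volume : Measure E).toSphere) := by
  have hmp := (volume : Measure E).measurePreserving_homeomorphUnitSphereProd
  have hemb := (homeomorphUnitSphereProd E).measurableEmbedding
  have hcomp : ∀ x : ({(0 : E)}ᶜ : Set E),
      (fun p : sphere (0 : E) 1 × Ioi (0:ℝ) => g ((p.2 : ℝ) • (p.1 : E)))
        (homeomorphUnitSphereProd E x) = g x := by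
    intro x
    show g _ = g x
    congr 1
    have h1 := (homeomorphUnitSphereProd E).symm_apply_apply x
    have h2 := congrArg Subtype.val h1
    rw [homeomorphUnitSphereProd_symm_apply_coe] at h2
    exact h2
  have hint : Integrable (fun p : sphere (0 : E) 1 × Ioi (0:ℝ) => g ((p.2 : ℝ) • (p.1 : E)))
      ((volume : Measure E).toSphere.prod
        (Measure.volumeIoiPow (Module.finrank ℝ E - 1))) := by
    rw [← hmp.integrable_comp_emb hemb]
    have h1 : IntegrableOn g ({(0 : E)}ᶜ : Set E) := hg.integrableOn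
    rw [integrableOn_iff_comap_subtypeVal (measurableSet_singleton _).compl] at h1
    refine h1.congr (Filter.Eventually.of_forall fun x => ?_)
    exact (hcomp x).symm
  calc ∫ y : E, g y = ∫ x : ({(0 : E)}ᶜ : Set E), g x ∂((volume : Measure E).comap (↑)) := by
        rw [integral_subtype_comap (measurableSet_singleton _).compl g,
          restrict_compl_singleton]
    _ = ∫ x : ({(0 : E)}ᶜ : Set E),
        (fun p : sphere (0 : E) 1 × Ioi (0:ℝ) => g ((p.2 : ℝ) • (p.1 : E)))
          (homeomorphUnitSphereProd E x) ∂((volume : Measure E).comap (↑)) := by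
        congr 1
        funext x
        exact (hcomp x).symm
    _ = ∫ p : sphere (0 : E) 1 × Ioi (0:ℝ), g ((p.2 : ℝ) • (p.1 : E))
          ∂((volume : Measure E).toSphere.prod
            (Measure.volumeIoiPow (Module.finrank ℝ E - 1))) :=
        hmp.integral_comp hemb (fun p : sphere (0 : E) 1 × Ioi (0:ℝ) => g ((p.2 : ℝ) • (p.1 : E)))
    _ = ∫ v : sphere (0 : E) 1, ∫ r : Ioi (0:ℝ), g ((r : ℝ) • (v : E))
          ∂(Measure.volumeIoiPow (Module.finrank ℝ E - 1))
          ∂((volume : Measure E).toSphere) := integral_prod _ hint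
    _ = _ := by
        congr 1
        funext v
        simp only [Measure.volumeIoiPow, ENNReal.ofReal]
        rw [integral_withDensity_eq_integral_smul,
          integral_subtype_comap measurableSet_Ioi
            fun a ↦ Real.toNNReal (a ^ (Module.finrank ℝ E - 1)) • g (a • (v : E)),
          setIntegral_congr_fun measurableSet_Ioi fun x hx ↦ ?_]
        · rw [NNReal.smul_def, Real.coe_toNNReal _ (pow_nonneg (le_of_lt hx) _), smul_eq_mul]
        · exact (measurable_subtype_coe.pow_const _).real_toNNReal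

/-- the direction of a vector -/
def dir (x : E) : E := ‖x‖⁻¹ • x

omit [FiniteDimensional ℝ E] [MeasurableSpace E] [BorelSpace E] in
theorem norm_dir_le (x : E) : ‖dir x‖ ≤ 1 := by
  rw [dir, norm_smul, norm_inv, norm_norm]
  rcases eq_or_ne (‖x‖) 0 with h | h
  · simp [h]
  · rw [inv_mul_cancel₀ h]

omit [FiniteDimensional ℝ E] [MeasurableSpace E] [BorelSpace E] in
theorem norm_dir {x : E} (hx : x ≠ 0) : ‖dir x‖ = 1 := by
  rw [dir, norm_smul, norm_inv, norm_norm, inv_mul_cancel₀ (norm_ne_zero_iff.2 hx)]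

omit [FiniteDimensional ℝ E] [MeasurableSpace E] [BorelSpace E] in
theorem dir_smul {r : ℝ} (hr : 0 < r) {v : E} (hv : ‖v‖ = 1) : dir (r • v) = v := by
  rw [dir, norm_smul, hv, mul_one, Real.norm_eq_abs, abs_of_pos hr, smul_smul,
    inv_mul_cancel₀ hr.ne', one_smul]

theorem dir_meas : Measurable (dir : E → E) := by
  unfold dir; fun_prop

/-- integrals of products of a function of the direction and a function of the norm -/
theorem polar_sep [Nontrivial E] (q : E → ℝ) (ρ : ℝ → ℝ)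
    (hint : Integrable fun x : E => q (dir x) * ρ ‖x‖) :
    ∫ x : E, q (dir x) * ρ ‖x‖ = (∫ v : sphere (0 : E) 1, q v ∂((volume : Measure E).toSphere)) *
      ∫ r in Ioi (0:ℝ), r ^ (Module.finrank ℝ E - 1) * ρ r := by
  rw [polarF _ hint, ← integral_mul_const]
  congr 1
  funext v
  rw [← integral_const_mul]
  refine setIntegral_congr_fun measurableSet_Ioi fun r hr => ?_
  have hr' : (0:ℝ) < r := hr
  have hv : ‖(v : E)‖ = 1 := by simp
  show r ^ (Module.finrank ℝ E - 1) * (q (dir (r • (v : E))) * ρ ‖r • (v : E)‖) = _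
  rw [dir_smul hr' hv, norm_smul, hv, mul_one, Real.norm_eq_abs, abs_of_pos hr']
  ring

/-- the function of homogeneity one -/
def FF (h : E → ℝ) (c : ℝ) (x : E) : ℝ := ‖x‖ * (h (dir x) - c)

/-- its derivative at a point of direction `w`, in the direction `v` -/
def KK (h : E → ℝ) (c : ℝ) (w v : E) : ℝ :=
  ⟪w, v⟫ * (h w - c) + fderiv ℝ h w (v - ⟪w, v⟫ • w)

omit [FiniteDimensional ℝ E] [MeasurableSpace E] [BorelSpace E] in
theorem FF_deriv {h : E → ℝ} (hh : ContDiff ℝ 1 h) (c : ℝ) {γ : ℝ → E} {γ' : E} {t : ℝ}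
    (hγ : HasDerivAt γ γ' t) (h0 : γ t ≠ 0) :
    HasDerivAt (fun s => FF h c (γ s)) (KK h c (dir (γ t)) γ') t := by
  have hn0 : ‖γ t‖ ≠ 0 := norm_ne_zero_iff.2 h0
  have hn : HasDerivAt (fun s => ‖γ s‖) (⟪dir (γ t), γ'⟫) t := by
    have h1 : HasDerivAt (fun s => ‖γ s‖ ^ 2) (2 * ⟪γ t, γ'⟫) t := hγ.norm_sq
    have h2 := h1.sqrt (by positivity)
    have h3 : (fun s => √(‖γ s‖ ^ 2)) = fun s => ‖γ s‖ := by
      funext s; exact Real.sqrt_sq (norm_nonneg _)
    rw [h3, Real.sqrt_sq (norm_nonneg _)] at h2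
    refine h2.congr_deriv ?_
    rw [dir, inner_smul_left]
    simp only [conj_trivial]
    field_simp
  have hd : HasDerivAt (fun s => dir (γ s)) (‖γ t‖⁻¹ • (γ' - ⟪dir (γ t), γ'⟫ • dir (γ t))) t := by
    have h1 := (hn.inv hn0).smul hγ
    refine h1.congr_deriv ?_
    rw [smul_sub, sub_eq_add_neg, ← smul_neg, ← neg_smul, smul_smul]
    congr 1
    conv_rhs => rw [dir, smul_smul]
    congr 1
    simp only [dir]
    field_simp
  have hf : HasDerivAt (fun s => h (dir (γ s)))
      (fderiv ℝ h (dir (γ t)) (‖γ t‖⁻¹ • (γ' - ⟪dir (γ t), γ'⟫ • dir (γ t)))) t := by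
    have h1 : HasFDerivAt h (fderiv ℝ h (dir (γ t))) (dir (γ t)) :=
      (hh.differentiable (by norm_num) _).hasFDerivAt
    exact h1.comp_hasDerivAt t hd
  have := hn.mul (hf.sub_const c)
  refine this.congr_deriv ?_
  rw [KK, map_smul, smul_eq_mul, ← mul_assoc, mul_inv_cancel₀ hn0, one_mul]

theorem KK_cont {h : E → ℝ} (hh : ContDiff ℝ 1 h) (c : ℝ) :
    Continuous fun p : E × E => KK h c p.1 p.2 := by
  have h1 : Continuous h := hh.continuous
  have h2 : Continuous (fderiv ℝ h) := hh.continuous_fderiv (by norm_num)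
  unfold KK
  refine ((by fun_prop : Continuous fun p : E × E => ⟪p.1, p.2⟫).mul (by fun_prop)).add ?_
  exact (h2.comp continuous_fst).clm_apply (by fun_prop)

theorem KK_bound {h : E → ℝ} (hh : ContDiff ℝ 1 h) (c : ℝ) :
    ∃ B : ℝ, 0 ≤ B ∧ (∀ x : E, |FF h c x| ≤ B * ‖x‖) ∧
      (∀ x v : E, |KK h c (dir x) v| ≤ B * ‖v‖) ∧ (∀ x : E, |h (dir x)| ≤ B) := by
  have h1 : Continuous h := hh.continuous
  have h2 : Continuous (fderiv ℝ h) := hh.continuous_fderiv (by norm_num)
  have hcpt : IsCompact (closedBall (0 : E) 1) := isCompact_closedBall 0 1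
  obtain ⟨b1, hb1⟩ := hcpt.exists_bound_of_continuousOn (f := fun x => h x - c)
    (h1.sub continuous_const).continuousOn
  obtain ⟨b2, hb2⟩ := hcpt.exists_bound_of_continuousOn (f := fderiv ℝ h) h2.continuousOn
  have hz : (0 : E) ∈ closedBall (0 : E) 1 := by simp
  have p1 : 0 ≤ b1 := (norm_nonneg _).trans (hb1 0 hz)
  have p2 : 0 ≤ b2 := (norm_nonneg _).trans (hb2 0 hz)
  have hd : ∀ x : E, dir x ∈ closedBall (0 : E) 1 := fun x => by
    rw [mem_closedBall_zero_iff]; exact norm_dir_le x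
  refine ⟨b1 + 2 * b2 + |c|, by positivity, fun x => ?_, fun x v => ?_, fun x => ?_⟩
  · rw [FF, abs_mul, abs_norm, mul_comm]
    refine mul_le_mul_of_nonneg_right ?_ (norm_nonneg _)
    have := hb1 _ (hd x)
    rw [Real.norm_eq_abs] at this
    have := abs_nonneg c
    linarith
  · have e1 := hb1 _ (hd x)
    have e2 := hb2 _ (hd x)
    rw [Real.norm_eq_abs] at e1
    have e3 : |⟪dir x, v⟫| ≤ ‖v‖ := by
      refine (abs_real_inner_le_norm _ _).trans ?_
      have := norm_dir_le x
      have := norm_nonneg v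
      nlinarith
    have e4 : ‖v - ⟪dir x, v⟫ • dir x‖ ≤ 2 * ‖v‖ := by
      refine (norm_sub_le _ _).trans ?_
      rw [norm_smul, Real.norm_eq_abs]
      have h5 := norm_dir_le x
      have h6 := norm_nonneg (dir x)
      nlinarith [mul_le_mul e3 h5 h6 (norm_nonneg v)]
    have e5 : |fderiv ℝ h (dir x) (v - ⟪dir x, v⟫ • dir x)| ≤ b2 * (2 * ‖v‖) := by
      rw [← Real.norm_eq_abs]
      refine (ContinuousLinearMap.le_opNorm _ _).trans ?_
      exact mul_le_mul e2 e4 (norm_nonneg _) p2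
    have e6 : |⟪dir x, v⟫ * (h (dir x) - c)| ≤ ‖v‖ * b1 := by
      rw [abs_mul]
      exact mul_le_mul e3 e1 (abs_nonneg _) (norm_nonneg _)
    rw [KK]
    refine (abs_add_le _ _).trans ?_
    have := abs_nonneg c
    nlinarith [norm_nonneg v, mul_nonneg this (norm_nonneg v)]
  · have := hb1 _ (hd x)
    rw [Real.norm_eq_abs] at this
    have h3 : |h (dir x)| ≤ |h (dir x) - c| + |c| := by
      have := abs_add_le (h (dir x) - c) c
      simpa using this
    linarith

/-- almost all pairs are linearly independent -/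
theorem ae_indep (hE : 2 ≤ Module.finrank ℝ E) :
    ∀ᵐ p : E × E ∂((volume : Measure E).prod volume), ∀ θ : ℝ, (rot θ p).1 ≠ 0 := by
  have hnt : Nontrivial E := Module.nontrivial_of_finrank_pos (R := ℝ) (by omega)
  have key : ∀ᵐ p : E × E ∂((volume : Measure E).prod volume),
      ‖p.1‖ ^ 2 * ‖p.2‖ ^ 2 - ⟪p.1, p.2⟫ ^ 2 ≠ 0 := by
    have hms : MeasurableSet {p : E × E | ‖p.1‖ ^ 2 * ‖p.2‖ ^ 2 - ⟪p.1, p.2⟫ ^ 2 ≠ 0} := by
      have hc : Continuous fun p : E × E => ‖p.1‖ ^ 2 * ‖p.2‖ ^ 2 - ⟪p.1, p.2⟫ ^ 2 := by fun_prop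
      exact (isOpen_ne.preimage hc).measurableSet
    rw [Measure.ae_prod_iff_ae_ae hms]
    have hx0 : ∀ᵐ x : E, x ≠ 0 := by
      rw [ae_iff]
      simp
    filter_upwards [hx0] with x hx
    have hsp : (volume : Measure E) (Submodule.span ℝ {x} : Set E) = 0 := by
      refine Measure.addHaar_submodule _ _ fun h => ?_
      have h1 : Module.finrank ℝ (Submodule.span ℝ {x}) = 1 := finrank_span_singleton hx
      rw [h, finrank_top] at h1
      omega
    rw [ae_iff]
    refine measure_mono_null (fun y hy => ?_) hsp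
    simp only [ne_eq, not_not, mem_setOf_eq] at hy
    have hxx : ‖x‖ ^ 2 ≠ 0 := pow_ne_zero _ (norm_ne_zero_iff.2 hx)
    have h1 : ‖y - (⟪x, y⟫ / ‖x‖ ^ 2) • x‖ ^ 2 = 0 := by
      rw [norm_sub_sq_real, norm_smul, inner_smul_right, real_inner_comm x y, mul_pow,
        Real.norm_eq_abs, sq_abs]
      field_simp
      linarith
    have h2 : y - (⟪x, y⟫ / ‖x‖ ^ 2) • x = 0 := by
      rwa [pow_eq_zero_iff two_ne_zero, norm_eq_zero] at h1
    rw [sub_eq_zero.1 h2]
    exact Submodule.smul_mem _ _ (Submodule.mem_span_singleton_self x)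
  filter_upwards [key] with p hp θ h0
  apply hp
  simp only [rot] at h0
  have h1 : cos θ * ⟪p.1, p.1⟫ + sin θ * ⟪p.1, p.2⟫ = 0 := by
    have := congrArg (fun z => ⟪p.1, z⟫) h0
    simpa [inner_add_right, inner_smul_right] using this
  have h2 : cos θ * ⟪p.1, p.2⟫ + sin θ * ⟪p.2, p.2⟫ = 0 := by
    have := congrArg (fun z => ⟪p.2, z⟫) h0
    rw [real_inner_comm] 
    simpa [inner_add_right, inner_smul_right] using this
  rw [real_inner_self_eq_norm_sq] at h1 h2
  have h3 : cos θ * (‖p.1‖ ^ 2 * ‖p.2‖ ^ 2 - ⟪p.1, p.2⟫ ^ 2) = 0 := by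
    linear_combination ‖p.2‖ ^ 2 * h1 - ⟪p.1, p.2⟫ * h2
  have h4 : sin θ * (‖p.1‖ ^ 2 * ‖p.2‖ ^ 2 - ⟪p.1, p.2⟫ ^ 2) = 0 := by
    linear_combination ‖p.1‖ ^ 2 * h2 - ⟪p.1, p.2⟫ * h1
  have h5 := Real.sin_sq_add_cos_sq θ
  by_contra h6
  have h7 : cos θ = 0 := by
    rcases mul_eq_zero.1 h3 with h | h
    · exact h
    · exact absurd h h6
  have h8 : sin θ = 0 := by
    rcases mul_eq_zero.1 h4 with h | h
    · exact h
    · exact absurd h h6
  rw [h7, h8] at h5
  norm_num at h5

end Pool.Agent.N822.HC
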