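import Mathlib
import Pool.Agent.N822.HC.Sph

/-!
The sharp Poincare inequality on the unit sphere, from the rotation trick for Gaussian measures.
-/

set_option autoImplicit false
set_option linter.unusedSectionVars false
set_option linter.unusedVariables false

open MeasureTheory Set Filter Topology Real Metric
open scoped RealInnerProductSpace

noncomputable section

namespace Pool.Agent.N822.HC

variable {E : Type*} [NormedAddCommGroup E] [InnerProductSpace ℝ E] [FiniteDimensional ℝ E]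
  [MeasurableSpace E] [BorelSpace E]

/-- the product Gaussian weight -/
def WW (p : E × E) : ℝ := eW p.1 * eW p.2

theorem WW_rot (θ : ℝ) (p : E × E) : WW (rot θ p) = WW p := by
  have := rot_normsq θ p
  simp only [WW, eW, ← Real.exp_add]
  congr 1
  linarith

theorem WW_pos (p : E × E) : 0 < WW p := mul_pos (eW_pos _) (eW_pos _)

theorem WW_cont : Continuous (WW : E × E → ℝ) :=
  (eW_cont.comp continuous_fst).mul (eW_cont.comp continuous_snd)

/-- the dominating function -/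
def DD (p : E × E) : ℝ := (1 + ‖p.1‖ ^ 2) * eW p.1 * ((1 + ‖p.2‖ ^ 2) * eW p.2)

theorem DD_int : Integrable (DD : E × E → ℝ) (volume.prod volume) :=
  eW_int2.mul_prod eW_int2

theorem DD_ge (p : E × E) : (‖p.1‖ ^ 2 + ‖p.2‖ ^ 2) * WW p ≤ DD p := by
  have h1 := WW_pos p
  have : DD p = ((1 + ‖p.1‖ ^ 2) * (1 + ‖p.2‖ ^ 2)) * WW p := by
    simp only [DD, WW]; ring
  rw [this]
  refine mul_le_mul_of_nonneg_right ?_ h1.le
  nlinarith [sq_nonneg ‖p.1‖, sq_nonneg ‖p.2‖, mul_nonneg (sq_nonneg ‖p.1‖) (sq_nonneg ‖p.2‖)]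

theorem rot_cont : Continuous fun z : ℝ × (E × E) => rot z.1 z.2 := by
  unfold rot; fun_prop

theorem FF_meas {h : E → ℝ} (hh : ContDiff ℝ 1 h) (c : ℝ) : Measurable (FF h c) := by
  unfold FF
  exact measurable_norm.mul ((hh.continuous.measurable.comp dir_meas).sub_const c)

/-- the two integrands -/
def GG (h : E → ℝ) (c : ℝ) (p : E × E) : ℝ := (FF h c p.1 - FF h c p.2) ^ 2 * WW p
/-- the two integrands -/
def HH (h : E → ℝ) (c : ℝ) (p : E × E) : ℝ := KK h c (dir p.1) p.2 ^ 2 * WW p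

theorem GG_meas {h : E → ℝ} (hh : ContDiff ℝ 1 h) (c : ℝ) : Measurable (GG h c) := by
  unfold GG
  exact ((((FF_meas hh c).comp measurable_fst).sub ((FF_meas hh c).comp measurable_snd)).pow_const
    2).mul WW_cont.measurable

theorem HH_meas {h : E → ℝ} (hh : ContDiff ℝ 1 h) (c : ℝ) : Measurable (HH h c) := by
  unfold HH
  refine (Measurable.pow_const ?_ 2).mul WW_cont.measurable
  exact (KK_cont hh c).measurable.comp ((dir_meas.comp measurable_fst).prodMk measurable_snd)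

theorem GG_bound {h : E → ℝ} {c B : ℝ} (hB : 0 ≤ B) (h1 : ∀ x : E, |FF h c x| ≤ B * ‖x‖)
    (p : E × E) : |GG h c p| ≤ 2 * B ^ 2 * DD p := by
  rw [GG, abs_mul, abs_of_pos (WW_pos p), abs_of_nonneg (sq_nonneg _)]
  have a1 := h1 p.1
  have a2 := h1 p.2
  have e1 : FF h c p.1 ^ 2 ≤ B ^ 2 * ‖p.1‖ ^ 2 := by
    rw [← mul_pow, ← sq_abs]; exact pow_le_pow_left₀ (abs_nonneg _) a1 2
  have e2 : FF h c p.2 ^ 2 ≤ B ^ 2 * ‖p.2‖ ^ 2 := by
    rw [← mul_pow, ← sq_abs]; exact pow_le_pow_left₀ (abs_nonneg _) a2 2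
  have e3 : (FF h c p.1 - FF h c p.2) ^ 2 ≤ 2 * B ^ 2 * (‖p.1‖ ^ 2 + ‖p.2‖ ^ 2) := by
    nlinarith [sq_nonneg (FF h c p.1 + FF h c p.2)]
  calc (FF h c p.1 - FF h c p.2) ^ 2 * WW p ≤ 2 * B ^ 2 * (‖p.1‖ ^ 2 + ‖p.2‖ ^ 2) * WW p :=
        mul_le_mul_of_nonneg_right e3 (WW_pos p).le
    _ = 2 * B ^ 2 * ((‖p.1‖ ^ 2 + ‖p.2‖ ^ 2) * WW p) := by ring
    _ ≤ 2 * B ^ 2 * DD p := mul_le_mul_of_nonneg_left (DD_ge p) (by positivity)

theorem HH_bound {h : E → ℝ} {c B : ℝ} (hB : 0 ≤ B)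
    (h1 : ∀ x v : E, |KK h c (dir x) v| ≤ B * ‖v‖) (p : E × E) : |HH h c p| ≤ 2 * B ^ 2 * DD p := by
  rw [HH, abs_mul, abs_of_pos (WW_pos p), abs_of_nonneg (sq_nonneg _)]
  have a1 := h1 p.1 p.2
  have e1 : KK h c (dir p.1) p.2 ^ 2 ≤ B ^ 2 * ‖p.2‖ ^ 2 := by
    rw [← mul_pow, ← sq_abs]; exact pow_le_pow_left₀ (abs_nonneg _) a1 2
  have e3 : KK h c (dir p.1) p.2 ^ 2 ≤ 2 * B ^ 2 * (‖p.1‖ ^ 2 + ‖p.2‖ ^ 2) := by
    nlinarith [sq_nonneg (B * ‖p.1‖), sq_nonneg (B * ‖p.2‖)]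
  calc KK h c (dir p.1) p.2 ^ 2 * WW p ≤ 2 * B ^ 2 * (‖p.1‖ ^ 2 + ‖p.2‖ ^ 2) * WW p :=
        mul_le_mul_of_nonneg_right e3 (WW_pos p).le
    _ = 2 * B ^ 2 * ((‖p.1‖ ^ 2 + ‖p.2‖ ^ 2) * WW p) := by ring
    _ ≤ 2 * B ^ 2 * DD p := mul_le_mul_of_nonneg_left (DD_ge p) (by positivity)

theorem DD_rot_bound (θ : ℝ) (p : E × E) :
    (‖(rot θ p).1‖ ^ 2 + ‖(rot θ p).2‖ ^ 2) * WW (rot θ p) ≤ DD p := by
  rw [rot_normsq, WW_rot]; exact DD_ge p

theorem GG_bound' {h : E → ℝ} {c B : ℝ} (hB : 0 ≤ B) (h1 : ∀ x : E, |FF h c x| ≤ B * ‖x‖)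
    (θ : ℝ) (p : E × E) : |GG h c (rot θ p)| ≤ 2 * B ^ 2 * DD p := by
  set q := rot θ p with hq
  rw [GG, abs_mul, abs_of_pos (WW_pos q), abs_of_nonneg (sq_nonneg _)]
  have a1 := h1 q.1
  have a2 := h1 q.2
  have e1 : FF h c q.1 ^ 2 ≤ B ^ 2 * ‖q.1‖ ^ 2 := by
    rw [← mul_pow, ← sq_abs]; exact pow_le_pow_left₀ (abs_nonneg _) a1 2
  have e2 : FF h c q.2 ^ 2 ≤ B ^ 2 * ‖q.2‖ ^ 2 := by
    rw [← mul_pow, ← sq_abs]; exact pow_le_pow_left₀ (abs_nonneg _) a2 2
  have e3 : (FF h c q.1 - FF h c q.2) ^ 2 ≤ 2 * B ^ 2 * (‖q.1‖ ^ 2 + ‖q.2‖ ^ 2) := by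
    nlinarith [sq_nonneg (FF h c q.1 + FF h c q.2)]
  calc (FF h c q.1 - FF h c q.2) ^ 2 * WW q ≤ 2 * B ^ 2 * (‖q.1‖ ^ 2 + ‖q.2‖ ^ 2) * WW q :=
        mul_le_mul_of_nonneg_right e3 (WW_pos q).le
    _ = 2 * B ^ 2 * ((‖q.1‖ ^ 2 + ‖q.2‖ ^ 2) * WW q) := by ring
    _ ≤ 2 * B ^ 2 * DD p := mul_le_mul_of_nonneg_left (DD_rot_bound θ p) (by positivity)

theorem HH_bound' {h : E → ℝ} {c B : ℝ} (hB : 0 ≤ B)
    (h1 : ∀ x v : E, |KK h c (dir x) v| ≤ B * ‖v‖) (θ : ℝ) (p : E × E) :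
    |HH h c (rot θ p)| ≤ 2 * B ^ 2 * DD p := by
  set q := rot θ p with hq
  rw [HH, abs_mul, abs_of_pos (WW_pos q), abs_of_nonneg (sq_nonneg _)]
  have a1 := h1 q.1 q.2
  have e1 : KK h c (dir q.1) q.2 ^ 2 ≤ B ^ 2 * ‖q.2‖ ^ 2 := by
    rw [← mul_pow, ← sq_abs]; exact pow_le_pow_left₀ (abs_nonneg _) a1 2
  have e3 : KK h c (dir q.1) q.2 ^ 2 ≤ 2 * B ^ 2 * (‖q.1‖ ^ 2 + ‖q.2‖ ^ 2) := by
    nlinarith [sq_nonneg (B * ‖q.1‖), sq_nonneg (B * ‖q.2‖)]
  calc KK h c (dir q.1) q.2 ^ 2 * WW q ≤ 2 * B ^ 2 * (‖q.1‖ ^ 2 + ‖q.2‖ ^ 2) * WW q :=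
        mul_le_mul_of_nonneg_right e3 (WW_pos q).le
    _ = 2 * B ^ 2 * ((‖q.1‖ ^ 2 + ‖q.2‖ ^ 2) * WW q) := by ring
    _ ≤ 2 * B ^ 2 * DD p := mul_le_mul_of_nonneg_left (DD_rot_bound θ p) (by positivity)

/-- averaging over rotations -/
theorem rot_avg {G : E × E → ℝ} (hG : Measurable G) {C : ℝ}
    (hb : ∀ θ p, |G (rot θ p)| ≤ C * DD p) :
    Integrable (fun z : ℝ × (E × E) => G (rot z.1 z.2))
      ((volume.restrict (Ioc 0 (2 * π))).prod (volume.prod volume)) ∧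
    ∫ p : E × E, (∫ θ in (0:ℝ)..(2 * π), G (rot θ p)) ∂(volume.prod volume) =
      2 * π * ∫ p : E × E, G p ∂(volume.prod volume) := by
  have hint : Integrable (fun z : ℝ × (E × E) => G (rot z.1 z.2))
      ((volume.restrict (Ioc 0 (2 * π))).prod (volume.prod volume)) := by
    have h1 : Integrable (fun z : ℝ × (E × E) => C * DD z.2)
        ((volume.restrict (Ioc 0 (2 * π))).prod (volume.prod volume)) :=
      (DD_int.const_mul C).comp_snd _
    refine h1.mono' (hG.comp rot_cont.measurable).aestronglyMeasurable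
      (Eventually.of_forall fun z => ?_)
    rw [Real.norm_eq_abs]; exact hb z.1 z.2
  refine ⟨hint, ?_⟩
  have hpi : (0:ℝ) ≤ 2 * π := by positivity
  have e1 : (fun p : E × E => ∫ θ in (0:ℝ)..(2 * π), G (rot θ p)) =
      fun p => ∫ θ in Ioc 0 (2 * π), G (rot θ p) := by
    funext p; rw [intervalIntegral.integral_of_le hpi]
  rw [e1]
  have e2 := integral_integral_swap (f := fun (θ : ℝ) (p : E × E) => G (rot θ p))
    (μ := volume.restrict (Ioc 0 (2 * π))) (ν := (volume : Measure E).prod volume) hint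
  rw [← e2]
  have e3 : ∀ θ : ℝ, ∫ p : E × E, G (rot θ p) ∂(volume.prod volume) =
      ∫ p : E × E, G p ∂(volume.prod volume) := by
    intro θ
    have h2 := (rot_mp (E := E) θ)
    have h3 := integral_map (μ := (volume : Measure E).prod volume) (φ := rot θ) (f := G)
      h2.measurable.aemeasurable hG.aestronglyMeasurable
    rw [h2.map_eq] at h3
    exact h3.symm
  simp only [e3]
  rw [integral_const, measureReal_restrict_apply_univ, Real.volume_real_Ioc_of_le hpi,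
    smul_eq_mul, sub_zero]

theorem rot_ineq (hE : 2 ≤ Module.finrank ℝ E) {h : E → ℝ} (hh : ContDiff ℝ 1 h) (c : ℝ) :
    ∫ p : E × E, GG h c p ∂(volume.prod volume) ≤
      2 * ∫ p : E × E, HH h c p ∂(volume.prod volume) := by
  obtain ⟨B, hB, b1, b2, b3⟩ := KK_bound hh c
  obtain ⟨i1, e1⟩ := rot_avg (GG_meas hh c) (GG_bound' hB b1)
  obtain ⟨i2, e2⟩ := rot_avg (HH_meas hh c) (HH_bound' hB b2)
  have hpi : (0:ℝ) ≤ 2 * π := by positivity
  have key : ∫ p : E × E, (∫ θ in (0:ℝ)..(2 * π), GG h c (rot θ p)) ∂(volume.prod volume) ≤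
      ∫ p : E × E, 2 * (∫ θ in (0:ℝ)..(2 * π), HH h c (rot θ p)) ∂(volume.prod volume) := by
    have j1 : Integrable (fun p : E × E => ∫ θ in (0:ℝ)..(2 * π), GG h c (rot θ p))
        (volume.prod volume) := by
      have := i1.integral_prod_right
      refine this.congr (Eventually.of_forall fun p => ?_)
      simp only
      rw [intervalIntegral.integral_of_le hpi]
    have j2 : Integrable (fun p : E × E => ∫ θ in (0:ℝ)..(2 * π), HH h c (rot θ p))
        (volume.prod volume) := by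
      have := i2.integral_prod_right
      refine this.congr (Eventually.of_forall fun p => ?_)
      simp only
      rw [intervalIntegral.integral_of_le hpi]
    refine integral_mono_ae j1 (j2.const_mul 2) ?_
    filter_upwards [ae_indep (E := E) hE] with p hp
    -- the curve
    have hγ : ∀ θ, HasDerivAt (fun s => (rot s p).1) ((rot θ p).2) θ := by
      intro θ
      have h1 := ((Real.hasDerivAt_cos θ).smul_const p.1).add
        ((Real.hasDerivAt_sin θ).smul_const p.2)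
      exact h1
    have hφ : ∀ θ, HasDerivAt (fun s => FF h c (rot s p).1)
        (KK h c (dir (rot θ p).1) (rot θ p).2) θ := fun θ => FF_deriv hh c (hγ θ) (hp θ)
    have hrc : Continuous fun θ : ℝ => rot θ p := by
      unfold rot; fun_prop
    have hdc : Continuous fun θ : ℝ => dir (rot θ p).1 := by
      unfold dir
      have hc1 : Continuous fun θ : ℝ => (rot θ p).1 := continuous_fst.comp hrc
      exact (hc1.norm.inv₀ fun θ => norm_ne_zero_iff.2 (hp θ)).smul hc1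
    have hφ' : Continuous fun θ => KK h c (dir (rot θ p).1) (rot θ p).2 :=
      (KK_cont hh c).comp (hdc.prodMk (continuous_snd.comp hrc))
    have hl := lag (fun s => FF h c (rot s p).1)
      (fun θ => KK h c (dir (rot θ p).1) (rot θ p).2) hφ hφ' (fun θ => by
        simp only [rot, Real.cos_add_two_pi, Real.sin_add_two_pi])
    have hq : ∀ θ, (rot (θ + π / 2) p).1 = (rot θ p).2 := fun θ => by
      simp only [rot, Real.cos_add_pi_div_two, Real.sin_add_pi_div_two]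
    simp only [hq] at hl
    have e3 : ∫ θ in (0:ℝ)..(2 * π), GG h c (rot θ p) =
        (∫ θ in (0:ℝ)..(2 * π), (FF h c (rot θ p).1 - FF h c (rot θ p).2) ^ 2) * WW p := by
      rw [← intervalIntegral.integral_mul_const]
      congr 1
      funext θ
      rw [GG, WW_rot]
    have e4 : ∫ θ in (0:ℝ)..(2 * π), HH h c (rot θ p) =
        (∫ θ in (0:ℝ)..(2 * π), (KK h c (dir (rot θ p).1) (rot θ p).2) ^ 2) * WW p := by
      rw [← intervalIntegral.integral_mul_const]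
      congr 1
      funext θ
      rw [HH, WW_rot]
    rw [e3, e4, ← mul_assoc]
    exact mul_le_mul_of_nonneg_right hl (WW_pos p).le
  rw [integral_const_mul, e1, e2] at key
  have hpi' := Real.pi_pos
  have : 2 * π * (∫ p : E × E, GG h c p ∂(volume.prod volume)) ≤
      2 * π * (2 * ∫ p : E × E, HH h c p ∂(volume.prod volume)) := by linarith
  exact le_of_mul_le_mul_left this (by positivity)

end Pool.Agent.N822.HC
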