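import Mathlib
import Pool.Agent.N822.HC.Sph2

/-!
The sharp Poincare inequality on the unit sphere.
-/

set_option autoImplicit false
set_option linter.unusedSectionVars false
set_option linter.unusedVariables false

open MeasureTheory Set Filter Topology Real Metric
open scoped RealInnerProductSpace

noncomputable section

namespace Pool.Agent.N822.HC

variable {E : Type*} [NormedAddCommGroup E] [InnerProductSpace ℝ E] [FiniteDimensional ℝ E]
  [MeasurableSpace E] [BorelSpace E]

/-- squared norm of the tangential part of the gradient -/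
def TT (h : E → ℝ) (v : E) : ℝ := ‖fderiv ℝ h v‖ ^ 2 - (fderiv ℝ h v v) ^ 2

/-- the vector representing `KK` -/
theorem KK_sq_int {h : E → ℝ} (c : ℝ) {w : E} (hw : ‖w‖ = 1) :
    ∫ y : E, KK h c w y ^ 2 * eW y = ((h w - c) ^ 2 + TT h w) * ∫ y : E, eW y := by
  obtain ⟨g, hg⟩ : ∃ g : E, ∀ v, fderiv ℝ h w v = ⟪g, v⟫ :=
    ⟨(InnerProductSpace.toDual ℝ E).symm (fderiv ℝ h w), fun v => by
      rw [InnerProductSpace.toDual_symm_apply]⟩
  have hgn : ‖fderiv ℝ h w‖ = ‖g‖ := by
    have : fderiv ℝ h w = innerSL ℝ g := by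
      ext v; rw [hg]; rfl
    rw [this, innerSL_apply_norm]
  set a : E := (h w - c - ⟪g, w⟫) • w + g with ha
  have h1 : ∀ y, KK h c w y = ⟪a, y⟫ := fun y => by
    rw [KK, hg, ha, inner_add_left, inner_smul_left, inner_sub_right, inner_smul_right]
    simp only [conj_trivial]
    ring
  have h2 : ‖a‖ ^ 2 = (h w - c) ^ 2 + TT h w := by
    rw [TT, hg, hgn, ha, norm_add_sq_real, norm_smul, inner_smul_left, mul_pow, hw,
      Real.norm_eq_abs, sq_abs, real_inner_comm g w]
    simp only [conj_trivial]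
    ring
  simp only [h1]
  rw [gsq, h2]

theorem normsq_eW (E : Type*) [NormedAddCommGroup E] [InnerProductSpace ℝ E]
    [FiniteDimensional ℝ E] [MeasurableSpace E] [BorelSpace E] :
    ∫ y : E, ‖y‖ ^ 2 * eW y = (Module.finrank ℝ E : ℝ) * ∫ y : E, eW y := by
  set b := stdOrthonormalBasis ℝ E with hb
  have h1 : ∀ y : E, ‖y‖ ^ 2 * eW y = ∑ i, ⟪b i, y⟫ ^ 2 * eW y := by
    intro y
    rw [← Finset.sum_mul, b.sum_sq_inner_right]
  have hi : ∀ i, Integrable fun y : E => ⟪b i, y⟫ ^ 2 * eW y := by
    intro i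
    have hc := eW_cont (E := E)
    refine eW_dom (Continuous.aestronglyMeasurable (by fun_prop)) 1 fun y => ?_
    rw [abs_of_nonneg (mul_nonneg (sq_nonneg _) (eW_pos y).le), one_mul]
    refine mul_le_mul_of_nonneg_right ?_ (eW_pos y).le
    have h2 := abs_real_inner_le_norm (b i) y
    rw [b.orthonormal.1 i, one_mul] at h2
    have h3 : ⟪b i, y⟫ ^ 2 ≤ ‖y‖ ^ 2 := by
      rw [← sq_abs]; exact pow_le_pow_left₀ (abs_nonneg _) h2 2
    linarith
  simp only [h1]
  rw [integral_finsetSum _ fun i _ => hi i]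
  simp only [gsq, b.orthonormal.1, one_pow, one_mul, Finset.sum_const, Finset.card_univ,
    Fintype.card_fin, nsmul_eq_mul]

theorem TT_cont {h : E → ℝ} (hh : ContDiff ℝ 1 h) : Continuous (TT h) := by
  have h2 : Continuous (fderiv ℝ h) := hh.continuous_fderiv (by norm_num)
  unfold TT
  exact (h2.norm.pow 2).sub ((h2.clm_apply continuous_id).pow 2)

theorem int_dir_eW {q : E → ℝ} (hq : Continuous q) (k : ℕ) (hk : k ≤ 2) :
    Integrable fun x : E => q (dir x) * (‖x‖ ^ k * eW x) := by
  obtain ⟨b, hb⟩ := (isCompact_closedBall (0 : E) 1).exists_bound_of_continuousOn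
    (f := q) hq.continuousOn
  have hd : ∀ x : E, dir x ∈ closedBall (0 : E) 1 := fun x => by
    rw [mem_closedBall_zero_iff]; exact norm_dir_le x
  have hb0 : 0 ≤ b := (norm_nonneg _).trans (hb 0 (by simp))
  refine eW_dom ?_ b fun x => ?_
  · exact ((hq.measurable.comp dir_meas).mul
      ((measurable_norm.pow_const k).mul eW_cont.measurable)).aestronglyMeasurable
  · rw [abs_mul, abs_of_nonneg (mul_nonneg (pow_nonneg (norm_nonneg _) _) (eW_pos x).le)]
    have h1 := hb _ (hd x)
    rw [Real.norm_eq_abs] at h1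
    refine mul_le_mul h1 (mul_le_mul_of_nonneg_right ?_ (eW_pos x).le)
      (mul_nonneg (pow_nonneg (norm_nonneg _) _) (eW_pos x).le) hb0
    have h2 := norm_nonneg x
    interval_cases k
    · nlinarith
    · nlinarith [sq_nonneg (‖x‖ - 1)]
    · nlinarith

/-- the Gaussian moments -/
def Mo (n k : ℕ) : ℝ := ∫ r in Ioi (0:ℝ), r ^ (n - 1) * (r ^ k * exp (-(r ^ 2 / 2)))

theorem polar_k [Nontrivial E] {q : E → ℝ} (hq : Continuous q) (k : ℕ) (hk : k ≤ 2) :
    ∫ x : E, q (dir x) * (‖x‖ ^ k * eW x) =
      (∫ v : sphere (0 : E) 1, q v ∂((volume : Measure E).toSphere)) * Mo (Module.finrank ℝ E) k := by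
  have := polar_sep (E := E) q (fun r => r ^ k * exp (-(r ^ 2 / 2))) (int_dir_eW hq k hk)
  exact this

/-- **Sharp Poincare inequality on the sphere** -/
theorem sphere_poincare (hE : 2 ≤ Module.finrank ℝ E) {h : E → ℝ} (hh : ContDiff ℝ 1 h) (c : ℝ)
    (hc : ∫ v : sphere (0 : E) 1, (h v - c) ∂((volume : Measure E).toSphere) = 0) :
    ((Module.finrank ℝ E : ℝ) - 1) *
      ∫ v : sphere (0 : E) 1, (h v - c) ^ 2 ∂((volume : Measure E).toSphere) ≤
      ∫ v : sphere (0 : E) 1, TT h v ∂((volume : Measure E).toSphere) := by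
  have hnt : Nontrivial E := Module.nontrivial_of_finrank_pos (R := ℝ) (by omega)
  set n := Module.finrank ℝ E with hn
  set Z : ℝ := ∫ y : E, eW y with hZ
  have hZ0 : 0 < Z := by
    rw [hZ]
    exact integral_pos_of_integrable_nonneg_nonzero eW_cont eW_int (fun x => (eW_pos x).le)
      (x := 0) (eW_pos _).ne'
  have hhc : Continuous h := hh.continuous
  obtain ⟨B, hB, b1, b2, b3⟩ := KK_bound hh c
  have hmain := rot_ineq hE hh c
  -- left hand side
  have iF2 : Integrable fun x : E => FF h c x ^ 2 * eW x := by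
    have := int_dir_eW (E := E) (q := fun w => (h w - c) ^ 2) (by fun_prop) 2 le_rfl
    refine this.congr (Eventually.of_forall fun x => ?_)
    simp only [FF]; ring
  have iF1 : Integrable fun x : E => FF h c x * eW x := by
    have := int_dir_eW (E := E) (q := fun w => (h w - c)) (by fun_prop) 1 (by norm_num)
    refine this.congr (Eventually.of_forall fun x => ?_)
    simp only [FF, pow_one]; ring
  have eF2 : ∫ x : E, FF h c x ^ 2 * eW x =
      (∫ v : sphere (0 : E) 1, (h v - c) ^ 2 ∂((volume : Measure E).toSphere)) * Mo n 2 := by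
    rw [← polar_k (E := E) (q := fun w => (h w - c) ^ 2) (by fun_prop) 2 le_rfl]
    congr 1
    funext x
    simp only [FF]; ring
  have eF1 : ∫ x : E, FF h c x * eW x = 0 := by
    have := polar_k (E := E) (q := fun w => (h w - c)) (by fun_prop) 1 (by norm_num)
    rw [hc, zero_mul] at this
    rw [← this]
    congr 1
    funext x
    simp only [FF, pow_one]; ring
  have eL : ∫ p : E × E, GG h c p ∂(volume.prod volume) = 2 * Z * ∫ x : E, FF h c x ^ 2 * eW x := by
    have e1 : (fun p : E × E => GG h c p) = fun p => (FF h c p.1 ^ 2 * eW p.1) * eW p.2 +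
        eW p.1 * (FF h c p.2 ^ 2 * eW p.2) + (-2) * ((FF h c p.1 * eW p.1) *
          (FF h c p.2 * eW p.2)) := by
      funext p
      simp only [GG, WW]; ring
    have k1 := iF2.mul_prod (eW_int (E := E))
    have k2 := (eW_int (E := E)).mul_prod iF2
    have k3 := (iF1.mul_prod iF1).const_mul (-2)
    have k12 : Integrable (fun p : E × E => (FF h c p.1 ^ 2 * eW p.1) * eW p.2 +
        eW p.1 * (FF h c p.2 ^ 2 * eW p.2)) (volume.prod volume) := k1.add k2
    rw [e1, integral_add k12 k3, integral_add k1 k2, integral_const_mul]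
    rw [integral_prod_mul (fun x : E => FF h c x ^ 2 * eW x) (fun y : E => eW y),
      integral_prod_mul (fun x : E => eW x) (fun x : E => FF h c x ^ 2 * eW x),
      integral_prod_mul (fun x : E => FF h c x * eW x) (fun x : E => FF h c x * eW x), eF1]
    ring
  -- right hand side
  have hTc : Continuous fun w : E => (h w - c) ^ 2 + TT h w := by
    have := TT_cont hh
    fun_prop
  have eR : ∫ p : E × E, HH h c p ∂(volume.prod volume) =
      Z * ∫ x : E, ((h (dir x) - c) ^ 2 + TT h (dir x)) * (‖x‖ ^ 0 * eW x) := by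
    have hi : Integrable (HH h c) ((volume : Measure E).prod volume) := by
      refine (DD_int.const_mul (2 * B ^ 2)).mono' (HH_meas hh c).aestronglyMeasurable
        (Eventually.of_forall fun p => ?_)
      rw [Real.norm_eq_abs]; exact HH_bound hB b2 p
    rw [integral_prod _ hi, ← integral_const_mul]
    refine integral_congr_ae ?_
    have hx0 : ∀ᵐ x : E, x ≠ 0 := by
      rw [ae_iff]
      simp
    filter_upwards [hx0] with x hx
    have h1 : (fun y : E => HH h c (x, y)) = fun y => (KK h c (dir x) y ^ 2 * eW y) * eW x := by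
      funext y
      simp only [HH, WW]; ring
    simp only [h1]
    rw [integral_mul_const, KK_sq_int c (norm_dir hx), pow_zero, one_mul]
    ring
  have eR2 := polar_k (E := E) (q := fun w => (h w - c) ^ 2 + TT h w) hTc 0 (by norm_num)
  -- moments
  have m2 := polar_k (E := E) (q := fun _ => (1 : ℝ)) continuous_const 2 le_rfl
  have m0 := polar_k (E := E) (q := fun _ => (1 : ℝ)) continuous_const 0 (by norm_num)
  have m3 := normsq_eW E
  simp only [one_mul, pow_zero] at m2 m0
  rw [m2] at m3
  rw [← hn] at m0 m2 m3 eR2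
  rw [m0] at m3
  have hS0 : (∫ v : sphere (0 : E) 1, (1:ℝ) ∂((volume : Measure E).toSphere)) * Mo n 0 = Z := by
    rw [hZ, m0]
  set S : ℝ := ∫ v : sphere (0 : E) 1, (1:ℝ) ∂((volume : Measure E).toSphere) with hS
  have hSn : 0 ≤ S := integral_nonneg fun _ => zero_le_one
  have hSM : 0 < S * Mo n 0 := hS0 ▸ hZ0
  have hSpos : 0 < S := lt_of_le_of_ne hSn fun h => by
    rw [← h, zero_mul] at hSM; exact lt_irrefl _ hSM
  have hM0 : 0 < Mo n 0 := by
    rcases pos_and_pos_or_neg_and_neg_of_mul_pos hSM with h | h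
    · exact h.2
    · exact absurd h.1 (not_lt.2 hSn)
  have hM2 : Mo n 2 = n * Mo n 0 := by
    have : S * Mo n 2 = S * (n * Mo n 0) := by rw [m3]; ring
    exact mul_left_cancel₀ hSpos.ne' this
  -- conclusion
  rw [eL, eR, eF2, eR2, hM2] at hmain
  have iq : Integrable (fun v : sphere (0 : E) 1 => (h v - c) ^ 2) ((volume : Measure E).toSphere) := by
    have hcv : Continuous fun v : sphere (0 : E) 1 => (h v - c) ^ 2 := by fun_prop
    exact hcv.integrable_of_hasCompactSupport (HasCompactSupport.of_compactSpace _)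
  have iT : Integrable (fun v : sphere (0 : E) 1 => TT h v) ((volume : Measure E).toSphere) := by
    have hcv : Continuous fun v : sphere (0 : E) 1 => TT h v :=
      (TT_cont hh).comp continuous_subtype_val
    exact hcv.integrable_of_hasCompactSupport (HasCompactSupport.of_compactSpace _)
  rw [integral_add iq iT] at hmain
  set A := ∫ v : sphere (0 : E) 1, (h v - c) ^ 2 ∂((volume : Measure E).toSphere)
  set T := ∫ v : sphere (0 : E) 1, TT h v ∂((volume : Measure E).toSphere)
  have h5 : (2 * Z * Mo n 0) * (n * A) ≤ (2 * Z * Mo n 0) * (A + T) := by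
    calc (2 * Z * Mo n 0) * (n * A) = 2 * Z * (A * (n * Mo n 0)) := by ring
      _ ≤ 2 * (Z * ((A + T) * Mo n 0)) := hmain
      _ = _ := by ring
  have h6 := le_of_mul_le_mul_left h5 (by positivity)
  linarith

end Pool.Agent.N822.HC
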