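import Mathlib
import Pool.Agent.N822.HC.Sph3
import Pool.Agent.N822.HC.Rad

/-!
Lower bounds for the weighted Hardy quotient.
-/

set_option autoImplicit false
set_option linter.unusedSectionVars false
set_option linter.unusedVariables false

open MeasureTheory Set Filter Topology Real Metric
open scoped RealInnerProductSpace

noncomputable section

namespace Pool.Agent.N822.HC

variable {E : Type*} [NormedAddCommGroup E] [InnerProductSpace ℝ E] [FiniteDimensional ℝ E]
  [MeasurableSpace E] [BorelSpace E]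

theorem sph_int {f : sphere (0 : E) 1 → ℝ} (hf : Continuous f) :
    Integrable f ((volume : Measure E).toSphere) :=
  hf.integrable_of_hasCompactSupport (HasCompactSupport.of_compactSpace _)

/-- continuity of sphere integrals -/
theorem sph_cont {k : ℝ → sphere (0 : E) 1 → ℝ} (hk : Continuous fun p : ℝ × sphere (0 : E) 1 => k p.1 p.2) :
    Continuous fun r => ∫ v, k r v ∂((volume : Measure E).toSphere) := by
  have h := continuous_parametric_integral_of_continuous (μ := (volume : Measure E).toSphere)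
    (f := k) hk (s := univ) isCompact_univ
  simpa using h

/-- Fubini on `[0,R] × S` -/
theorem sph_swap {k : ℝ → sphere (0 : E) 1 → ℝ}
    (hk : Continuous fun p : ℝ × sphere (0 : E) 1 => k p.1 p.2) {R : ℝ} (hR : 0 ≤ R) :
    ∫ v, (∫ r in (0:ℝ)..R, k r v) ∂((volume : Measure E).toSphere) =
      ∫ r in (0:ℝ)..R, ∫ v, k r v ∂((volume : Measure E).toSphere) := by
  symm
  apply intervalIntegral_integral_swap
  have hcpt : IsCompact ((Icc 0 R : Set ℝ) ×ˢ (univ : Set (sphere (0 : E) 1))) :=
    isCompact_Icc.prod isCompact_univ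
  obtain ⟨C, hC⟩ := hcpt.exists_bound_of_continuousOn (f := fun p : ℝ × sphere (0 : E) 1 => k p.1 p.2)
    hk.continuousOn
  rw [uIoc_of_le hR]
  have hfin : IsFiniteMeasure ((volume.restrict (Ioc 0 R)).prod ((volume : Measure E).toSphere)) :=
    inferInstance
  refine Integrable.mono' (integrable_const C) hk.aestronglyMeasurable ?_
  have h1 : ∀ᵐ r ∂(volume.restrict (Ioc 0 R)), ∀ᵐ v ∂((volume : Measure E).toSphere),
      ‖k r v‖ ≤ C := by
    filter_upwards [ae_restrict_mem measurableSet_Ioc] with r hr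
    exact Eventually.of_forall fun v => hC (r, v) ⟨⟨hr.1.le, hr.2⟩, mem_univ _⟩
  have hms : MeasurableSet {p : ℝ × sphere (0 : E) 1 | ‖k p.1 p.2‖ ≤ C} :=
    (isClosed_le hk.norm continuous_const).measurableSet
  exact (Measure.ae_prod_iff_ae_ae hms).2 h1

theorem polarR [Nontrivial E] {g : E → ℝ} (hg : Continuous g) {R : ℝ} (hR : 0 ≤ R)
    (h0 : ∀ x, R ≤ ‖x‖ → g x = 0) :
    ∫ x, g x = ∫ r in (0:ℝ)..R, r ^ (Module.finrank ℝ E - 1) *
      ∫ v : sphere (0 : E) 1, g (r • (v : E)) ∂((volume : Measure E).toSphere) := by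
  have hcs : HasCompactSupport g := by
    refine HasCompactSupport.of_support_subset_isCompact (isCompact_closedBall (0:E) R) fun x hx => ?_
    rw [mem_closedBall_zero_iff]
    by_contra h
    exact hx (h0 x (not_le.1 h).le)
  rw [polarF g (hg.integrable_of_hasCompactSupport hcs)]
  have hk : Continuous fun p : ℝ × sphere (0 : E) 1 =>
      p.1 ^ (Module.finrank ℝ E - 1) * g (p.1 • (p.2 : E)) := by fun_prop
  have e := sph_swap (E := E) (k := fun r v => r ^ (Module.finrank ℝ E - 1) * g (r • (v : E))) hk hR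
  simp only [integral_const_mul] at e
  rw [← e]
  congr 1
  funext v
  rw [intervalIntegral.integral_of_le hR]
  have hsub : Ioc 0 R ⊆ Ioi (0:ℝ) := fun r hr => hr.1
  refine setIntegral_eq_of_subset_of_forall_sdiff_eq_zero measurableSet_Ioi hsub fun r hr => ?_
  have hr0 : (0:ℝ) < r := hr.1
  have hrR : R ≤ r := by
    by_contra h
    exact hr.2 ⟨hr0, (not_le.1 h).le⟩
  have hv : ‖(v : E)‖ = 1 := by simp
  rw [h0 (r • (v : E)) (by rw [norm_smul, hv, mul_one, Real.norm_eq_abs, abs_of_pos hr0]; exact hrR),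
    mul_zero]

/-- the data of a smooth function of compact support -/
structure Good (u : E → ℝ) (R : ℝ) : Prop where
  c1 : ContDiff ℝ 1 u
  R0 : 0 < R
  z : ∀ x, R ≤ ‖x‖ → u x = 0
  z' : ∀ x, R ≤ ‖x‖ → fderiv ℝ u x = 0

namespace Good

variable {u : E → ℝ} {R : ℝ} (hu : Good u R)
include hu

theorem cu : Continuous u := hu.c1.continuous
theorem cdu : Continuous (fderiv ℝ u) := hu.c1.continuous_fderiv (by norm_num)

/-- radial derivative -/
theorem drad (v : E) (r : ℝ) : HasDerivAt (fun r : ℝ => u (r • v)) (fderiv ℝ u (r • v) v) r := by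
  have h1 : HasDerivAt (fun r : ℝ => r • v) v r := by
    have := (hasDerivAt_id r).smul_const v
    simpa using this
  exact ((hu.c1.differentiable (by norm_num) _).hasFDerivAt).comp_hasDerivAt r h1

theorem crad : Continuous fun p : ℝ × sphere (0 : E) 1 => fderiv ℝ u (p.1 • (p.2 : E)) (p.2 : E) := by
  have h := hu.cdu
  exact (h.comp (by fun_prop : Continuous fun p : ℝ × sphere (0 : E) 1 => p.1 • (p.2 : E))).clm_apply
    (by fun_prop)

theorem cudu : Continuous fun p : ℝ × sphere (0 : E) 1 => u (p.1 • (p.2 : E)) := by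
  have h := hu.cu
  fun_prop

theorem cn : Continuous fun p : ℝ × sphere (0 : E) 1 => ‖fderiv ℝ u (p.1 • (p.2 : E))‖ := by
  have h := hu.cdu
  fun_prop

/-- energy in polar coordinates -/
theorem energy [Nontrivial E] (α : ℝ) :
    ∫ x, (1 + ‖x‖ ^ 2) ^ α * ‖fderiv ℝ u x‖ ^ 2 = ∫ r in (0:ℝ)..R,
      r ^ (Module.finrank ℝ E - 1) * wt α r *
        ∫ v : sphere (0 : E) 1, ‖fderiv ℝ u (r • (v : E))‖ ^ 2 ∂((volume : Measure E).toSphere) := by
  have hc : Continuous fun x : E => (1 + ‖x‖ ^ 2) ^ α * ‖fderiv ℝ u x‖ ^ 2 := by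
    have h := hu.cdu
    refine Continuous.mul ?_ (by fun_prop)
    exact (by fun_prop : Continuous fun x : E => 1 + ‖x‖ ^ 2).rpow_const
      fun x => Or.inl (by positivity)
  rw [polarR hc hu.R0.le (fun x hx => by rw [hu.z' x hx, norm_zero]; ring)]
  refine intervalIntegral.integral_congr fun r hr => ?_
  rw [uIcc_of_le hu.R0.le] at hr
  rw [mul_assoc]
  congr 1
  rw [← integral_const_mul]
  refine integral_congr_ae (Eventually.of_forall fun v => ?_)
  have hv : ‖(v : E)‖ = 1 := by simp
  simp only [wt]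
  rw [norm_smul, hv, mul_one, Real.norm_eq_abs, sq_abs]

/-- mass in polar coordinates -/
theorem mass [Nontrivial E] (κ : ℝ) (k : ℕ) (hk : k ≠ 0) :
    ∫ x, (1 + ‖x‖ ^ 2) ^ κ * u x ^ k = ∫ r in (0:ℝ)..R,
      r ^ (Module.finrank ℝ E - 1) * wt κ r *
        ∫ v : sphere (0 : E) 1, u (r • (v : E)) ^ k ∂((volume : Measure E).toSphere) := by
  have hc : Continuous fun x : E => (1 + ‖x‖ ^ 2) ^ κ * u x ^ k := by
    have h := hu.cu
    refine Continuous.mul ?_ (by fun_prop)
    exact (by fun_prop : Continuous fun x : E => 1 + ‖x‖ ^ 2).rpow_const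
      fun x => Or.inl (by positivity)
  rw [polarR hc hu.R0.le (fun x hx => by rw [hu.z x hx, zero_pow hk]; ring)]
  refine intervalIntegral.integral_congr fun r hr => ?_
  rw [uIcc_of_le hu.R0.le] at hr
  rw [mul_assoc]
  congr 1
  rw [← integral_const_mul]
  refine integral_congr_ae (Eventually.of_forall fun v => ?_)
  have hv : ‖(v : E)‖ = 1 := by simp
  simp only [wt]
  rw [norm_smul, hv, mul_one, Real.norm_eq_abs, sq_abs]

/-- lower bound without the mean condition -/
theorem low_free [Nontrivial E] {α β lam : ℝ} (h0 : lam ≤ 2 * β * Module.finrank ℝ E)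
    (h1 : lam ≤ 2 * β * (Module.finrank ℝ E + 2 * α - 2 - 2 * β)) :
    lam * ∫ x, (1 + ‖x‖ ^ 2) ^ (α - 1) * u x ^ 2 ≤ ∫ x, (1 + ‖x‖ ^ 2) ^ α * ‖fderiv ℝ u x‖ ^ 2 := by
  have hn : 1 ≤ Module.finrank ℝ E := Module.finrank_pos
  have w0 := wt_cont α
  have w1 := wt_cont (α - 1)
  have c0 := hu.cu
  have c1 := hu.crad
  have c2 := hu.cudu
  have c3 := hu.cn
  rw [hu.energy α, hu.mass (α - 1) 2 two_ne_zero]
  set n := Module.finrank ℝ E with hndef
  have hR := hu.R0.le
  -- swap forms
  have s1 := sph_swap (E := E) (k := fun r v => r ^ (n - 1) * wt (α - 1) r * u (r • (v : E)) ^ 2)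
    (by fun_prop) hR
  have s2 := sph_swap (E := E)
    (k := fun r v => r ^ (n - 1) * wt α r * (fderiv ℝ u (r • (v : E)) (v : E)) ^ 2)
    (by fun_prop) hR
  simp only [integral_const_mul] at s1 s2
  have hle : ∫ v : sphere (0 : E) 1, (lam * ∫ r in (0:ℝ)..R, r ^ (n - 1) * wt (α - 1) r *
      u (r • (v : E)) ^ 2) ∂((volume : Measure E).toSphere) ≤
      ∫ v : sphere (0 : E) 1, (∫ r in (0:ℝ)..R, r ^ (n - 1) * wt α r *
        (fderiv ℝ u (r • (v : E)) (v : E)) ^ 2) ∂((volume : Measure E).toSphere) := by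
    have i1 : Continuous fun v : sphere (0 : E) 1 => ∫ r in (0:ℝ)..R, r ^ (n - 1) * wt (α - 1) r *
      u (r • (v : E)) ^ 2 := by
      apply intervalIntegral.continuous_parametric_intervalIntegral_of_continuous' 
      fun_prop
    have i2 : Continuous fun v : sphere (0 : E) 1 => ∫ r in (0:ℝ)..R, r ^ (n - 1) * wt α r *
        (fderiv ℝ u (r • (v : E)) (v : E)) ^ 2 := by
      apply intervalIntegral.continuous_parametric_intervalIntegral_of_continuous' 
      have := c1.comp (continuous_swap (X := sphere (0 : E) 1) (Y := ℝ))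
      simp only [Function.comp_def, Prod.swap] at this
      fun_prop
    refine integral_mono (sph_int (by fun_prop)) (sph_int i2) fun v => ?_
    refine rad_free hn hR h0 h1 (v := fun r => u (r • (v : E)))
      (v' := fun r => fderiv ℝ u (r • (v : E)) (v : E)) (fun r => hu.drad _ r) ?_ ?_
    · exact c1.comp (by fun_prop : Continuous fun r : ℝ => (r, v))
    · exact hu.z _ (by rw [norm_smul, Real.norm_eq_abs, abs_of_pos hu.R0]; simp)
  rw [integral_const_mul, s1, s2] at hle
  refine hle.trans ?_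
  have j1 : Continuous fun r => ∫ v : sphere (0 : E) 1, (fderiv ℝ u (r • (v : E)) (v : E)) ^ 2
      ∂((volume : Measure E).toSphere) := sph_cont (by fun_prop)
  have j2 : Continuous fun r => ∫ v : sphere (0 : E) 1, ‖fderiv ℝ u (r • (v : E))‖ ^ 2
      ∂((volume : Measure E).toSphere) := sph_cont (by fun_prop)
  refine intervalIntegral.integral_mono_on hR (Continuous.intervalIntegrable (by fun_prop) _ _)
    (Continuous.intervalIntegrable (by fun_prop) _ _) fun r hr => ?_
  refine mul_le_mul_of_nonneg_left ?_ (mul_nonneg (pow_nonneg hr.1 _) (wt_pos _ _).le)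
  refine integral_mono (sph_int ?_) (sph_int ?_) fun v => ?_
  · exact (c1.comp (by fun_prop : Continuous fun v : sphere (0 : E) 1 => (r, v))).pow 2
  · exact (c3.comp (by fun_prop : Continuous fun v : sphere (0 : E) 1 => (r, v))).pow 2
  · have h := (fderiv ℝ u (r • (v : E))).le_opNorm (v : E)
    have hv : ‖(v : E)‖ = 1 := by simp
    rw [hv, mul_one, Real.norm_eq_abs] at h
    rw [← sq_abs]
    exact pow_le_pow_left₀ (abs_nonneg _) h 2

end Good

end Pool.Agent.N822.HC
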