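import Mathlib
import Pool.Agent.N822.HC.Low

/-!
Lower bounds for the weighted Hardy quotient with mean zero.
-/

set_option autoImplicit false
set_option linter.unusedSectionVars false
set_option linter.unusedVariables false

open MeasureTheory Set Filter Topology Real Metric
open scoped RealInnerProductSpace

noncomputable section

namespace Pool.Agent.N822.HC

variable {E : Type*} [NormedAddCommGroup E] [InnerProductSpace ℝ E] [FiniteDimensional ℝ E]
  [MeasurableSpace E] [BorelSpace E]

/-- total mass of the sphere -/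
def SS (E : Type*) [NormedAddCommGroup E] [InnerProductSpace ℝ E] [FiniteDimensional ℝ E]
  [MeasurableSpace E] [BorelSpace E] : ℝ :=
  ∫ v : sphere (0 : E) 1, (1 : ℝ) ∂((volume : Measure E).toSphere)

theorem SS_pos [Nontrivial E] : 0 < SS E := by
  unfold SS
  rw [integral_const, smul_eq_mul, mul_one, Measure.real]
  refine ENNReal.toReal_pos ?_ (measure_ne_top _ _)
  rw [Measure.toSphere_apply_univ]
  refine mul_ne_zero ?_ (measure_ball_pos _ _ one_pos).ne'
  have : 0 < Module.finrank ℝ E := Module.finrank_pos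
  exact_mod_cast this.ne'

/-- spherical mean -/
def sAv (u : E → ℝ) (r : ℝ) : ℝ :=
  (SS E)⁻¹ * ∫ v : sphere (0 : E) 1, u (r • (v : E)) ∂((volume : Measure E).toSphere)

def sAv' (u : E → ℝ) (r : ℝ) : ℝ :=
  (SS E)⁻¹ * ∫ v : sphere (0 : E) 1, fderiv ℝ u (r • (v : E)) (v : E) ∂((volume : Measure E).toSphere)

namespace Good

variable {u : E → ℝ} {R : ℝ} (hu : Good u R)
include hu

theorem dbound : ∃ C, ∀ x, ‖fderiv ℝ u x‖ ≤ C := by
  obtain ⟨C, hC⟩ := (isCompact_closedBall (0:E) R).exists_bound_of_continuousOn hu.cdu.continuousOn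
  refine ⟨max C 0, fun x => ?_⟩
  by_cases hx : ‖x‖ ≤ R
  · exact (hC x (by simpa using hx)).trans (le_max_left _ _)
  · rw [hu.z' x (not_le.1 hx).le, norm_zero]
    exact le_max_right _ _

theorem sAv_deriv (r : ℝ) : HasDerivAt (sAv u) (sAv' u r) r := by
  obtain ⟨C, hC⟩ := hu.dbound
  have c0 := hu.cu
  have c1 := hu.crad
  have h := hasDerivAt_integral_of_dominated_loc_of_deriv_le
    (μ := (volume : Measure E).toSphere) (F := fun r (v : sphere (0 : E) 1) => u (r • (v : E)))
    (F' := fun r (v : sphere (0 : E) 1) => fderiv ℝ u (r • (v : E)) (v : E)) (x₀ := r)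
    (bound := fun _ => C) (s := univ) univ_mem
    (Eventually.of_forall fun r => Continuous.aestronglyMeasurable (by fun_prop))
    (sph_int (by fun_prop))
    (Continuous.aestronglyMeasurable
      (c1.comp (by fun_prop : Continuous fun v : sphere (0 : E) 1 => (r, v))))
    (Eventually.of_forall fun v r _ => by
      have h := (fderiv ℝ u (r • (v : E))).le_opNorm (v : E)
      have hv : ‖(v : E)‖ = 1 := by simp
      rw [hv, mul_one] at h
      exact h.trans (hC _))
    (integrable_const _)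
    (Eventually.of_forall fun v r _ => hu.drad _ r)
  exact h.2.const_mul _

theorem sAv_cont' : Continuous (sAv' u) := by
  unfold sAv'
  exact continuous_const.mul (sph_cont hu.crad)

theorem sAv_cont : Continuous (sAv u) :=
  continuous_iff_continuousAt.2 fun x => (hu.sAv_deriv x).continuousAt

theorem sAv_R : sAv u R = 0 := by
  unfold sAv
  have : ∀ v : sphere (0 : E) 1, u (R • (v : E)) = 0 := fun v =>
    hu.z _ (by rw [norm_smul, Real.norm_eq_abs, abs_of_pos hu.R0]; simp)
  simp [this]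

theorem int_eq [Nontrivial E] (r : ℝ) :
    ∫ v : sphere (0 : E) 1, u (r • (v : E)) ∂((volume : Measure E).toSphere) = SS E * sAv u r := by
  unfold sAv
  rw [← mul_assoc, mul_inv_cancel₀ SS_pos.ne', one_mul]

theorem int_eq' [Nontrivial E] (r : ℝ) :
    ∫ v : sphere (0 : E) 1, fderiv ℝ u (r • (v : E)) (v : E) ∂((volume : Measure E).toSphere) =
      SS E * sAv' u r := by
  unfold sAv'
  rw [← mul_assoc, mul_inv_cancel₀ SS_pos.ne', one_mul]

/-- variance on spheres -/
theorem var_eq [Nontrivial E] (r : ℝ) :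
    ∫ v : sphere (0 : E) 1, (u (r • (v : E)) - sAv u r) ^ 2 ∂((volume : Measure E).toSphere) =
      ∫ v : sphere (0 : E) 1, u (r • (v : E)) ^ 2 ∂((volume : Measure E).toSphere) -
        SS E * sAv u r ^ 2 := by
  have c0 := hu.cu
  have e : ∀ v : sphere (0 : E) 1, (u (r • (v : E)) - sAv u r) ^ 2 =
      u (r • (v : E)) ^ 2 - 2 * sAv u r * u (r • (v : E)) + sAv u r ^ 2 * 1 := fun v => by ring
  simp_rw [e]
  rw [integral_add (sph_int (by fun_prop)) (sph_int (by fun_prop)),
    integral_sub (sph_int (by fun_prop)) (sph_int (by fun_prop)), integral_const_mul,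
    integral_const_mul, hu.int_eq]
  have : ∫ v : sphere (0 : E) 1, (1 : ℝ) ∂((volume : Measure E).toSphere) = SS E := rfl
  rw [this]
  ring

theorem var_eq' [Nontrivial E] (r : ℝ) :
    ∫ v : sphere (0 : E) 1, (fderiv ℝ u (r • (v : E)) (v : E) - sAv' u r) ^ 2
      ∂((volume : Measure E).toSphere) =
      ∫ v : sphere (0 : E) 1, (fderiv ℝ u (r • (v : E)) (v : E)) ^ 2
        ∂((volume : Measure E).toSphere) - SS E * sAv' u r ^ 2 := by
  have c1 := hu.crad.comp (by fun_prop : Continuous fun v : sphere (0 : E) 1 => (r, v))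
  simp only [Function.comp_def] at c1
  have e : ∀ v : sphere (0 : E) 1, (fderiv ℝ u (r • (v : E)) (v : E) - sAv' u r) ^ 2 =
      (fderiv ℝ u (r • (v : E)) (v : E)) ^ 2 -
        2 * sAv' u r * fderiv ℝ u (r • (v : E)) (v : E) + sAv' u r ^ 2 * 1 := fun v => by ring
  have c2 : Continuous fun v : sphere (0 : E) 1 => (fderiv ℝ u (r • (v : E)) (v : E)) ^ 2 := c1.pow 2
  have c3 : Continuous fun v : sphere (0 : E) 1 =>
    2 * sAv' u r * fderiv ℝ u (r • (v : E)) (v : E) := continuous_const.mul c1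
  have c4 : Continuous fun v : sphere (0 : E) 1 => (fderiv ℝ u (r • (v : E)) (v : E)) ^ 2 -
    2 * sAv' u r * fderiv ℝ u (r • (v : E)) (v : E) := c2.sub c3
  simp_rw [e]
  rw [integral_add (sph_int c4) (sph_int (by fun_prop)),
    integral_sub (sph_int c2) (sph_int c3), integral_const_mul,
    integral_const_mul, hu.int_eq']
  have : ∫ v : sphere (0 : E) 1, (1 : ℝ) ∂((volume : Measure E).toSphere) = SS E := rfl
  rw [this]
  ring

/-- Poincare on the sphere of radius `r` -/
theorem poin [Nontrivial E] (hn : 2 ≤ Module.finrank ℝ E) (r : ℝ) :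
    ((Module.finrank ℝ E : ℝ) - 1) *
      ∫ v : sphere (0 : E) 1, (u (r • (v : E)) - sAv u r) ^ 2 ∂((volume : Measure E).toSphere) ≤
    r ^ 2 * (∫ v : sphere (0 : E) 1, ‖fderiv ℝ u (r • (v : E))‖ ^ 2
      ∂((volume : Measure E).toSphere) -
      ∫ v : sphere (0 : E) 1, (fderiv ℝ u (r • (v : E)) (v : E)) ^ 2
        ∂((volume : Measure E).toSphere)) := by
  have c0 := hu.cu
  have cd := hu.cdu
  have c1 := hu.crad.comp (by fun_prop : Continuous fun v : sphere (0 : E) 1 => (r, v))
  simp only [Function.comp_def] at c1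
  have hh : ContDiff ℝ 1 (fun x : E => u (r • x)) := hu.c1.comp (by fun_prop)
  have h := sphere_poincare hn hh (sAv u r) (by
    rw [integral_sub (sph_int (by fun_prop)) (sph_int (by fun_prop)), hu.int_eq]
    have : ∫ v : sphere (0 : E) 1, sAv u r ∂((volume : Measure E).toSphere) =
        sAv u r * ∫ v : sphere (0 : E) 1, (1:ℝ) ∂((volume : Measure E).toSphere) := by
      rw [← integral_const_mul]; simp
    rw [this]
    have : ∫ v : sphere (0 : E) 1, (1 : ℝ) ∂((volume : Measure E).toSphere) = SS E := rfl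
    rw [this]; ring)
  refine h.trans (le_of_eq ?_)
  have c2 : Continuous fun v : sphere (0 : E) 1 => (fderiv ℝ u (r • (v : E)) (v : E)) ^ 2 := c1.pow 2
  rw [← integral_sub (sph_int (by fun_prop)) (sph_int c2), ← integral_const_mul]
  refine integral_congr_ae (Eventually.of_forall fun v => ?_)
  simp only [TT]
  have e : fderiv ℝ (fun x : E => u (r • x)) (v : E) = r • fderiv ℝ u (r • (v : E)) := by
    exact fderiv_comp_smul r
  rw [e, norm_smul, Real.norm_eq_abs, mul_pow, sq_abs]
  simp only [smul_apply, smul_eq_mul]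
  ring

/-- lower bound with the mean condition -/
theorem low_mean (hn : 3 ≤ Module.finrank ℝ E) {α γ lam : ℝ} (hlam : 0 < lam)
    (hl : lam ≤ -2 * α)
    (h0 : lam ≤ 2 * γ * Module.finrank ℝ E - 2 * (Module.finrank ℝ E + 2 * α - 2 * γ))
    (h1 : lam ≤ 2 * (γ - 1) * (Module.finrank ℝ E + 2 * α - 2 * γ))
    (hmean : ∫ x, (1 + ‖x‖ ^ 2) ^ (α - 1) * u x = 0) :
    lam * ∫ x, (1 + ‖x‖ ^ 2) ^ (α - 1) * u x ^ 2 ≤ ∫ x, (1 + ‖x‖ ^ 2) ^ α * ‖fderiv ℝ u x‖ ^ 2 := by
  have hnt : Nontrivial E := Module.nontrivial_of_finrank_pos (R := ℝ) (by omega)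
  have w0 := wt_cont α
  have w1 := wt_cont (α - 1)
  have c0 := hu.cu
  have c1 := hu.crad
  have c2 := hu.cudu
  have c3 := hu.cn
  have a0 := hu.sAv_cont
  have a1 := hu.sAv_cont'
  have hS := SS_pos (E := E)
  have hm1 := hu.mass (α - 1) 1 one_ne_zero
  simp only [pow_one] at hm1
  rw [hmean] at hm1
  simp only [hu.int_eq] at hm1
  rw [hu.energy α, hu.mass (α - 1) 2 two_ne_zero]
  have hpo := fun r => hu.poin (by omega) r
  set n := Module.finrank ℝ E with hndef
  have hn3 : (3:ℝ) ≤ n := by exact_mod_cast hn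
  have hR := hu.R0.le
  have hmeanA : ∫ r in (0:ℝ)..R, r ^ (n - 1) * wt (α - 1) r * sAv u r = 0 := by
    have e : ∀ r, r ^ (n - 1) * wt (α - 1) r * (SS E * sAv u r) =
      SS E * (r ^ (n - 1) * wt (α - 1) r * sAv u r) := fun r => by ring
    simp_rw [e] at hm1
    rw [intervalIntegral.integral_const_mul] at hm1
    exact (mul_eq_zero.1 hm1.symm).resolve_left hS.ne'
  have hrad := rad_mean (n := n) (by omega) hu.R0 hlam h0 h1 (fun r => hu.sAv_deriv r)
    hu.sAv_cont' hu.sAv_R hmeanA
  -- spherical quantities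
  set G : ℝ → ℝ := fun r => ∫ v : sphere (0 : E) 1, (u (r • (v : E)) - sAv u r) ^ 2
    ∂((volume : Measure E).toSphere) with hG
  set D : ℝ → ℝ := fun r => ∫ v : sphere (0 : E) 1, (fderiv ℝ u (r • (v : E)) (v : E)) ^ 2
    ∂((volume : Measure E).toSphere) with hD
  set F : ℝ → ℝ := fun r => ∫ v : sphere (0 : E) 1, ‖fderiv ℝ u (r • (v : E))‖ ^ 2
    ∂((volume : Measure E).toSphere) with hF
  set M : ℝ → ℝ := fun r => ∫ v : sphere (0 : E) 1, u (r • (v : E)) ^ 2
    ∂((volume : Measure E).toSphere) with hM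
  have cG : Continuous G := sph_cont (by fun_prop)
  have cD : Continuous D := sph_cont (by fun_prop)
  have cF : Continuous F := sph_cont (by fun_prop)
  have cM : Continuous M := sph_cont (by fun_prop)
  have vG : ∀ r, M r = G r + SS E * sAv u r ^ 2 := fun r => by
    have := hu.var_eq r
    simp only [hG, hM]
    linarith
  -- angular inequality integrated over the sphere
  have hang : ∫ r in (0:ℝ)..R, (-((n : ℝ) - 1) * (r ^ (n - 3) * wt α r) -
      2 * α * (r ^ (n - 1) * wt (α - 1) r)) * G r ≤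
      ∫ r in (0:ℝ)..R, r ^ (n - 1) * wt α r * (D r - SS E * sAv' u r ^ 2) := by
    have s1 := sph_swap (E := E) (k := fun r v => (-((n : ℝ) - 1) * (r ^ (n - 3) * wt α r) -
      2 * α * (r ^ (n - 1) * wt (α - 1) r)) * (u (r • (v : E)) - sAv u r) ^ 2)
      (by fun_prop) hR
    have s2 := sph_swap (E := E)
      (k := fun r v => r ^ (n - 1) * wt α r * (fderiv ℝ u (r • (v : E)) (v : E) - sAv' u r) ^ 2)
      (by fun_prop) hR
    simp only [integral_const_mul, hu.var_eq'] at s1 s2
    rw [← s1, ← s2]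
    have i1 : Continuous fun v : sphere (0 : E) 1 => ∫ r in (0:ℝ)..R,
      (-((n : ℝ) - 1) * (r ^ (n - 3) * wt α r) -
      2 * α * (r ^ (n - 1) * wt (α - 1) r)) * (u (r • (v : E)) - sAv u r) ^ 2 := by
      apply intervalIntegral.continuous_parametric_intervalIntegral_of_continuous' 
      fun_prop
    have i2 : Continuous fun v : sphere (0 : E) 1 => ∫ r in (0:ℝ)..R, r ^ (n - 1) * wt α r *
        (fderiv ℝ u (r • (v : E)) (v : E) - sAv' u r) ^ 2 := by
      apply intervalIntegral.continuous_parametric_intervalIntegral_of_continuous' 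
      have := c1.comp (continuous_swap (X := sphere (0 : E) 1) (Y := ℝ))
      simp only [Function.comp_def, Prod.swap] at this
      fun_prop
    refine integral_mono (sph_int i1) (sph_int i2) fun v => ?_
    refine rad_ang hn hR (v := fun r => u (r • (v : E)) - sAv u r)
      (v' := fun r => fderiv ℝ u (r • (v : E)) (v : E) - sAv' u r)
      (fun r => (hu.drad _ r).sub (hu.sAv_deriv r)) ?_ ?_
    · exact (c1.comp (by fun_prop : Continuous fun r : ℝ => (r, v))).sub a1
    · rw [hu.sAv_R, hu.z _ (by rw [norm_smul, Real.norm_eq_abs, abs_of_pos hu.R0]; simp), sub_zero]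
  have hpoin : ∫ r in (0:ℝ)..R, ((n : ℝ) - 1) * (r ^ (n - 3) * wt α r) * G r ≤
      ∫ r in (0:ℝ)..R, r ^ (n - 1) * wt α r * (F r - D r) := by
    refine intervalIntegral.integral_mono_on hR (Continuous.intervalIntegrable (by fun_prop) _ _)
      (Continuous.intervalIntegrable (by fun_prop) _ _) fun r hr => ?_
    have h := mul_le_mul_of_nonneg_left (hpo r) (mul_nonneg (pow_nonneg hr.1 (n - 3)) (wt_pos α r).le)
    have e : r ^ (n - 1) = r ^ (n - 3) * r ^ 2 := by rw [← pow_add]; congr 1; omega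
    rw [e]
    simp only [hG, hF, hD]
    linarith
  -- assemble
  have k1 : ∫ r in (0:ℝ)..R, (-2 * α) * (r ^ (n - 1) * wt (α - 1) r * G r) ≤
      ∫ r in (0:ℝ)..R, (r ^ (n - 1) * wt α r * F r - SS E * (r ^ (n - 1) * wt α r * sAv' u r ^ 2)) := by
    have e1 := intervalIntegral.integral_add (μ := volume) (a := 0) (b := R)
      (f := fun r => (-((n : ℝ) - 1) * (r ^ (n - 3) * wt α r) -
        2 * α * (r ^ (n - 1) * wt (α - 1) r)) * G r)
      (g := fun r => ((n : ℝ) - 1) * (r ^ (n - 3) * wt α r) * G r)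
      (Continuous.intervalIntegrable (by fun_prop) _ _)
      (Continuous.intervalIntegrable (by fun_prop) _ _)
    have e2 := intervalIntegral.integral_add (μ := volume) (a := 0) (b := R)
      (f := fun r => r ^ (n - 1) * wt α r * (D r - SS E * sAv' u r ^ 2))
      (g := fun r => r ^ (n - 1) * wt α r * (F r - D r))
      (Continuous.intervalIntegrable (by fun_prop) _ _)
      (Continuous.intervalIntegrable (by fun_prop) _ _)
    have e3 : ∫ r in (0:ℝ)..R, (-2 * α) * (r ^ (n - 1) * wt (α - 1) r * G r) =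
        ∫ r in (0:ℝ)..R, ((-((n : ℝ) - 1) * (r ^ (n - 3) * wt α r) -
        2 * α * (r ^ (n - 1) * wt (α - 1) r)) * G r +
        ((n : ℝ) - 1) * (r ^ (n - 3) * wt α r) * G r) := by
      congr 1; funext r; ring
    have e4 : ∫ r in (0:ℝ)..R, (r ^ (n - 1) * wt α r * F r -
        SS E * (r ^ (n - 1) * wt α r * sAv' u r ^ 2)) =
        ∫ r in (0:ℝ)..R, (r ^ (n - 1) * wt α r * (D r - SS E * sAv' u r ^ 2) +
          r ^ (n - 1) * wt α r * (F r - D r)) := by
      congr 1; funext r; ring
    rw [e3, e4, e1, e2]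
    exact add_le_add hang hpoin
  rw [intervalIntegral.integral_sub (Continuous.intervalIntegrable (by fun_prop) _ _)
    (Continuous.intervalIntegrable (by fun_prop) _ _), intervalIntegral.integral_const_mul,
    intervalIntegral.integral_const_mul] at k1
  have k2 : ∫ r in (0:ℝ)..R, r ^ (n - 1) * wt (α - 1) r * M r =
      (∫ r in (0:ℝ)..R, r ^ (n - 1) * wt (α - 1) r * G r) +
        SS E * ∫ r in (0:ℝ)..R, r ^ (n - 1) * wt (α - 1) r * sAv u r ^ 2 := by
    rw [← intervalIntegral.integral_const_mul, ← intervalIntegral.integral_add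
      (Continuous.intervalIntegrable (by fun_prop) _ _)
      (Continuous.intervalIntegrable (by fun_prop) _ _)]
    congr 1
    funext r
    rw [vG r]
    ring
  have hG0 : 0 ≤ ∫ r in (0:ℝ)..R, r ^ (n - 1) * wt (α - 1) r * G r := by
    refine intervalIntegral.integral_nonneg hR fun r hr => ?_
    exact mul_nonneg (mul_nonneg (pow_nonneg hr.1 _) (wt_pos _ _).le)
      (integral_nonneg fun v => sq_nonneg _)
  rw [k2]
  have t1 := mul_le_mul_of_nonneg_right hl hG0
  have t2 := mul_le_mul_of_nonneg_left hrad hS.le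
  nlinarith [t1, t2, k1]

end Good

end Pool.Agent.N822.HC
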